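import Pool.Agent.H19.EW.L.H353R2_K1
import Pool.Agent.H19.EW.L.H353R2_Z7

open Complex MeasureTheory Filter Topology Set Metric

namespace H353

theorem ZS_countable (σ : ℝ) (h1 : 1 / 2 < σ) (h2 : σ < 1) : Countable (ZS σ) := by
  have h := (zero_sum σ h1 h2).countable_support
  have e : Function.support (fun ρ : ZS σ => (mu ρ.1 : ℝ) / ρ.1.im) = Set.univ := by
    rw [Set.eq_univ_iff_forall]
    intro ρ
    rw [Function.mem_support]
    have := mu_pos ρ.1 ρ.2.1
    have h3 : (0:ℝ) < mu ρ.1 := by exact_mod_cast this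
    exact (div_pos h3 ρ.2.2.2).ne'
  rw [e] at h
  exact Set.countable_univ_iff.1 h

/-- index set: zeros with multiplicity -/
abbrev IX (σ : ℝ) : Type := Σ ρ : ZS σ, Fin (mu ρ.1)

noncomputable def bx (σ : ℝ) : IX σ → ℝ := fun i => i.1.1.re
noncomputable def hx (σ : ℝ) : IX σ → ℝ := fun i => Real.pi / i.1.1.im

theorem hx_pos (σ : ℝ) (i : IX σ) : 0 < hx σ i := div_pos Real.pi_pos i.1.2.2.2

theorem hx_summable (σ : ℝ) (h1 : 1 / 2 < σ) (h2 : σ < 1) : Summable (hx σ) := by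
  rw [summable_sigma_of_nonneg (fun i => (hx_pos σ i).le)]
  refine ⟨fun ρ => Summable.of_finite, ?_⟩
  have e : (fun ρ : ZS σ => ∑' j : Fin (mu ρ.1), hx σ ⟨ρ, j⟩) =
      fun ρ => Real.pi * ((mu ρ.1 : ℝ) / ρ.1.im) := by
    funext ρ
    rw [tsum_fintype]
    simp only [hx, Finset.sum_const, Finset.card_univ, Fintype.card_fin, nsmul_eq_mul]
    ring
  rw [e]
  exact (zero_sum σ h1 h2).mul_left _

theorem hx_tsum (σ : ℝ) (h1 : 1 / 2 < σ) (h2 : σ < 1) :
    ∑' i, hx σ i = Real.pi * ∑' ρ : ZS σ, ((mu ρ.1 : ℝ) / ρ.1.im) := by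
  rw [(hx_summable σ h1 h2).tsum_sigma]
  rw [← tsum_mul_left]
  refine tsum_congr fun ρ => ?_
  rw [tsum_fintype]
  simp only [hx, Finset.sum_const, Finset.card_univ, Fintype.card_fin, nsmul_eq_mul]
  ring

theorem FF_conj (s : ℂ) : FF (starRingEnd ℂ s) = starRingEnd ℂ (FF s) := by
  by_cases h : s = 1
  · rw [h]
    simp only [map_one]
    rw [show FF 1 = 1 from ZU.J_g2b.FF_one]
    simp
  · have h' : starRingEnd ℂ s ≠ 1 := by
      intro h0
      apply h
      have := congrArg (starRingEnd ℂ) h0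
      simpa using this
    rw [show FF (starRingEnd ℂ s) = (starRingEnd ℂ s - 1) * riemannZeta (starRingEnd ℂ s) from
      ZU.J_g2b.FF_ne h', show FF s = (s - 1) * riemannZeta s from ZU.J_g2b.FF_ne h, riemannZeta_conj]
    simp

theorem order_conj_le (ρ : ℂ) (n : ℕ) (h : (n : ℕ∞) ≤ analyticOrderAt FF ρ) :
    (n : ℕ∞) ≤ analyticOrderAt FF (starRingEnd ℂ ρ) := by
  rw [natCast_le_analyticOrderAt (FF_anal _)] at h ⊢
  obtain ⟨g, hg, hgeq⟩ := h
  refine ⟨fun z => starRingEnd ℂ (g (starRingEnd ℂ z)), ?_, ?_⟩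
  · have hg1 : ∀ᶠ z in 𝓝 ρ, DifferentiableAt ℂ g z := by
      filter_upwards [hg.eventually_analyticAt] with z hz using hz.differentiableAt
    rw [Complex.analyticAt_iff_eventually_differentiableAt]
    have hc : Tendsto (starRingEnd ℂ) (𝓝 (starRingEnd ℂ ρ)) (𝓝 ρ) := by
      have := (Complex.continuous_conj).tendsto (starRingEnd ℂ ρ)
      simpa using this
    filter_upwards [hc.eventually hg1] with z hz
    exact differentiableAt_conj_conj_iff.2 hz
  · have hc : Tendsto (starRingEnd ℂ) (𝓝 (starRingEnd ℂ ρ)) (𝓝 ρ) := by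
      have := (Complex.continuous_conj).tendsto (starRingEnd ℂ ρ)
      simpa using this
    filter_upwards [hc.eventually hgeq] with z hz
    have h2 : FF z = starRingEnd ℂ (FF (starRingEnd ℂ z)) := by
      rw [FF_conj]; simp
    rw [h2, hz]
    simp

theorem mu_conj (ρ : ℂ) : mu (starRingEnd ℂ ρ) = mu ρ := by
  have h1 : ∀ ρ : ℂ, mu ρ ≤ mu (starRingEnd ℂ ρ) := by
    intro ρ
    have := order_conj_le ρ (mu ρ) (mu_cast ρ).le
    rw [← mu_cast] at this
    exact_mod_cast this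
  refine le_antisymm ?_ (h1 ρ)
  have := h1 (starRingEnd ℂ ρ)
  simpa using this

/-- the killing function -/
noncomputable def KS (σ : ℝ) : ℂ → ℂ := KK (bx σ) (hx σ)

theorem KS_diff (σ : ℝ) (h1 : 1 / 2 < σ) (h2 : σ < 1) : Differentiable ℂ (KS σ) := by
  have := ZS_countable σ h1 h2
  exact KK_diff _ _ (fun i => (hx_pos σ i).le) (hx_summable σ h1 h2)

theorem KS_norm (σ : ℝ) (s : ℂ) (hs : 0 ≤ s.re) : ‖KS σ s‖ ≤ 1 :=
  KK_norm _ _ (fun i => (hx_pos σ i).le) s hs

theorem KS_order_up (σ : ℝ) (h1 : 1 / 2 < σ) (h2 : σ < 1) (ρ : ZS σ) (ρ' : ℂ)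
    (hρ' : ρ' = ρ.1 ∨ ρ' = starRingEnd ℂ ρ.1) :
    (mu ρ.1 : ℕ∞) ≤ analyticOrderAt (KS σ) ρ' := by
  classical
  have := ZS_countable σ h1 h2
  set F : Finset (IX σ) := Finset.univ.map ⟨fun j : Fin (mu ρ.1) => (⟨ρ, j⟩ : IX σ), by
    intro a b hab
    simpa using hab⟩ with hF
  have hcard : F.card = mu ρ.1 := by
    rw [hF, Finset.card_map, Finset.card_univ, Fintype.card_fin]
  have key := KK_order (bx σ) (hx σ) (fun i => (hx_pos σ i).le) (hx_summable σ h1 h2) ρ' F ?_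
  · rw [hcard] at key
    exact key
  · intro i hi
    rw [hF, Finset.mem_map] at hi
    obtain ⟨j, _, rfl⟩ := hi
    refine EE_vanish _ _ _ ?_
    have him : ρ.1.im ≠ 0 := ρ.2.2.2.ne'
    simp only [Function.Embedding.coeFn_mk, bx, hx]
    rcases hρ' with h | h
    · right
      rw [h]
      have e : ((ρ.1.re : ℂ) - ρ.1) = -(ρ.1.im * I) := by
        apply Complex.ext <;> simp
      rw [e]
      push_cast
      have : (ρ.1.im : ℂ) ≠ 0 := by exact_mod_cast him
      field_simp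
    · left
      rw [h]
      have e : ((ρ.1.re : ℂ) - starRingEnd ℂ ρ.1) = (ρ.1.im * I) := by
        apply Complex.ext <;> simp
      rw [e]
      push_cast
      have : (ρ.1.im : ℂ) ≠ 0 := by exact_mod_cast him
      field_simp

theorem KS_order (σ : ℝ) (h1 : 1 / 2 < σ) (h2 : σ < 1) (ρ : ℂ) (hρ : FF ρ = 0) (hre : σ ≤ ρ.re) :
    analyticOrderAt FF ρ ≤ analyticOrderAt (KS σ) ρ := by
  rw [← mu_cast]
  have him := FF_im_ne ρ hρ (by linarith)
  rcases lt_or_gt_of_ne him with h | h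
  · have hz : FF (starRingEnd ℂ ρ) = 0 := by rw [FF_conj, hρ]; simp
    have := KS_order_up σ h1 h2 ⟨starRingEnd ℂ ρ, hz, by simpa using hre, by simpa using h⟩ ρ
      (Or.inr (by simp))
    simp only at this
    rwa [mu_conj] at this
  · exact KS_order_up σ h1 h2 ⟨ρ, hρ, hre, h⟩ ρ (Or.inl rfl)

/-- existence of a holomorphic quotient -/
theorem exists_quot (U : Set ℂ) (F K : ℂ → ℂ) (hF : Differentiable ℂ F)
    (hK : Differentiable ℂ K) (ntop : ∀ ρ, analyticOrderAt F ρ ≠ ⊤)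
    (ord : ∀ ρ ∈ U, F ρ = 0 → analyticOrderAt F ρ ≤ analyticOrderAt K ρ) :
    ∃ H : ℂ → ℂ, (∀ z ∈ U, AnalyticAt ℂ H z) ∧ ∀ s ∈ U, K s = F s * H s := by
  have hFa : ∀ z, AnalyticAt ℂ F z := fun z => hF.analyticAt z
  have hKa : ∀ z, AnalyticAt ℂ K z := fun z => hK.analyticAt z
  have hmer : MeromorphicOn (K / F) U := fun z _ => (hKa z).meromorphicAt.div (hFa z).meromorphicAt
  have hord : ∀ z ∈ U, 0 ≤ meromorphicOrderAt (K / F) z := by
    intro z hz
    obtain ⟨n, hn⟩ := ENat.ne_top_iff_exists.1 (ntop z)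
    have hKn : (n : ℕ∞) ≤ analyticOrderAt K z := by
      by_cases h0 : F z = 0
      · rw [hn]; exact ord z hz h0
      · have : analyticOrderAt F z = 0 := (hFa z).analyticOrderAt_eq_zero.2 h0
        rw [hn, this]; exact zero_le
    obtain ⟨g, hg, hgeq⟩ := (natCast_le_analyticOrderAt (hKa z)).1 hKn
    obtain ⟨f, hf, hf0, hfeq⟩ := ((hFa z).analyticOrderAt_eq_natCast).1 hn.symm
    have e : (K / F) =ᶠ[𝓝[≠] z] (g / f) := by
      have h1 : ∀ᶠ w in 𝓝[≠] z, K w = (w - z) ^ n • g w := nhdsWithin_le_nhds hgeq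
      have h2 : ∀ᶠ w in 𝓝[≠] z, F w = (w - z) ^ n • f w := nhdsWithin_le_nhds hfeq
      filter_upwards [h1, h2, self_mem_nhdsWithin] with w hw1 hw2 hw3
      have hw4 : (w - z) ^ n ≠ 0 := pow_ne_zero _ (sub_ne_zero.2 hw3)
      simp only [Pi.div_apply, hw1, hw2, smul_eq_mul]
      rw [mul_div_mul_left _ _ hw4]
    rw [meromorphicOrderAt_congr e]
    exact (hg.div hf hf0).meromorphicOrderAt_nonneg
  set H := toMeromorphicNFOn (K / F) U with hH
  have hHa : ∀ z ∈ U, AnalyticAt ℂ H z := by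
    intro z hz
    have hNF : MeromorphicNFAt H z := meromorphicNFOn_toMeromorphicNFOn (K / F) U hz
    rw [← hNF.meromorphicOrderAt_nonneg_iff_analyticAt, hH, meromorphicOrderAt_toMeromorphicNFOn hmer hz]
    exact hord z hz
  refine ⟨H, hHa, ?_⟩
  intro s hs
  have h1 : H =ᶠ[𝓝[≠] s] (K / F) := hmer.toMeromorphicNFOn_eq_self_on_nhdsNE hs
  have h2 : ∀ᶠ w in 𝓝[≠] s, F w ≠ 0 := by
    rcases (hFa s).eventually_eq_zero_or_eventually_ne_zero with h | h
    · exact absurd (analyticOrderAt_eq_top.2 h) (ntop s)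
    · exact h
  have h3 : (fun w => F w * H w) =ᶠ[𝓝[≠] s] K := by
    filter_upwards [h1, h2] with w hw1 hw2
    rw [hw1]
    simp only [Pi.div_apply]
    field_simp
  have c1 : Tendsto (fun w => F w * H w) (𝓝[≠] s) (𝓝 (F s * H s)) :=
    (((hFa s).continuousAt.mul (hHa s hs).continuousAt).tendsto).mono_left nhdsWithin_le_nhds
  have c2 : Tendsto K (𝓝[≠] s) (𝓝 (K s)) :=
    ((hKa s).continuousAt.tendsto).mono_left nhdsWithin_le_nhds
  exact tendsto_nhds_unique c2 (c1.congr' h3)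

/-- polynomial bound for `K / F` -/
theorem KS_le (σ θ : ℝ) (h1 : 1 / 2 < σ) (h2 : σ < θ) (h3 : θ < 1) (v : ℂ) (hv : θ ≤ v.re)
    (hv2 : v.re ≤ 2) :
    ‖KS σ v‖ ≤ ‖FF v‖ * (2 * (2 * ((1 + 2 / σ) * (5 + |v.im|) ^ 2)) ^ (2 * (2 - θ) / (θ - σ))) := by
  classical
  set c : ℂ := 2 + v.im * I with hc
  have hcre : c.re = 2 := by simp [hc]
  have hcim : c.im = v.im := by simp [hc]
  have hcn : ‖c‖ ≤ 2 + |v.im| := by
    have := Complex.norm_le_abs_re_add_abs_im c
    rw [hcre, hcim] at this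
    simpa using this
  set M : ℝ := (1 + 2 / σ) * (5 + |v.im|) ^ 2 with hM
  have hσ : 0 < σ := by linarith
  have habs := abs_nonneg v.im
  have hfin := zeros_finite (closedBall c (2 - σ)) (isCompact_closedBall c (2 - σ))
  have hFc : 1 / 2 ≤ ‖FF c‖ := FF_lower c (by rw [hcre])
  have hFc0 : 0 < ‖FF c‖ := by linarith
  have hre : ∀ w : ℂ, ∀ R : ℝ, w ∈ closedBall c R → 2 - R ≤ w.re := by
    intro w R hw
    rw [mem_closedBall, dist_eq_norm] at hw
    have := (Complex.abs_re_le_norm (w - c)).trans hw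
    rw [Complex.sub_re, hcre] at this
    linarith [(abs_le.1 this).1]
  have key := quot_bound univ isOpen_univ FF (KS σ) (ZU.J_g2b.FF_diff.differentiableOn)
    (KS_diff σ h1 (by linarith)).differentiableOn c (2 - θ) (2 - σ) (2 - σ / 2) M (by linarith)
    (by linarith) (by linarith) (subset_univ _) ?_ ?_ (by rw [← norm_pos_iff]; exact hFc0)
    hfin.toFinset mu ?_ ?_ ?_ ?_ v ?_
  · have hMpos : 1 ≤ 2 * M := by
      have : (1:ℝ) ≤ 1 + 2 / σ := by
        have : 0 < 2 / σ := by positivity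
        linarith
      rw [hM]
      nlinarith [habs, mul_nonneg habs habs]
    have hlog : Real.log (M / ‖FF c‖) ≤ Real.log (2 * M) := by
      have hMp : 0 < M := by linarith
      refine Real.log_le_log (by positivity) ?_
      rw [div_le_iff₀ hFc0]
      nlinarith
    have hexp : Real.exp (2 * Real.log (M / ‖FF c‖) * (2 - θ) / (2 - σ - (2 - θ))) ≤
        (2 * M) ^ (2 * (2 - θ) / (θ - σ)) := by
      rw [Real.rpow_def_of_pos (by linarith)]
      refine Real.exp_le_exp.2 ?_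
      have e1 : 2 - σ - (2 - θ) = θ - σ := by ring
      rw [e1]
      have hk : 0 ≤ 2 * (2 - θ) / (θ - σ) := div_nonneg (by linarith) (by linarith)
      calc 2 * Real.log (M / ‖FF c‖) * (2 - θ) / (θ - σ)
          = Real.log (M / ‖FF c‖) * (2 * (2 - θ) / (θ - σ)) := by ring
        _ ≤ Real.log (2 * M) * (2 * (2 - θ) / (θ - σ)) := mul_le_mul_of_nonneg_right hlog hk
    have hF0 := norm_nonneg (FF v)
    have hP : 0 ≤ (2 * M) ^ (2 * (2 - θ) / (θ - σ)) := Real.rpow_nonneg (by linarith) _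
    have hKn := norm_nonneg (KS σ v)
    have step : ‖KS σ v‖ * (1 / 2) ≤ ‖FF v‖ * (2 * M) ^ (2 * (2 - θ) / (θ - σ)) :=
      calc ‖KS σ v‖ * (1 / 2) ≤ ‖KS σ v‖ * ‖FF c‖ := mul_le_mul_of_nonneg_left hFc hKn
        _ ≤ _ := key
        _ ≤ _ := mul_le_mul_of_nonneg_left hexp hF0
    linarith
  · intro w hw
    have hw' : w ∈ closedBall c (2 - σ / 2) := sphere_subset_closedBall hw
    have r1 := hre w _ hw'
    have b := FF_bound (σ / 2) (by linarith) w (by linarith)
    have hwn : ‖w‖ ≤ 4 + |v.im| := by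
      have : ‖w‖ ≤ ‖w - c‖ + ‖c‖ := by
        simpa using norm_add_le (w - c) c
      rw [mem_closedBall, dist_eq_norm] at hw'
      linarith
    refine b.trans ?_
    rw [hM]
    have e : (1 + 1 / (σ / 2)) = 1 + 2 / σ := by field_simp
    rw [e]
    have hw0 := norm_nonneg w
    have : 0 < 2 / σ := by positivity
    refine mul_le_mul_of_nonneg_left ?_ (by linarith)
    exact pow_le_pow_left₀ (by linarith) (by linarith) 2
  · intro w hw
    exact KS_norm σ w (by have := hre w _ (sphere_subset_closedBall hw); linarith)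
  · intro ρ hρ
    rw [Set.Finite.mem_toFinset] at hρ
    exact hρ.2
  · intro ρ _
    exact mu_cast ρ
  · intro ρ hρ
    rw [Set.Finite.mem_toFinset] at hρ
    rw [mu_cast]
    refine KS_order σ h1 (by linarith) ρ hρ.1 ?_
    have := hre ρ _ hρ.2
    linarith
  · intro w hw hwS h0
    exact hwS ((Set.Finite.mem_toFinset hfin).2 ⟨h0, hw⟩)
  · rw [mem_closedBall, dist_eq_norm]
    have e : v - c = ((v.re - 2 : ℝ) : ℂ) := by
      rw [hc]
      apply Complex.ext <;> simp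
    rw [e, Complex.norm_real, Real.norm_eq_abs, abs_of_nonpos (by linarith)]
    linarith

end H353
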