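import Pool.Agent.H19.EW.L.W190_A10

/-! # The parameters -/

set_option autoImplicit false
set_option maxHeartbeats 4000000

open Filter Topology Asymptotics

namespace Pool.Agent.W190

noncomputable section

def Nn (u : ℝ) : ℕ := ⌈10 * u⌉₊

def et (c κ u : ℝ) : ℝ := Real.log (1 + c * u ^ (-κ))

def hf (c κ q u : ℝ) : ℝ := et c κ u / (q * (Nn u + 3))

theorem et_lower {c κ u : ℝ} (hc : 0 < c) (hκ : 0 ≤ κ) (hu : 1 ≤ u) :
    c / (1 + c) * u ^ (-κ) ≤ et c κ u := by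
  unfold et
  have h1 : u ^ (-κ) ≤ 1 := Real.rpow_le_one_of_one_le_of_nonpos hu (by linarith)
  have h0 : 0 < u ^ (-κ) := Real.rpow_pos_of_pos (by linarith) _
  have h2 : 0 < 1 + c * u ^ (-κ) := by positivity
  have h3 := Real.one_sub_inv_le_log_of_pos h2
  refine le_trans ?_ h3
  have h4 : 1 - (1 + c * u ^ (-κ))⁻¹ = c * u ^ (-κ) / (1 + c * u ^ (-κ)) := by
    field_simp
    ring
  rw [h4, div_mul_eq_mul_div]
  refine div_le_div_of_nonneg_left (by positivity) h2 ?_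
  nlinarith

theorem et_pos {c κ u : ℝ} (hc : 0 < c) (hκ : 0 ≤ κ) (hu : 1 ≤ u) : 0 < et c κ u := by
  have h0 : 0 < u ^ (-κ) := Real.rpow_pos_of_pos (by linarith) _
  exact lt_of_lt_of_le (by positivity) (et_lower hc hκ hu)

theorem et_upper {c κ u : ℝ} (hc : 0 < c) (hκ : 0 ≤ κ) (hu : 1 ≤ u) : et c κ u ≤ c := by
  unfold et
  have h1 : u ^ (-κ) ≤ 1 := Real.rpow_le_one_of_one_le_of_nonpos hu (by linarith)
  have h0 : 0 < u ^ (-κ) := Real.rpow_pos_of_pos (by linarith) _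
  have h2 : 0 < 1 + c * u ^ (-κ) := by positivity
  have h3 := Real.log_le_sub_one_of_pos h2
  nlinarith

theorem Nn_lower (u : ℝ) : 10 * u ≤ Nn u := Nat.le_ceil _

theorem Nn_upper {u : ℝ} (hu : 0 ≤ u) : (Nn u : ℝ) ≤ 10 * u + 1 :=
  (Nat.ceil_lt_add_one (by positivity)).le

theorem hf_pos {c κ q u : ℝ} (hc : 0 < c) (hκ : 0 ≤ κ) (hq : 0 < q) (hu : 1 ≤ u) :
    0 < hf c κ q u := by
  unfold hf
  have := et_pos hc hκ hu
  positivity

theorem hf_upper {c κ q u : ℝ} (hc : 0 < c) (hκ : 0 ≤ κ) (hq : 1 ≤ q) (hu : 1 ≤ u) :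
    hf c κ q u ≤ c / u := by
  unfold hf
  have h1 := et_upper hc hκ hu
  have h2 := et_pos hc hκ hu
  have h3 := Nn_lower u
  have hu0 : 0 < u := by linarith
  have h4 : u ≤ q * (Nn u + 3) := by
    have : 0 ≤ (Nn u : ℝ) := Nat.cast_nonneg _
    nlinarith
  exact div_le_div₀ hc.le h1 hu0 h4

theorem hf_inv {c κ q u : ℝ} (hc : 0 < c) (hκ : 0 ≤ κ) (hq : 0 < q) (hu : 1 ≤ u) :
    (hf c κ q u)⁻¹ ≤ (q * 14 * ((1 + c) / c)) * u ^ (κ + 1) := by
  unfold hf
  have hu0 : 0 < u := by linarith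
  have h1 := et_lower hc hκ hu
  have h3 := Nn_upper (u := u) hu0.le
  have h0 : 0 < u ^ (-κ) := Real.rpow_pos_of_pos hu0 _
  have h5 : 0 < c / (1 + c) * u ^ (-κ) := by positivity
  have h6 := et_pos hc hκ hu
  rw [inv_div]
  calc q * ((Nn u : ℝ) + 3) / et c κ u ≤ q * (14 * u) / (c / (1 + c) * u ^ (-κ)) := by
        refine div_le_div₀ (by positivity) ?_ h5 h1
        refine mul_le_mul_of_nonneg_left ?_ hq.le
        linarith
    _ = _ := by
        rw [Real.rpow_add hu0, Real.rpow_neg hu0.le, Real.rpow_one]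
        have : 0 < u ^ κ := Real.rpow_pos_of_pos hu0 _
        field_simp

theorem hf_len {c κ q u : ℝ} (hc : 0 < c) (hκ : 0 ≤ κ) (hq : 0 < q) (hu : 1 ≤ u) :
    ((Nn u : ℝ) + 3) * hf c κ q u = et c κ u / q := by
  unfold hf
  have h : 0 < (Nn u : ℝ) + 3 := by positivity
  field_simp

theorem hf_small {c κ q : ℝ} (hc : 0 < c) (hκ : 0 ≤ κ) (hq : 1 ≤ q) (r : ℝ) (hr : 0 < r) :
    ∀ᶠ u in atTop, hf c κ q u ≤ r := by
  filter_upwards [eventually_ge_atTop 1, eventually_ge_atTop (c / r)] with u h1 h2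
  refine (hf_upper hc hκ hq h1).trans ?_
  have : 0 < u := by linarith
  rw [div_le_iff₀ this]
  rw [div_le_iff₀ hr] at h2
  linarith

theorem hf_inv_SE {c κ q : ℝ} (hc : 0 < c) (hκ : 0 ≤ κ) (hq : 0 < q) :
    SE (fun u => (hf c κ q u)⁻¹) := by
  refine SE.mono (g := fun u => (q * 14 * ((1 + c) / c)) * u ^ (κ + 1))
    ((SE.const _).mul (SE.id_rpow _) ?_) ?_
  · filter_upwards [eventually_ge_atTop 1] with u hu
    exact Real.rpow_nonneg (by linarith) _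
  · filter_upwards [eventually_ge_atTop 1] with u hu
    exact hf_inv hc hκ hq hu

end

end Pool.Agent.W190
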