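import Pool.Agent.H19.EW.L.W190_A9
import Pool.Agent.H19.EW.L.W190_A11

/-! # The theorem in the logarithmic scale -/

set_option autoImplicit false
set_option maxHeartbeats 4000000

open Complex Filter Topology Set Metric MeasureTheory
open H353 (FF mu mu_cast FF_anal FF_order_ne_top zeros_finite FF_bound ln ln_re ln_im ln_cont ln_ne)

namespace Pool.Agent.W190

noncomputable section

/-- the zeros with real part at least `σ` and height at most `T + 3` -/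
def ZF (σ T : ℝ) : Finset ℂ :=
  (zeros_finite (Icc σ 1 ×ℂ Icc (-(T + 3)) (T + 3)) (isCompact_Icc.reProdIm isCompact_Icc)).toFinset

theorem mem_ZF {σ T : ℝ} {ρ : ℂ} : ρ ∈ ZF σ T ↔ FF ρ = 0 ∧ σ ≤ ρ.re ∧ |ρ.im| ≤ T + 3 := by
  unfold ZF
  rw [Set.Finite.mem_toFinset]
  simp only [mem_ofPred_eq, Complex.mem_reProdIm, mem_Icc]
  constructor
  · rintro ⟨h0, ⟨h1, _⟩, h2, h3⟩
    exact ⟨h0, h1, abs_le.2 ⟨h2, h3⟩⟩
  · rintro ⟨h0, h1, h2⟩
    exact ⟨h0, ⟨h1, (ZU.J_g2b.FF_zero_re h0).le⟩, abs_le.1 h2⟩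

/-- the number of these zeros, with multiplicity -/
def nz (σ T : ℝ) : ℕ := ∑ ρ ∈ ZF σ T, mu ρ

/-- the zero density bound with exponent `α` -/
def Dens (σ α : ℝ) : Prop := ∃ C : ℝ, 0 < C ∧ ∀ T : ℝ, 1 ≤ T → ∀ S : Finset ℂ,
  (∀ ρ ∈ S, FF ρ = 0 ∧ σ ≤ ρ.re ∧ |ρ.im| ≤ T) → ∑ ρ ∈ S, (mu ρ : ℝ) ≤ C * T ^ α

/-- subexponential and eventually nonnegative -/
def SP (f : ℝ → ℝ) : Prop := (∀ᶠ u in atTop, 0 ≤ f u) ∧ SE f

theorem SP.mul {f g : ℝ → ℝ} (hf : SP f) (hg : SP g) : SP (fun u => f u * g u) :=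
  ⟨by filter_upwards [hf.1, hg.1] with u h1 h2 using mul_nonneg h1 h2, hf.2.mul hg.2 hg.1⟩

theorem SP.add {f g : ℝ → ℝ} (hf : SP f) (hg : SP g) : SP (fun u => f u + g u) :=
  ⟨by filter_upwards [hf.1, hg.1] with u h1 h2 using add_nonneg h1 h2, hf.2.add hg.2⟩

theorem SP.pow {f : ℝ → ℝ} (hf : SP f) (k : ℕ) : SP (fun u => f u ^ k) :=
  ⟨by filter_upwards [hf.1] with u h1 using pow_nonneg h1 k, hf.2.pow hf.1 k⟩

theorem SP.rpow {f : ℝ → ℝ} (hf : SP f) (k : ℝ) (hk : 0 ≤ k) : SP (fun u => f u ^ k) :=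
  ⟨by filter_upwards [hf.1] with u h1 using Real.rpow_nonneg h1 k, hf.2.rpow hf.1 k hk⟩

theorem SP.const {c : ℝ} (hc : 0 ≤ c) : SP (fun _ => c) := ⟨Eventually.of_forall fun _ => hc, SE.const c⟩

theorem SP.congr {f g : ℝ → ℝ} (hf : SP f) (h : ∀ᶠ u in atTop, g u = f u) : SP g :=
  ⟨by filter_upwards [hf.1, h] with u h1 h2 using (by rw [h2]; exact h1),
    hf.2.mono (by filter_upwards [h] with u h2 using h2.le)⟩

theorem exists_gap (ρ₀ : ℂ) : ∃ c₀ : ℝ, 0 < c₀ ∧ c₀ ≤ 1 ∧ ∀ ρ, FF ρ = 0 → ρ ≠ ρ₀ → c₀ ≤ ‖ρ₀ - ρ‖ := by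
  have h : ∀ᶠ w in 𝓝[≠] ρ₀, FF w ≠ 0 := by
    rcases (FF_anal ρ₀).eventually_eq_zero_or_eventually_ne_zero with h | h
    · exact absurd (analyticOrderAt_eq_top.2 h) (FF_order_ne_top ρ₀)
    · exact h
  rw [eventually_nhdsWithin_iff, Metric.eventually_nhds_iff] at h
  obtain ⟨ε, hε, h1⟩ := h
  refine ⟨min ε 1, lt_min hε one_pos, min_le_right _ _, fun ρ h0 hne => ?_⟩
  by_contra hlt
  rw [not_le] at hlt
  have h2 : dist ρ ρ₀ < ε := by
    rw [dist_comm, dist_eq_norm]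
    exact hlt.trans_le (min_le_left _ _)
  exact h1 h2 hne h0

variable {σ κ c α q : ℝ}

/-- the height -/
def Tf (c κ q u : ℝ) : ℝ := 12 / hf c κ q u

/-- the step of the shifts -/
def df (c κ q u : ℝ) : ℝ := hf c κ q u / 192

theorem nz_bound (hc : 0 < c) (hκ : 0 ≤ κ) (hq : 1 ≤ q) (hα : 0 ≤ α) (hd : Dens σ α) :
    ∃ C2 : ℝ, 0 < C2 ∧ ∀ᶠ u in atTop, (nz σ (Tf c κ q u) : ℝ) ≤ C2 * u ^ ((κ + 1) * α) := by
  obtain ⟨C, hC, hb⟩ := hd
  set A : ℝ := q * 14 * ((1 + c) / c) with hA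
  have hA0 : 0 < A := by positivity
  refine ⟨C * (24 * A) ^ α, by positivity, ?_⟩
  filter_upwards [eventually_ge_atTop 1, hf_small hc hκ hq 1 one_pos] with u hu hsm
  have hu0 : 0 < u := by linarith
  have hh := hf_pos hc hκ (by linarith : 0 < q) hu
  have hT : 12 ≤ Tf c κ q u := by
    unfold Tf
    rw [le_div_iff₀ hh]
    linarith
  have h1 := hb (Tf c κ q u + 3) (by linarith) (ZF σ (Tf c κ q u)) (fun ρ hρ => mem_ZF.1 hρ)
  have h2 : (nz σ (Tf c κ q u) : ℝ) = ∑ ρ ∈ ZF σ (Tf c κ q u), (mu ρ : ℝ) := by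
    unfold nz
    push_cast
    rfl
  rw [h2]
  refine h1.trans ?_
  rw [mul_assoc]
  refine mul_le_mul_of_nonneg_left ?_ hC.le
  have h3 : Tf c κ q u + 3 ≤ 24 * A * u ^ (κ + 1) := by
    have h4 := hf_inv hc hκ (by linarith : 0 < q) hu
    have h5 : Tf c κ q u = 12 * (hf c κ q u)⁻¹ := by unfold Tf; rw [div_eq_mul_inv]
    rw [h5] at hT ⊢
    rw [← hA] at h4
    linarith
  calc (Tf c κ q u + 3) ^ α ≤ (24 * A * u ^ (κ + 1)) ^ α :=
        Real.rpow_le_rpow (by linarith) h3 hα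
    _ = _ := by
        rw [Real.mul_rpow (by positivity) (by positivity), ← Real.rpow_mul hu0.le]

theorem hf_SP (hc : 0 < c) (hκ : 0 ≤ κ) (hq : 1 ≤ q) : SP (fun u => (hf c κ q u)⁻¹) := by
  refine ⟨?_, hf_inv_SE hc hκ (by linarith)⟩
  filter_upwards [eventually_ge_atTop 1] with u hu
  have := hf_pos hc hκ (by linarith : 0 < q) hu
  positivity

theorem rpow_le_lin {δ K : ℝ} (hδ : δ < 1) (hK : 0 < K) : ∀ᶠ u : ℝ in atTop, u ^ δ ≤ K * u := by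
  have h2 := (tendsto_rpow_atTop (by linarith : 0 < 1 - δ)).eventually_ge_atTop (1 / K)
  filter_upwards [h2, eventually_gt_atTop 0] with u h3 h4
  have h5 := Real.rpow_pos_of_pos h4 δ
  have h6 : u ^ (1 - δ) * u ^ δ = u := by
    rw [← Real.rpow_add h4]
    simp
  have h7 : 1 / K * u ^ δ ≤ u := by
    calc 1 / K * u ^ δ ≤ u ^ (1 - δ) * u ^ δ := by gcongr
      _ = u := h6
  rw [one_div, inv_mul_le_iff₀ hK] at h7
  exact h7

variable {D : ℝ → ℕ} {δ : ℝ}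

/-- the common exponent -/
theorem nD_bound (hc : 0 < c) (hκ : 0 ≤ κ) (hq : 1 ≤ q) (hα : 0 ≤ α) (hακ : (κ + 1) * α < 1)
    (hd : Dens σ α) (hδ1 : δ < 1) (hD : ∀ᶠ u in atTop, (D u : ℝ) ≤ u ^ δ) :
    ∃ C3 a' : ℝ, 0 < C3 ∧ a' < 1 ∧ ∀ᶠ u in atTop, ((nz σ (Tf c κ q u) + D u + 1 : ℕ) : ℝ) ≤ C3 * u ^ a' := by
  obtain ⟨C2, hC2, hn⟩ := nz_bound (σ := σ) hc hκ hq hα hd
  have h0 : 0 ≤ (κ + 1) * α := by positivity
  refine ⟨C2 + 2, max ((κ + 1) * α) δ, by positivity, max_lt hακ hδ1, ?_⟩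
  filter_upwards [eventually_ge_atTop 1, hn, hD] with u hu h1 h2
  have h3 : u ^ ((κ + 1) * α) ≤ u ^ (max ((κ + 1) * α) δ) :=
    Real.rpow_le_rpow_of_exponent_le hu (le_max_left _ _)
  have h4 : u ^ δ ≤ u ^ (max ((κ + 1) * α) δ) := Real.rpow_le_rpow_of_exponent_le hu (le_max_right _ _)
  have h5 : 1 ≤ u ^ (max ((κ + 1) * α) δ) := Real.one_le_rpow hu (h0.trans (le_max_left _ _))
  push_cast
  nlinarith

theorem pow_nz_SP (hc : 0 < c) (hκ : 0 ≤ κ) (hq : 1 ≤ q) (hα : 0 ≤ α) (hακ : (κ + 1) * α < 1)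
    (hd : Dens σ α) (hδ1 : δ < 1) (hD : ∀ᶠ u in atTop, (D u : ℝ) ≤ u ^ δ) (A : ℝ) (hA : 0 < A) :
    SP (fun u => (A * (hf c κ q u)⁻¹) ^ (nz σ (Tf c κ q u) + D u + 1)) := by
  obtain ⟨C3, a', hC3, ha', hn⟩ := nD_bound hc hκ hq hα hακ hd hδ1 hD
  constructor
  · filter_upwards [(hf_SP hc hκ hq).1] with u hu
    positivity
  · refine SE.pow_fun (A := A * (q * 14 * ((1 + c) / c))) (K := κ + 1) (C := C3)
      (a' := a') (by positivity) ?_ hn ha'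
    filter_upwards [eventually_ge_atTop 1, (hf_SP hc hκ hq).1] with u hu h0
    refine ⟨by positivity, ?_⟩
    rw [mul_assoc A]
    exact mul_le_mul_of_nonneg_left (hf_inv hc hκ (by linarith) hu) hA.le

theorem pow_nz_SP' (hc : 0 < c) (hκ : 0 ≤ κ) (hq : 1 ≤ q) (hα : 0 ≤ α) (hακ : (κ + 1) * α < 1)
    (hd : Dens σ α) (hδ1 : δ < 1) (hD : ∀ᶠ u in atTop, (D u : ℝ) ≤ u ^ δ) (A : ℝ) (hA : 0 < A) :
    SP (fun u => A ^ (nz σ (Tf c κ q u) + D u + 1)) := by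
  obtain ⟨C3, a', hC3, ha', hn⟩ := nD_bound hc hκ hq hα hακ hd hδ1 hD
  constructor
  · exact Eventually.of_forall fun u => by positivity
  · refine SE.pow_fun (f := fun _ => A) (A := A) (K := 0) (C := C3)
      (a' := a') (by positivity) ?_ hn ha'
    filter_upwards with u
    exact ⟨hA.le, by simp⟩

theorem Mc_SP (hc : 0 < c) (hκ : 0 ≤ κ) (hq : 1 ≤ q) (hα : 0 ≤ α) (hακ : (κ + 1) * α < 1)
    (hd : Dens σ α) (hδ1 : δ < 1) (hD : ∀ᶠ u in atTop, (D u : ℝ) ≤ u ^ δ)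
    (hσ : 1 / 2 ≤ σ) {θ : ℝ} (hθ : σ < θ) (hθ1 : θ < 1) {r : ℝ} (hr : 0 < r)
    {CB : ℝ} (hCB : 0 ≤ CB) (kB b : ℕ) :
    SP (fun u => Mc σ θ (df c κ q u) (Tf c κ q u) r (CB * (3 + (Tf c κ q u + 1)) ^ kB) b
      (nz σ (Tf c κ q u)) (D u)) := by
  have hT : SP (fun u => Tf c κ q u) := by
    refine ((SP.const (by norm_num : (0:ℝ) ≤ 12)).mul (hf_SP hc hκ hq)).congr ?_
    filter_upwards with u
    unfold Tf
    rw [div_eq_mul_inv]
  have hd1 : SP (fun u => 2 / df c κ q u) := by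
    refine ((SP.const (by norm_num : (0:ℝ) ≤ 384)).mul (hf_SP hc hκ hq)).congr ?_
    filter_upwards [eventually_ge_atTop 1] with u hu
    have := hf_pos hc hκ (by linarith : 0 < q) hu
    unfold df
    field_simp
    norm_num
  have hd2 : SP (fun u => 2 / (df c κ q u * r)) := by
    refine (hd1.mul (SP.const (by positivity : 0 ≤ r⁻¹))).congr ?_
    filter_upwards [eventually_ge_atTop 1] with u hu
    have := hf_pos hc hκ (by linarith : 0 < q) hu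
    unfold df
    field_simp
  have h3n := pow_nz_SP' hc hκ hq hα hακ hd hδ1 hD 3 (by norm_num)
  have hσ0 : 0 < σ := by linarith
  have hk : 0 ≤ 2 * (2 - θ) / (θ - σ) := div_nonneg (by linarith) (by linarith)
  have h6 : SP (fun u => (2 * ((1 + 2 / σ) * (6 + Tf c κ q u) ^ 2)) ^ (2 * (2 - θ) / (θ - σ))) := by
    refine SP.rpow ?_ _ hk
    refine (SP.const (by norm_num)).mul ((SP.const (by positivity)).mul (SP.pow ?_ 2))
    exact (SP.const (by norm_num)).add hT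
  have h7 : SP (fun u => (CB * (3 + (Tf c κ q u + 1)) ^ kB)) := by
    refine (SP.const hCB).mul (SP.pow ?_ kB)
    exact (SP.const (by norm_num)).add (hT.add (SP.const (by norm_num)))
  have h8 := ((hd1.mul (hd2.pow b)).mul (h3n.mul ((SP.const (by norm_num : (0:ℝ) ≤ 2)).mul h6))).mul
    (h7.mul (SP.const (by norm_num : (0:ℝ) ≤ 1 / 3)))
  refine h8.congr (Eventually.of_forall fun u => ?_)
  unfold Mc
  rw [pow_add, pow_add]
  ring

end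

end Pool.Agent.W190
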