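import Pool.Agent.H19.EW.L.W190_C2
import Pool.Agent.H19.EW.L.H353R2_K2
import Pool.Agent.H19.EW.L.W190_A12

/-! # Zero density estimate with the exponent of Carlson -/

set_option autoImplicit false
set_option maxHeartbeats 4000000

open Complex Filter Topology Set MeasureTheory

namespace Pool.Agent.W190

open ZU.J_a3 H353

/-- one block -/
theorem blk (σ1 σ Ax ε : ℝ) (hs1 : 1 / 2 < σ1) (hs2 : σ1 < σ) (h2 : σ < 1) (hε0 : 0 < ε) (C0 : ℝ)
    (hC0 : 0 < C0) (hf : ∀ T : ℝ, 1 ≤ T → ∃ X : ℕ, ∀ σ ∈ Icc σ1 (3 / 2),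
      ∫ t in (T / 2)..(3 * T), ‖fz X ((σ : ℂ) + t * I)‖ ^ 2 ≤ C0 * T ^ Ax) :
    ∃ C : ℝ, 0 < C ∧ ∀ T : ℝ, 3 ≤ T →
    ∀ S : Finset ℂ, (∀ ρ ∈ S, FF ρ = 0 ∧ σ ≤ ρ.re ∧ T ≤ ρ.im ∧ ρ.im ≤ 2 * T) →
      ∑ ρ ∈ S, (mu ρ : ℝ) ≤ C * T ^ (Ax + 2 * ε) := by
  obtain ⟨C1, hC1, hsup⟩ := ZU.sup_le_area σ 1 σ1 (3 / 2) (1 / 2) 1 hs2 h2.le (by norm_num)
    (by norm_num) (by norm_num)
  refine ⟨C1 * (60 * ((352:ℝ) ^ ε / ε)) * ((3 / 2 - σ1) * (2 * 1) * C0), ?_, ?_⟩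
  · have : 0 < 3 / 2 - σ1 := by linarith
    positivity
  intro T hT S hS
  have hT0 : 0 < T := by linarith
  obtain ⟨X, hX⟩ := hf T (by linarith)
  set G : ℂ → ℂ := Gc X T with hG
  have hGc : Continuous G := Gc_cont X T
  set R : Set ℂ := ZU.rect σ1 (3 / 2) 1 with hR
  have hRcomp : IsCompact R := ZU.J_e1b.fubini_bound_compact _ _ _
  -- Fubini
  have hV : ∀ s ∈ R, ∫ t in (0 : ℝ)..(T + 1), (1:ℝ) * ‖G (s + t * I)‖ ^ 2 ≤ C0 * T ^ Ax := by
    intro s hs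
    obtain ⟨q1, q2, q3⟩ := hs
    rw [abs_le] at q3
    refine le_trans ?_ (hX s.re ⟨q1, q2⟩)
    have e1 : ∀ t ∈ uIcc (0:ℝ) (T + 1), (1:ℝ) * ‖G (s + t * I)‖ ^ 2 =
        ‖fz X ((s.re : ℂ) + ((t + (s.im + (T - 1 / 2)) : ℝ) : ℂ) * I)‖ ^ 2 := by
      intro t ht
      rw [uIcc_of_le (by linarith)] at ht
      rw [one_mul, hG, Gc_eq X T _ (by simp; linarith [ht.1])]
      congr 3
      apply Complex.ext <;> simp
      ring
    rw [intervalIntegral.integral_congr e1]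
    rw [intervalIntegral.integral_comp_add_right
      (fun u => ‖fz X ((s.re : ℂ) + ((u : ℝ) : ℂ) * I)‖ ^ 2)]
    have hcont : ContinuousOn (fun u : ℝ => ‖fz X ((s.re : ℂ) + ((u : ℝ) : ℂ) * I)‖ ^ 2)
        (Icc (T / 2) (3 * T)) := by
      intro u hu
      apply ContinuousAt.continuousWithinAt
      have hne : (s.re : ℂ) + ((u : ℝ) : ℂ) * I ≠ 1 := by
        intro h
        have := congrArg Complex.im h
        simp at this
        linarith [hu.1]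
      exact ((ContinuousAt.comp (f := fun u : ℝ => (s.re : ℂ) + ((u : ℝ) : ℂ) * I)
        (fz_diffAt X _ hne).continuousAt (by fun_prop)).norm).pow 2
    rw [intervalIntegral.integral_of_le (by linarith), intervalIntegral.integral_of_le (by linarith)]
    refine setIntegral_mono_set ?_ (Eventually.of_forall fun u => by positivity) ?_
    · exact (hcont.integrableOn_compact isCompact_Icc).mono_set Ioc_subset_Icc_self
    · refine LE.le.eventuallyLE ?_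
      intro u hu
      exact ⟨by linarith [hu.1], by linarith [hu.2]⟩
  obtain ⟨hAc, hAint⟩ := ZU.fubini_bound σ1 (3 / 2) 1 (by linarith) one_pos G hGc.continuousOn
    (fun _ => 1) continuous_const (T + 1) (by linarith) _ hV
  set A : ℝ → ℝ := fun t => ∫ w in R, ‖G (w + t * I)‖ ^ 2 with hA
  have hA0 : ∀ t, 0 ≤ A t := fun t => setIntegral_nonneg hRcomp.measurableSet fun w _ => by positivity
  have hAint' : ∫ t in Icc (0:ℝ) (T + 1), A t ≤ (3 / 2 - σ1) * (2 * 1) * (C0 * T ^ Ax) := by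
    rw [integral_Icc_eq_integral_Ioc, ← intervalIntegral.integral_of_le (by linarith)]
    simpa only [one_mul] using hAint
  -- each zero
  have hone : ∀ ρ ∈ S, ∀ t ∈ Icc (ρ.im - T) (ρ.im - T + 1), 1 ≤ C1 * A t := by
    intro ρ hρ t ht
    obtain ⟨z1, z2, z3, z4⟩ := hS ρ hρ
    have z5 := ZU.J_g2b.FF_zero_re z1
    have ht0 : 0 ≤ t := by linarith [ht.1]
    set U : Set ℂ := {w | w + (t : ℂ) * I + ((T - 1 / 2 : ℝ) : ℂ) * I ≠ 1} with hU
    have hUo : IsOpen U := isOpen_ne_fun (by fun_prop) continuous_const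
    have hsub : ZU.rect σ1 (3 / 2) 1 ⊆ U := by
      intro w hw h
      obtain ⟨_, _, q3⟩ := hw
      rw [abs_le] at q3
      have := congrArg Complex.im h
      simp at this
      linarith
    have hgd : DifferentiableOn ℂ (fun w => fz X (w + (t : ℂ) * I + ((T - 1 / 2 : ℝ) : ℂ) * I)) U := by
      intro w hw
      have h3 := fz_diffAt X _ hw
      exact (DifferentiableAt.comp (f := fun w : ℂ => w + (t : ℂ) * I + ((T - 1 / 2 : ℝ) : ℂ) * I)
        w h3 (by fun_prop)).differentiableWithinAt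
    set s0 : ℂ := ρ - (t : ℂ) * I - ((T - 1 / 2 : ℝ) : ℂ) * I with hs0
    have hs0m : s0 ∈ ZU.rect σ 1 (1 / 2) := by
      refine ⟨by simp [hs0]; exact z2, by simp [hs0]; exact z5.le, ?_⟩
      rw [abs_le]
      simp only [hs0, Complex.sub_im, Complex.mul_im, Complex.ofReal_re, Complex.I_im,
        Complex.ofReal_im, Complex.I_re, mul_one, mul_zero, add_zero]
      constructor <;> linarith [ht.1, ht.2]
    have h4 := hsup _ U hUo hsub hgd s0 hs0m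
    have h5 : fz X (s0 + (t : ℂ) * I + ((T - 1 / 2 : ℝ) : ℂ) * I) = -1 := by
      have e : s0 + (t : ℂ) * I + ((T - 1 / 2 : ℝ) : ℂ) * I = ρ := by rw [hs0]; ring
      rw [e]
      unfold fz
      have hρ1 : ρ ≠ 1 := by
        rintro rfl
        simp at z5
      have : riemannZeta ρ = 0 := by
        have h6 : FF ρ = (ρ - 1) * riemannZeta ρ := ZU.J_g2b.FF_ne hρ1
        rw [z1] at h6
        exact (mul_eq_zero.1 h6.symm).resolve_left (sub_ne_zero.2 hρ1)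
      rw [this]
      ring
    simp only [h5] at h4
    norm_num at h4
    refine h4.trans (le_of_eq ?_)
    congr 1
    refine setIntegral_congr_fun hRcomp.measurableSet fun w hw => ?_
    obtain ⟨_, _, q3⟩ := hw
    rw [abs_le] at q3
    rw [hG, Gc_eq X T _ (by simp; linarith)]
    norm_num
  have hAi : ∀ a b : ℝ, IntegrableOn A (Icc a b) := fun a b =>
    hAc.continuousOn.integrableOn_compact isCompact_Icc
  have hone2 : ∀ ρ ∈ S, 1 ≤ C1 * ∫ t in Icc (0:ℝ) (T + 1),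
      (Icc (ρ.im - T) (ρ.im - T + 1)).indicator A t := by
    intro ρ hρ
    obtain ⟨z1, z2, z3, z4⟩ := hS ρ hρ
    rw [setIntegral_indicator measurableSet_Icc]
    have e : Icc (0:ℝ) (T + 1) ∩ Icc (ρ.im - T) (ρ.im - T + 1) = Icc (ρ.im - T) (ρ.im - T + 1) := by
      apply Set.inter_eq_right.2
      exact Icc_subset_Icc (by linarith) (by linarith)
    rw [e, ← integral_const_mul]
    have h6 : ∫ _t in Icc (ρ.im - T) (ρ.im - T + 1), (1:ℝ) = 1 := by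
      rw [setIntegral_const, Measure.real, Real.volume_Icc]
      simp
    refine h6.symm.le.trans ?_
    exact setIntegral_mono_on (integrableOn_const (by simp)) ((hAi _ _).const_mul _)
      measurableSet_Icc (fun t ht => hone ρ hρ t ht)
  -- sum up
  set LC : ℝ := 60 * Real.log (352 * T ^ 2) with hLC
  have hpt : ∀ t ∈ Icc (0:ℝ) (T + 1),
      ∑ ρ ∈ S, (mu ρ : ℝ) * (Icc (ρ.im - T) (ρ.im - T + 1)).indicator A t ≤ LC * A t := by
    intro t ht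
    have e1 : ∑ ρ ∈ S, (mu ρ : ℝ) * (Icc (ρ.im - T) (ρ.im - T + 1)).indicator A t =
        (∑ ρ ∈ S.filter (fun ρ => t ∈ Icc (ρ.im - T) (ρ.im - T + 1)), (mu ρ : ℝ)) * A t := by
      rw [Finset.sum_mul, Finset.sum_filter]
      refine Finset.sum_congr rfl fun ρ _ => ?_
      by_cases h : t ∈ Icc (ρ.im - T) (ρ.im - T + 1)
      · rw [if_pos h, indicator_of_mem h]
      · rw [if_neg h, indicator_of_notMem h, mul_zero]
    rw [e1]
    refine mul_le_mul_of_nonneg_right ?_ (hA0 t)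
    have h7 := local_count (T - 1 / 2 + t) (S.filter (fun ρ => t ∈ Icc (ρ.im - T) (ρ.im - T + 1)))
      (fun ρ hρ => by
        rw [Finset.mem_filter] at hρ
        obtain ⟨z1, z2, z3, z4⟩ := hS ρ hρ.1
        refine ⟨z1, by linarith, ?_⟩
        rw [abs_le]
        constructor <;> linarith [hρ.2.1, hρ.2.2])
    push_cast at h7
    refine h7.trans ?_
    rw [hLC]
    have h8 : |T - 1 / 2 + t| ≤ 2 * T + 1 / 2 := by
      rw [abs_le]
      constructor <;> linarith [ht.1, ht.2]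
    have h9 : (5 + |T - 1 / 2 + t|) ^ 2 ≤ (4 * T) ^ 2 :=
      pow_le_pow_left₀ (by positivity) (by linarith) 2
    have h10 : Real.log (22 * (5 + |T - 1 / 2 + t|) ^ 2) ≤ Real.log (352 * T ^ 2) :=
      Real.log_le_log (by positivity) (by nlinarith)
    linarith
  have hindI : ∀ ρ ∈ S, Integrable (fun t => (mu ρ : ℝ) *
      (Icc (ρ.im - T) (ρ.im - T + 1)).indicator A t) (volume.restrict (Icc (0:ℝ) (T + 1))) := by
    intro ρ _
    exact ((hAi 0 (T + 1)).indicator measurableSet_Icc).const_mul _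
  have hLC0 : 0 ≤ LC := by
    rw [hLC]
    have : 0 ≤ Real.log (352 * T ^ 2) := Real.log_nonneg (by nlinarith)
    positivity
  have hmain : ∑ ρ ∈ S, (mu ρ : ℝ) ≤ C1 * (LC * ((3 / 2 - σ1) * (2 * 1) * (C0 * T ^ Ax))) := by
    calc ∑ ρ ∈ S, (mu ρ : ℝ) ≤ ∑ ρ ∈ S, (mu ρ : ℝ) * (C1 * ∫ t in Icc (0:ℝ) (T + 1),
          (Icc (ρ.im - T) (ρ.im - T + 1)).indicator A t) := by
          refine Finset.sum_le_sum fun ρ hρ => ?_
          exact le_mul_of_one_le_right (Nat.cast_nonneg _) (hone2 ρ hρ)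
      _ = C1 * ∫ t in Icc (0:ℝ) (T + 1), ∑ ρ ∈ S, (mu ρ : ℝ) *
          (Icc (ρ.im - T) (ρ.im - T + 1)).indicator A t := by
          rw [integral_finsetSum _ hindI, Finset.mul_sum]
          refine Finset.sum_congr rfl fun ρ _ => ?_
          rw [integral_const_mul]
          ring
      _ ≤ C1 * ∫ t in Icc (0:ℝ) (T + 1), LC * A t := by
          refine mul_le_mul_of_nonneg_left ?_ hC1.le
          exact setIntegral_mono_on (integrable_finsetSum _ hindI) ((hAi _ _).const_mul _)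
            measurableSet_Icc hpt
      _ = C1 * (LC * ∫ t in Icc (0:ℝ) (T + 1), A t) := by rw [integral_const_mul]
      _ ≤ _ := by gcongr
  refine hmain.trans ?_
  have hlog : Real.log (352 * T ^ 2) ≤ (352:ℝ) ^ ε / ε * T ^ (2 * ε) := by
    have h11 := Real.log_le_rpow_div (show (0:ℝ) ≤ 352 * T ^ 2 by positivity) hε0
    refine h11.trans (le_of_eq ?_)
    rw [Real.mul_rpow (by norm_num) (by positivity), ← Real.rpow_natCast T 2, ← Real.rpow_mul hT0.le]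
    push_cast
    ring
  have h12 : 0 < 3 / 2 - σ1 := by linarith
  have h13 : 0 < T ^ Ax := Real.rpow_pos_of_pos hT0 _
  calc C1 * (LC * ((3 / 2 - σ1) * (2 * 1) * (C0 * T ^ Ax)))
      ≤ C1 * ((60 * ((352:ℝ) ^ ε / ε * T ^ (2 * ε))) * ((3 / 2 - σ1) * (2 * 1) * (C0 * T ^ Ax))) := by
        rw [hLC]
        gcongr
    _ = C1 * (60 * ((352:ℝ) ^ ε / ε)) * ((3 / 2 - σ1) * (2 * 1) * C0) *
        (T ^ (2 * ε) * T ^ Ax) := by ring
    _ = _ := by
        rw [← Real.rpow_add hT0]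
        congr 2
        ring

/-- the weighted sum over the zeros in the upper half plane -/
theorem zsum (σ A β : ℝ) (hAβ : A < β) (hβ : 0 < β) (C : ℝ) (hC : 0 < C)
    (hb : ∀ T : ℝ, 3 ≤ T →
      ∀ S : Finset ℂ, (∀ ρ ∈ S, FF ρ = 0 ∧ σ ≤ ρ.re ∧ T ≤ ρ.im ∧ ρ.im ≤ 2 * T) →
      ∑ ρ ∈ S, (mu ρ : ℝ) ≤ C * T ^ A) :
    ∃ C' : ℝ, 0 < C' ∧ ∀ S : Finset ℂ, (∀ ρ ∈ S, FF ρ = 0 ∧ σ ≤ ρ.re ∧ 0 < ρ.im) →
      ∑ ρ ∈ S, (mu ρ : ℝ) / ρ.im ^ β ≤ C' := by
  classical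
  set δ : ℝ := β - A with hδd
  have hδ : 0 < δ := by rw [hδd]; linarith
  have hfin : {ρ : ℂ | FF ρ = 0 ∧ ρ ∈ Icc σ 1 ×ℂ Icc 0 3}.Finite :=
    zeros_finite _ (isCompact_Icc.reProdIm isCompact_Icc)
  set B0 : ℝ := ∑ ρ ∈ hfin.toFinset, |(mu ρ : ℝ) / ρ.im ^ β| with hB0
  set q : ℝ := (2:ℝ) ^ (-δ) with hq
  have hq0 : 0 < q := Real.rpow_pos_of_pos (by norm_num) _
  have hq1 : q < 1 := Real.rpow_lt_one_of_one_lt_of_neg (by norm_num) (by linarith)
  have hgeo : Summable (fun j : ℕ => C * (3:ℝ) ^ (-δ) * q ^ j) :=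
    (summable_geometric_of_lt_one hq0.le hq1).mul_left _
  have hB00 : 0 ≤ B0 := Finset.sum_nonneg fun _ _ => abs_nonneg _
  have hts0 : 0 ≤ ∑' j : ℕ, C * (3:ℝ) ^ (-δ) * q ^ j := tsum_nonneg fun j => by positivity
  refine ⟨B0 + ∑' j : ℕ, C * (3:ℝ) ^ (-δ) * q ^ j + 1, by positivity, ?_⟩
  intro S hSp
  set S1 := S.filter (fun ρ => ρ.im < 3) with hS1
  set S2 := S.filter (fun ρ => ¬ ρ.im < 3) with hS2
  rw [← Finset.sum_filter_add_sum_filter_not S (fun ρ => ρ.im < 3)]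
  have hlow : ∑ ρ ∈ S1, (mu ρ : ℝ) / ρ.im ^ β ≤ B0 := by
    have hsub : S1 ⊆ hfin.toFinset := by
      intro ρ hρ
      rw [hS1, Finset.mem_filter] at hρ
      obtain ⟨z1, z2, z3⟩ := hSp ρ hρ.1
      rw [Set.Finite.mem_toFinset]
      refine ⟨z1, ?_⟩
      rw [Complex.mem_reProdIm]
      exact ⟨⟨z2, (ZU.J_g2b.FF_zero_re z1).le⟩, ⟨z3.le, hρ.2.le⟩⟩
    calc ∑ ρ ∈ S1, (mu ρ : ℝ) / ρ.im ^ β ≤ ∑ ρ ∈ S1, |(mu ρ : ℝ) / ρ.im ^ β| :=
          Finset.sum_le_sum fun _ _ => le_abs_self _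
      _ ≤ B0 := Finset.sum_le_sum_of_subset_of_nonneg hsub fun _ _ _ => abs_nonneg _
  -- the high zeros
  let J : ℂ → ℕ := fun ρ => ⌊Real.logb 2 (ρ.im / 3)⌋₊
  have hJ : ∀ ρ ∈ S2, 3 * (2:ℝ) ^ (J ρ) ≤ ρ.im ∧ ρ.im ≤ 2 * (3 * (2:ℝ) ^ (J ρ)) := by
    intro ρ hρ
    rw [hS2, Finset.mem_filter, not_lt] at hρ
    have hp : 0 < ρ.im / 3 := by linarith [hρ.2]
    have h1' : 0 ≤ Real.logb 2 (ρ.im / 3) := Real.logb_nonneg (by norm_num) (by linarith [hρ.2])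
    have h3 := Nat.floor_le h1'
    have h4 := Nat.lt_floor_add_one (Real.logb 2 (ρ.im / 3))
    have h5 : (2:ℝ) ^ (J ρ) ≤ ρ.im / 3 := by
      rw [← Real.rpow_natCast]
      exact (Real.le_logb_iff_rpow_le (by norm_num) hp).1 h3
    have h6 : ρ.im / 3 < (2:ℝ) ^ (J ρ + 1) := by
      rw [← Real.rpow_natCast]
      push_cast
      exact (Real.logb_lt_iff_lt_rpow (by norm_num) hp).1 h4
    rw [pow_succ] at h6
    constructor <;> linarith
  have hblock : ∀ j : ℕ, ∑ ρ ∈ S2.filter (fun ρ => J ρ = j), (mu ρ : ℝ) / ρ.im ^ β ≤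
      C * (3:ℝ) ^ (-δ) * q ^ j := by
    intro j
    set T : ℝ := 3 * (2:ℝ) ^ j with hT
    have h2j : (1:ℝ) ≤ (2:ℝ) ^ j := one_le_pow₀ (by norm_num)
    have hT3 : 3 ≤ T := by rw [hT]; linarith
    have hT0 : 0 < T := by linarith
    have h7 := hb T hT3 (S2.filter (fun ρ => J ρ = j)) (by
      intro ρ hρ
      rw [Finset.mem_filter] at hρ
      have h8 := hJ ρ hρ.1
      rw [hρ.2] at h8
      have h9 := hSp ρ (Finset.mem_filter.1 hρ.1).1
      exact ⟨h9.1, h9.2.1, h8.1, h8.2⟩)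
    calc ∑ ρ ∈ S2.filter (fun ρ => J ρ = j), (mu ρ : ℝ) / ρ.im ^ β
        ≤ ∑ ρ ∈ S2.filter (fun ρ => J ρ = j), (mu ρ : ℝ) / T ^ β := by
          refine Finset.sum_le_sum fun ρ hρ => ?_
          rw [Finset.mem_filter] at hρ
          have h8 := hJ ρ hρ.1
          rw [hρ.2] at h8
          exact div_le_div_of_nonneg_left (Nat.cast_nonneg _) (Real.rpow_pos_of_pos hT0 _)
            (Real.rpow_le_rpow hT0.le h8.1 hβ.le)
      _ = (∑ ρ ∈ S2.filter (fun ρ => J ρ = j), (mu ρ : ℝ)) / T ^ β := by rw [Finset.sum_div]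
      _ ≤ (C * T ^ A) / T ^ β := div_le_div_of_nonneg_right h7 (Real.rpow_nonneg hT0.le _)
      _ = C * T ^ (-δ) := by
          rw [mul_div_assoc, ← Real.rpow_sub hT0]
          congr 2
          rw [hδd]; ring
      _ = _ := by
          rw [hT, Real.mul_rpow (by norm_num) (by positivity), hq, ← Real.rpow_natCast 2 j,
            ← Real.rpow_natCast ((2:ℝ) ^ (-δ)) j, ← Real.rpow_mul (by norm_num),
            ← Real.rpow_mul (by norm_num)]
          rw [mul_assoc]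
          congr 3
          ring
  have hhigh : ∑ ρ ∈ S2, (mu ρ : ℝ) / ρ.im ^ β ≤ ∑' j : ℕ, C * (3:ℝ) ^ (-δ) * q ^ j := by
    rw [← Finset.sum_fiberwise_of_maps_to (s := S2) (t := S2.image J) (g := J)
      (fun ρ hρ => Finset.mem_image_of_mem J hρ)]
    calc ∑ j ∈ S2.image J, ∑ ρ ∈ S2.filter (fun ρ => J ρ = j), (mu ρ : ℝ) / ρ.im ^ β
        ≤ ∑ j ∈ S2.image J, C * (3:ℝ) ^ (-δ) * q ^ j := Finset.sum_le_sum fun j _ => hblock j
      _ ≤ _ := hgeo.sum_le_tsum _ fun j _ => by positivity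
  linarith

/-- from the upper half plane to both -/
theorem dens_of_zsum (σ β : ℝ) (hσ : 0 < σ) (hβ : 0 < β) (C' : ℝ) (hC' : 0 < C')
    (h : ∀ S : Finset ℂ, (∀ ρ ∈ S, FF ρ = 0 ∧ σ ≤ ρ.re ∧ 0 < ρ.im) →
      ∑ ρ ∈ S, (mu ρ : ℝ) / ρ.im ^ β ≤ C') : Dens σ β := by
  classical
  have hup : ∀ T : ℝ, 1 ≤ T → ∀ S : Finset ℂ, (∀ ρ ∈ S, FF ρ = 0 ∧ σ ≤ ρ.re ∧ 0 < ρ.im ∧ ρ.im ≤ T) →
      ∑ ρ ∈ S, (mu ρ : ℝ) ≤ C' * T ^ β := by
    intro T hT S hS
    have h1 := h S fun ρ hρ => ⟨(hS ρ hρ).1, (hS ρ hρ).2.1, (hS ρ hρ).2.2.1⟩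
    have hT0 : 0 < T := by linarith
    have hTp := Real.rpow_pos_of_pos hT0 β
    calc ∑ ρ ∈ S, (mu ρ : ℝ) ≤ ∑ ρ ∈ S, (mu ρ : ℝ) / ρ.im ^ β * T ^ β := by
          refine Finset.sum_le_sum fun ρ hρ => ?_
          obtain ⟨z1, z2, z3, z4⟩ := hS ρ hρ
          have h5 := Real.rpow_pos_of_pos z3 β
          have h6 : ρ.im ^ β ≤ T ^ β := Real.rpow_le_rpow z3.le z4 hβ.le
          rw [div_mul_eq_mul_div, le_div_iff₀ h5]
          exact mul_le_mul_of_nonneg_left h6 (Nat.cast_nonneg _)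
      _ = (∑ ρ ∈ S, (mu ρ : ℝ) / ρ.im ^ β) * T ^ β := by rw [Finset.sum_mul]
      _ ≤ C' * T ^ β := by gcongr
  refine ⟨2 * C', by positivity, fun T hT S hS => ?_⟩
  rw [← Finset.sum_filter_add_sum_filter_not S (fun ρ => 0 < ρ.im)]
  have h1 := hup T hT (S.filter (fun ρ => 0 < ρ.im)) (fun ρ hρ => by
    rw [Finset.mem_filter] at hρ
    obtain ⟨z1, z2, z3⟩ := hS ρ hρ.1
    exact ⟨z1, z2, hρ.2, (le_abs_self _).trans z3⟩)
  have h2 : ∑ ρ ∈ S.filter (fun ρ => ¬ 0 < ρ.im), (mu ρ : ℝ) ≤ C' * T ^ β := by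
    have e : ∑ ρ ∈ S.filter (fun ρ => ¬ 0 < ρ.im), (mu ρ : ℝ) =
        ∑ ρ ∈ (S.filter (fun ρ => ¬ 0 < ρ.im)).image (starRingEnd ℂ), (mu ρ : ℝ) := by
      rw [Finset.sum_image (fun a _ b _ hab => (starRingEnd ℂ).injective hab)]
      exact Finset.sum_congr rfl fun ρ _ => by rw [mu_conj]
    rw [e]
    refine hup T hT _ fun ρ hρ => ?_
    rw [Finset.mem_image] at hρ
    obtain ⟨w, hw, rfl⟩ := hρ
    rw [Finset.mem_filter, not_lt] at hw
    obtain ⟨z1, z2, z3⟩ := hS w hw.1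
    have h3 := FF_im_ne w z1 (by linarith)
    refine ⟨by rw [FF_conj, z1]; simp, by simpa using z2, ?_, ?_⟩
    · rw [Complex.conj_im]
      exact neg_pos.2 (lt_of_le_of_ne hw.2 h3)
    · rw [Complex.conj_im]
      exact (neg_le_abs _).trans z3
  linarith

/-- zero density estimate: the number of zeros with real part at least `σ` and height at most `T` is
`O(T ^ (4 σ (1 - σ) + ε))` -/
theorem carlson (σ ε : ℝ) (h1 : 1 / 2 < σ) (h2 : σ < 1) (hε : 0 < ε) :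
    Dens σ (4 * σ * (1 - σ) + ε) := by
  -- choose `σ1` slightly smaller than `σ`
  set σ1 : ℝ := max ((σ + 1 / 2) / 2) (σ - ε / 16) with hσ1
  have hs1 : 1 / 2 < σ1 := lt_of_lt_of_le (by linarith) (le_max_left _ _)
  have hs2 : σ1 < σ := max_lt (by linarith) (by linarith)
  have hs3 : σ - ε / 16 ≤ σ1 := le_max_right _ _
  obtain ⟨C0, hC0, hf⟩ := fz_carlson σ1 (ε / 4) hs1 (by linarith) (by positivity)
  obtain ⟨C, hC, hb⟩ := blk σ1 σ _ (ε / 16) hs1 hs2 h2 (by positivity) C0 hC0 hf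
  have hle : 4 * σ1 * (1 - σ1) + ε / 4 + 2 * (ε / 16) < 4 * σ * (1 - σ) + ε := by nlinarith
  have hpos : 0 < 4 * σ * (1 - σ) + ε := by nlinarith
  obtain ⟨C', hC', h⟩ := zsum σ _ (4 * σ * (1 - σ) + ε) hle hpos C hC hb
  exact dens_of_zsum σ _ (by linarith) hpos C' hC' h

end Pool.Agent.W190
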