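import Mathlib

open Complex Filter Topology Set Metric

namespace H353

/-- divide out one point, `n` times -/
theorem div_pt (U : Set ℂ) (hU : IsOpen U) (f : ℂ → ℂ) (hf : DifferentiableOn ℂ f U) (ρ : ℂ)
    (hρ : ρ ∈ U) (n : ℕ) (hn : (n : ℕ∞) ≤ analyticOrderAt f ρ) :
    ∃ g : ℂ → ℂ, DifferentiableOn ℂ g U ∧ ∀ v, f v = (v - ρ) ^ n * g v := by
  classical
  have hfa : AnalyticAt ℂ f ρ := hf.analyticAt (hU.mem_nhds hρ)
  obtain ⟨g0, hg0, hev⟩ := (natCast_le_analyticOrderAt hfa).1 hn
  refine ⟨Function.update (fun v => f v / (v - ρ) ^ n) ρ (g0 ρ), ?_, ?_⟩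
  · intro v hv
    apply DifferentiableAt.differentiableWithinAt
    by_cases hvρ : v = ρ
    · subst hvρ
      refine hg0.differentiableAt.congr_of_eventuallyEq ?_
      filter_upwards [hev] with z hz
      by_cases hzv : z = v
      · subst hzv; simp
      · rw [Function.update_of_ne hzv, hz, smul_eq_mul]
        have : (z - v) ^ n ≠ 0 := pow_ne_zero _ (sub_ne_zero.2 hzv)
        field_simp
    · have h1 : DifferentiableAt ℂ (fun v => f v / (v - ρ) ^ n) v := by
        refine DifferentiableAt.div ((hf v hv).differentiableAt (hU.mem_nhds hv)) (by fun_prop) ?_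
        exact pow_ne_zero _ (sub_ne_zero.2 hvρ)
      refine h1.congr_of_eventuallyEq ?_
      filter_upwards [isOpen_ne.mem_nhds hvρ] with z hz
      rw [Function.update_of_ne hz]
  · intro v
    by_cases hvρ : v = ρ
    · subst hvρ
      rw [Function.update_self]
      exact hev.self_of_nhds
    · rw [Function.update_of_ne hvρ]
      have : (v - ρ) ^ n ≠ 0 := pow_ne_zero _ (sub_ne_zero.2 hvρ)
      field_simp

/-- the monic polynomial `∏ (v - ρ)^(n ρ)` has order zero off `S`. -/
theorem prod_ne_zero_pt (S : Finset ℂ) (n : ℂ → ℕ) (w : ℂ) (hw : w ∉ S) :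
    ∏ ρ ∈ S, (w - ρ) ^ n ρ ≠ 0 :=
  Finset.prod_ne_zero_iff.2 fun ρ hρ => pow_ne_zero _ (sub_ne_zero.2 (by rintro rfl; exact hw hρ))

/-- divide out finitely many points -/
theorem div_pts (U : Set ℂ) (hU : IsOpen U) (f : ℂ → ℂ) (hf : DifferentiableOn ℂ f U)
    (S : Finset ℂ) (n : ℂ → ℕ) (hS : ∀ ρ ∈ S, ρ ∈ U)
    (hn : ∀ ρ ∈ S, (n ρ : ℕ∞) ≤ analyticOrderAt f ρ) :
    ∃ g : ℂ → ℂ, DifferentiableOn ℂ g U ∧ ∀ v, f v = (∏ ρ ∈ S, (v - ρ) ^ n ρ) * g v := by
  classical
  induction S using Finset.induction_on with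
  | empty => exact ⟨f, hf, fun v => by simp⟩
  | insert a S ha ih =>
    obtain ⟨g, hg, hfg⟩ := ih (fun ρ hρ => hS ρ (Finset.mem_insert_of_mem hρ))
      (fun ρ hρ => hn ρ (Finset.mem_insert_of_mem hρ))
    have haU := hS a (Finset.mem_insert_self a S)
    have hga : AnalyticAt ℂ g a := hg.analyticAt (hU.mem_nhds haU)
    have hPa : AnalyticAt ℂ (fun v => ∏ ρ ∈ S, (v - ρ) ^ n ρ) a := by
      refine Differentiable.analyticAt ?_ a
      fun_prop
    have e1 : f = (fun v => ∏ ρ ∈ S, (v - ρ) ^ n ρ) * g := by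
      funext v; exact hfg v
    have h0 : analyticOrderAt (fun v : ℂ => ∏ ρ ∈ S, (v - ρ) ^ n ρ) a = 0 :=
      hPa.analyticOrderAt_eq_zero.2 (prod_ne_zero_pt S n a ha)
    have hord : (n a : ℕ∞) ≤ analyticOrderAt g a := by
      have := hn a (Finset.mem_insert_self a S)
      rw [e1, analyticOrderAt_mul hPa hga, h0, zero_add] at this
      exact this
    obtain ⟨g', hg', hgg'⟩ := div_pt U hU g hg a haU (n a) hord
    refine ⟨g', hg', fun v => ?_⟩
    rw [hfg v, hgg' v, Finset.prod_insert ha]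
    ring

/-- if the exponents are the exact orders the cofactor does not vanish on `S` -/
theorem cofactor_ne (U : Set ℂ) (hU : IsOpen U) (f g : ℂ → ℂ) (hg : DifferentiableOn ℂ g U)
    (S : Finset ℂ) (n : ℂ → ℕ) (hS : ∀ ρ ∈ S, ρ ∈ U)
    (hn : ∀ ρ ∈ S, (n ρ : ℕ∞) = analyticOrderAt f ρ)
    (hfg : ∀ v, f v = (∏ ρ ∈ S, (v - ρ) ^ n ρ) * g v) : ∀ ρ ∈ S, g ρ ≠ 0 := by
  classical
  intro a ha
  have haU := hS a ha
  have hga : AnalyticAt ℂ g a := hg.analyticAt (hU.mem_nhds haU)
  have hP1 : AnalyticAt ℂ (fun v => ∏ ρ ∈ S.erase a, (v - ρ) ^ n ρ) a := by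
    refine Differentiable.analyticAt ?_ a
    fun_prop
  have hP2 : AnalyticAt ℂ (fun v => (v - a) ^ n a) a := by
    refine Differentiable.analyticAt ?_ a
    fun_prop
  have e1 : f = ((fun v => (v - a) ^ n a) * (fun v => ∏ ρ ∈ S.erase a, (v - ρ) ^ n ρ)) * g := by
    funext v
    rw [hfg v, ← Finset.mul_prod_erase S _ ha]
    rfl
  have h0 : analyticOrderAt (fun v : ℂ => ∏ ρ ∈ S.erase a, (v - ρ) ^ n ρ) a = 0 :=
    hP1.analyticOrderAt_eq_zero.2 (prod_ne_zero_pt _ n a (Finset.notMem_erase a S))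
  have h1 : analyticOrderAt (fun v : ℂ => (v - a) ^ n a) a = n a := by
    rw [hP2.analyticOrderAt_eq_natCast]
    exact ⟨fun _ => 1, analyticAt_const, one_ne_zero, Eventually.of_forall fun z => by simp⟩
  have h2 := hn a ha
  rw [e1, analyticOrderAt_mul (hP2.mul hP1) hga, analyticOrderAt_mul hP2 hP1, h0, h1,
    add_zero] at h2
  have h3 : analyticOrderAt g a = 0 := by
    revert h2
    generalize analyticOrderAt g a = k
    intro h2
    induction k using ENat.recTopCoe with
    | top => simp at h2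
    | coe k =>
      have h5 : n a = n a + k := by exact_mod_cast h2
      have h6 : k = 0 := by omega
      simp [h6]
  exact (hga.analyticOrderAt_eq_zero).1 h3

/-- a nonvanishing holomorphic function on a ball: lower bound from the Borel-Caratheodory
inequality -/
theorem lower_of_upper (Q : ℂ → ℂ) (c : ℂ) (R M r : ℝ) (hr : 0 ≤ r) (hrR : r < R)
    (hQ : DifferentiableOn ℂ Q (ball c R)) (hQ0 : ∀ v ∈ ball c R, Q v ≠ 0)
    (hM : ∀ v ∈ ball c R, ‖Q v‖ ≤ M) (v : ℂ) (hv : v ∈ closedBall c r) :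
    ‖Q c‖ * Real.exp (-(2 * Real.log (M / ‖Q c‖ ) * r / (R - r))) ≤ ‖Q v‖ := by
  have hR : 0 < R := by linarith
  have hc : c ∈ ball c R := mem_ball_self hR
  have hQc := hQ0 c hc
  have hQcp : 0 < ‖Q c‖ := norm_pos_iff.2 hQc
  have hMc := hM c hc
  have hMp : 0 < M := hQcp.trans_le hMc
  have hlog0 : 0 ≤ Real.log (M / ‖Q c‖) := Real.log_nonneg (by rwa [one_le_div hQcp])
  -- primitive of the logarithmic derivative
  have hld : DifferentiableOn ℂ (fun v => deriv Q v / Q v) (ball c R) :=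
    (hQ.deriv isOpen_ball).div hQ hQ0
  obtain ⟨f, hfc, hf⟩ := (hld.isExactOn_ball).with_val_at c 0
  have hconst : ∀ v ∈ ball c R, Q v * cexp (-f v) = Q c := by
    intro v hv
    have hd : ∀ z ∈ ball c R, HasDerivAt (fun z => Q z * cexp (-f z)) 0 z := by
      intro z hz
      have h1 := ((hQ z hz).differentiableAt (isOpen_ball.mem_nhds hz)).hasDerivAt
      have h2 := (hf z hz).neg.cexp
      have h3 : HasDerivAt (fun z => Q z * cexp (-f z))
        (deriv Q z * cexp (-f z) + Q z * (cexp (-f z) * -(deriv Q z / Q z))) z := h1.mul h2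
      have := hQ0 z hz
      have e : deriv Q z * cexp (-f z) + Q z * (cexp (-f z) * -(deriv Q z / Q z)) = 0 := by
        field_simp
        ring
      rwa [e] at h3
    have := (convex_ball c R).is_const_of_fderivWithin_eq_zero (𝕜 := ℂ)
      (f := fun z => Q z * cexp (-f z)) (fun z hz => (hd z hz).differentiableAt.differentiableWithinAt)
      (fun z hz => by
        rw [fderivWithin_of_isOpen isOpen_ball hz]
        ext
        simp [(hd z hz).hasFDerivAt.fderiv]) hv hc
    rw [this, hfc]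
    simp
  have hQexp : ∀ v ∈ ball c R, Q v = Q c * cexp (f v) := by
    intro v hv
    rw [← hconst v hv, mul_assoc, ← Complex.exp_add]
    simp
  have hre : ∀ v ∈ ball c R, (f v).re ≤ Real.log (M / ‖Q c‖) := by
    intro v hv
    have h1 := hM v hv
    rw [hQexp v hv, norm_mul, Complex.norm_exp] at h1
    rw [Real.le_log_iff_exp_le (by positivity), le_div_iff₀ hQcp]
    linarith
  -- apply Borel-Caratheodory with any M' > log
  have key : ∀ ε > 0, ‖Q c‖ * Real.exp (-(2 * (Real.log (M / ‖Q c‖) + ε) * r / (R - r))) ≤ ‖Q v‖ := by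
    intro ε hε
    have hvb : v ∈ ball c R := lt_of_le_of_lt hv hrR
    set g : ℂ → ℂ := fun z => f (c + z) with hg
    have hgd : DifferentiableOn ℂ g (ball 0 R) := by
      intro z hz
      have hz' : c + z ∈ ball c R := by simpa [mem_ball, dist_eq_norm] using hz
      have h1 := (hf (c + z) hz').differentiableAt
      exact (h1.comp z (by fun_prop : DifferentiableAt ℂ (fun z => c + z) z)).differentiableWithinAt
    have hmaps : Set.MapsTo g (ball 0 R) {z | z.re ≤ Real.log (M / ‖Q c‖) + ε} := by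
      intro z hz
      have hz' : c + z ∈ ball c R := by simpa [mem_ball, dist_eq_norm] using hz
      have := hre _ hz'
      simp only [hg, Set.mem_ofPred_eq]
      linarith
    have hz : v - c ∈ ball (0:ℂ) R := by simpa [mem_ball, dist_eq_norm] using hvb
    have hbc := Complex.borelCaratheodory_zero (M := Real.log (M / ‖Q c‖) + ε) (by positivity) hgd
      hmaps hR hz (by simp [hg, hfc])
    have hnv : ‖v - c‖ ≤ r := by simpa [mem_closedBall, dist_eq_norm] using hv
    have hfv : ‖f v‖ ≤ 2 * (Real.log (M / ‖Q c‖) + ε) * r / (R - r) := by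
      have e : g (v - c) = f v := by simp [hg]
      rw [e] at hbc
      refine hbc.trans ?_
      have : 0 < R - r := by linarith
      have h5 : 0 ≤ 2 * (Real.log (M / ‖Q c‖) + ε) := by positivity
      gcongr
    rw [hQexp v hvb, norm_mul, Complex.norm_exp]
    refine mul_le_mul_of_nonneg_left (Real.exp_le_exp.2 ?_) hQcp.le
    have := abs_le.1 ((Complex.abs_re_le_norm (f v)).trans hfv)
    linarith [this.1]
  have hcont : Tendsto (fun ε : ℝ => ‖Q c‖ * Real.exp (-(2 * (Real.log (M / ‖Q c‖) + ε) * r / (R - r))))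
      (𝓝[>] 0) (𝓝 (‖Q c‖ * Real.exp (-(2 * (Real.log (M / ‖Q c‖) + 0) * r / (R - r))))) := by
    refine Tendsto.mono_left ?_ nhdsWithin_le_nhds
    refine Continuous.tendsto (f := fun ε : ℝ => ‖Q c‖ * Real.exp (-(2 * (Real.log (M / ‖Q c‖) + ε) * r / (R - r)))) ?_ 0
    fun_prop
  have := le_of_tendsto hcont (eventually_nhdsWithin_of_forall fun ε hε => key ε hε)
  simpa using this

end H353
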