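import Pool.Agent.H19.EW.L.H353R2_An

open Complex Filter Topology Set Metric

namespace H353

theorem blaschke_norm (c ρ v : ℂ) (R1 : ℝ) (hR1 : 0 < R1) (hv : ‖v - c‖ = R1) :
    ‖((R1 : ℂ) ^ 2 - (starRingEnd ℂ) (ρ - c) * (v - c)) / R1‖ = ‖v - ρ‖ := by
  have h1 : (R1 : ℂ) ^ 2 = (v - c) * (starRingEnd ℂ) (v - c) := by
    rw [Complex.mul_conj', hv]
  have h2 : (R1 : ℂ) ^ 2 - (starRingEnd ℂ) (ρ - c) * (v - c) =
      (v - c) * (starRingEnd ℂ) (v - ρ) := by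
    rw [h1, ← sub_add_sub_cancel v ρ c]
    simp only [map_sub, map_add]
    ring
  rw [h2, norm_div, norm_mul, hv, RCLike.norm_conj, norm_real, Real.norm_eq_abs, abs_of_pos hR1]
  field_simp

/-- product of the Blaschke numerators -/
noncomputable def Bt (c : ℂ) (R1 : ℝ) (S : Finset ℂ) (n : ℂ → ℕ) (v : ℂ) : ℂ :=
  ∏ ρ ∈ S, (((R1 : ℂ) ^ 2 - (starRingEnd ℂ) (ρ - c) * (v - c)) / R1) ^ n ρ

theorem Bt_diff (c : ℂ) (R1 : ℝ) (S : Finset ℂ) (n : ℂ → ℕ) : Differentiable ℂ (Bt c R1 S n) := by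
  unfold Bt
  fun_prop

theorem Bt_norm (c : ℂ) (R1 : ℝ) (hR1 : 0 < R1) (S : Finset ℂ) (n : ℂ → ℕ) (v : ℂ)
    (hv : ‖v - c‖ = R1) : ‖Bt c R1 S n v‖ = ‖∏ ρ ∈ S, (v - ρ) ^ n ρ‖ := by
  unfold Bt
  rw [norm_prod, norm_prod]
  refine Finset.prod_congr rfl fun ρ _ => ?_
  rw [norm_pow, norm_pow, blaschke_norm c ρ v R1 hR1 hv]

theorem Bt_center (c : ℂ) (R1 : ℝ) (hR1 : 0 < R1) (S : Finset ℂ) (n : ℂ → ℕ) :
    ‖Bt c R1 S n c‖ = R1 ^ (∑ ρ ∈ S, n ρ) := by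
  unfold Bt
  rw [norm_prod, ← Finset.prod_pow_eq_pow_sum]
  refine Finset.prod_congr rfl fun ρ _ => ?_
  rw [norm_pow]
  congr 1
  rw [sub_self, mul_zero, sub_zero, norm_div, norm_pow, norm_real, Real.norm_eq_abs,
    abs_of_pos hR1]
  field_simp

theorem Bt_ne (c : ℂ) (R R1 : ℝ) (hR : 0 < R) (hRR : R < R1) (S : Finset ℂ) (n : ℂ → ℕ)
    (hS : ∀ ρ ∈ S, ρ ∈ closedBall c R) (v : ℂ) (hv : v ∈ closedBall c R) : Bt c R1 S n v ≠ 0 := by
  unfold Bt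
  refine Finset.prod_ne_zero_iff.2 fun ρ hρ => pow_ne_zero _ ?_
  have hR1 : 0 < R1 := by linarith
  refine div_ne_zero ?_ (by exact_mod_cast hR1.ne')
  intro h
  have h1 : (R1 : ℂ) ^ 2 = (starRingEnd ℂ) (ρ - c) * (v - c) := sub_eq_zero.1 h
  have h2 := congrArg norm h1
  rw [norm_pow, norm_real, Real.norm_eq_abs, abs_of_pos hR1, norm_mul, RCLike.norm_conj] at h2
  have h3 : ‖ρ - c‖ ≤ R := by simpa [mem_closedBall, dist_eq_norm] using hS ρ hρ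
  have h4 : ‖v - c‖ ≤ R := by simpa [mem_closedBall, dist_eq_norm] using hv
  have h5 : ‖ρ - c‖ * ‖v - c‖ ≤ R * R := mul_le_mul h3 h4 (norm_nonneg _) hR.le
  nlinarith

theorem prod_center_le (c : ℂ) (R : ℝ) (S : Finset ℂ) (n : ℂ → ℕ)
    (hS : ∀ ρ ∈ S, ρ ∈ closedBall c R) : ‖∏ ρ ∈ S, (c - ρ) ^ n ρ‖ ≤ R ^ (∑ ρ ∈ S, n ρ) := by
  rw [norm_prod, ← Finset.prod_pow_eq_pow_sum]
  refine Finset.prod_le_prod (fun _ _ => norm_nonneg _) fun ρ hρ => ?_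
  rw [norm_pow]
  refine pow_le_pow_left₀ (norm_nonneg _) ?_ _
  have := hS ρ hρ
  rw [mem_closedBall, dist_comm, dist_eq_norm] at this
  exact this

/-- maximum principle on a closed ball -/
theorem max_ball (U : Set ℂ) (f : ℂ → ℂ) (hf : DifferentiableOn ℂ f U) (c : ℂ)
    (R M : ℝ) (hR : 0 < R) (hsub : closedBall c R ⊆ U) (hM : ∀ v ∈ sphere c R, ‖f v‖ ≤ M) (v : ℂ)
    (hv : v ∈ closedBall c R) : ‖f v‖ ≤ M := by
  have hd : DiffContOnCl ℂ f (ball c R) := hf.diffContOnCl_ball hsub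
  refine Complex.norm_le_of_forall_mem_frontier_norm_le isBounded_ball hd ?_ ?_
  · intro z hz
    rw [frontier_ball c hR.ne'] at hz
    exact hM z hz
  · rwa [closure_ball c hR.ne']

/-- Jensen type bound for the number of zeros -/
theorem count_bound (U : Set ℂ) (hU : IsOpen U) (f : ℂ → ℂ) (hf : DifferentiableOn ℂ f U)
    (c : ℂ) (R R1 M : ℝ) (hR : 0 < R) (hRR : R < R1) (hsub : closedBall c R1 ⊆ U)
    (hM : ∀ v ∈ sphere c R1, ‖f v‖ ≤ M) (S : Finset ℂ) (n : ℂ → ℕ)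
    (hS : ∀ ρ ∈ S, ρ ∈ closedBall c R) (hn : ∀ ρ ∈ S, (n ρ : ℕ∞) ≤ analyticOrderAt f ρ) :
    ‖f c‖ * (R1 / R) ^ (∑ ρ ∈ S, n ρ) ≤ M := by
  have hR1 : 0 < R1 := by linarith
  have hSU : ∀ ρ ∈ S, ρ ∈ U := fun ρ hρ => hsub (closedBall_subset_closedBall hRR.le (hS ρ hρ))
  obtain ⟨g, hg, hfg⟩ := div_pts U hU f hf S n hSU hn
  have hQ : DifferentiableOn ℂ (fun v => Bt c R1 S n v * g v) U :=
    ((Bt_diff c R1 S n).differentiableOn).mul hg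
  have h1 := max_ball U _ hQ c R1 M hR1 hsub (fun v hv => by
    rw [norm_mul, Bt_norm c R1 hR1 S n v (by simpa [dist_eq_norm] using hv), ← norm_mul, ← hfg v]
    exact hM v hv) c (mem_closedBall_self hR1.le)
  rw [norm_mul, Bt_center c R1 hR1] at h1
  refine le_trans ?_ h1
  rw [hfg c, norm_mul]
  have h2 := prod_center_le c R S n hS
  calc ‖∏ ρ ∈ S, (c - ρ) ^ n ρ‖ * ‖g c‖ * (R1 / R) ^ (∑ ρ ∈ S, n ρ)
      ≤ R ^ (∑ ρ ∈ S, n ρ) * ‖g c‖ * (R1 / R) ^ (∑ ρ ∈ S, n ρ) := by gcongr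
    _ = R1 ^ (∑ ρ ∈ S, n ρ) * ‖g c‖ := by
      rw [div_pow]
      field_simp

/-- The quotient of a bounded function by a function of which it cancels the zeros. -/
theorem quot_bound (U : Set ℂ) (hU : IsOpen U) (F K : ℂ → ℂ) (hF : DifferentiableOn ℂ F U)
    (hK : DifferentiableOn ℂ K U) (c : ℂ) (r R R1 M : ℝ) (hr : 0 ≤ r) (hrR : r < R)
    (hRR : R < R1) (hsub : closedBall c R1 ⊆ U)
    (hM : ∀ v ∈ sphere c R1, ‖F v‖ ≤ M) (hK1 : ∀ v ∈ sphere c R1, ‖K v‖ ≤ 1) (hFc : F c ≠ 0)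
    (S : Finset ℂ) (n : ℂ → ℕ) (hS : ∀ ρ ∈ S, ρ ∈ closedBall c R)
    (hn : ∀ ρ ∈ S, (n ρ : ℕ∞) = analyticOrderAt F ρ)
    (hn2 : ∀ ρ ∈ S, (n ρ : ℕ∞) ≤ analyticOrderAt K ρ)
    (hz : ∀ v ∈ closedBall c R, v ∉ S → F v ≠ 0) (v : ℂ) (hv : v ∈ closedBall c r) :
    ‖K v‖ * ‖F c‖ ≤ ‖F v‖ * Real.exp (2 * Real.log (M / ‖F c‖) * r / (R - r)) := by
  have hR : 0 < R := by linarith
  have hR1 : 0 < R1 := by linarith
  have hSU : ∀ ρ ∈ S, ρ ∈ U := fun ρ hρ => hsub (closedBall_subset_closedBall hRR.le (hS ρ hρ))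
  obtain ⟨G, hG, hFG⟩ := div_pts U hU F hF S n hSU (fun ρ hρ => (hn ρ hρ).le)
  obtain ⟨K1, hK1', hKK⟩ := div_pts U hU K hK S n hSU hn2
  have hGS := cofactor_ne U hU F G hG S n hSU hn hFG
  have hG0 : ∀ v ∈ closedBall c R, G v ≠ 0 := by
    intro v hv
    by_cases hvS : v ∈ S
    · exact hGS v hvS
    · intro h0
      apply hz v hv hvS
      rw [hFG v, h0, mul_zero]
  have hQd : DifferentiableOn ℂ (fun v => Bt c R1 S n v * G v) U :=
    ((Bt_diff c R1 S n).differentiableOn).mul hG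
  have hLd : DifferentiableOn ℂ (fun v => Bt c R1 S n v * K1 v) U :=
    ((Bt_diff c R1 S n).differentiableOn).mul hK1'
  have hQM := max_ball U _ hQd c R1 M hR1 hsub (fun v hv => by
    rw [norm_mul, Bt_norm c R1 hR1 S n v (by simpa [dist_eq_norm] using hv), ← norm_mul, ← hFG v]
    exact hM v hv)
  have hL1 := max_ball U _ hLd c R1 1 hR1 hsub (fun v hv => by
    rw [norm_mul, Bt_norm c R1 hR1 S n v (by simpa [dist_eq_norm] using hv), ← norm_mul, ← hKK v]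
    exact hK1 v hv)
  have hbR : ball c R ⊆ closedBall c R1 := ball_subset_closedBall.trans
    (closedBall_subset_closedBall hRR.le)
  have hlow := lower_of_upper (fun v => Bt c R1 S n v * G v) c R M r hr hrR
    (hQd.mono (hbR.trans hsub))
    (fun v hv => mul_ne_zero (Bt_ne c R R1 hR hRR S n hS v (ball_subset_closedBall hv))
      (hG0 v (ball_subset_closedBall hv)))
    (fun v hv => hQM v (hbR hv)) v hv
  -- center value
  have hcen : ‖F c‖ ≤ ‖Bt c R1 S n c * G c‖ := by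
    rw [norm_mul, Bt_center c R1 hR1, hFG c, norm_mul]
    have h2 := prod_center_le c R S n hS
    have h3 : R ^ (∑ ρ ∈ S, n ρ) ≤ R1 ^ (∑ ρ ∈ S, n ρ) := pow_le_pow_left₀ hR.le hRR.le _
    exact mul_le_mul_of_nonneg_right (h2.trans h3) (norm_nonneg _)
  have hFcp : 0 < ‖F c‖ := norm_pos_iff.2 hFc
  have hQMc := hQM c (mem_closedBall_self hR1.le)
  have hMp : 0 < M := hFcp.trans_le (hcen.trans hQMc)
  set q : ℝ := ‖Bt c R1 S n c * G c‖ with hq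
  have hqp : 0 < q := hFcp.trans_le hcen
  have hRr : 0 < R - r := by linarith
  have hlow2 : ‖F c‖ * Real.exp (-(2 * Real.log (M / ‖F c‖) * r / (R - r))) ≤
      ‖Bt c R1 S n v * G v‖ := by
    refine le_trans ?_ hlow
    have e1 : Real.log (M / q) ≤ Real.log (M / ‖F c‖) :=
      Real.log_le_log (by positivity) (div_le_div_of_nonneg_left hMp.le hFcp hcen)
    have e2 : 2 * Real.log (M / q) * r / (R - r) ≤ 2 * Real.log (M / ‖F c‖) * r / (R - r) := by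
      gcongr
    exact mul_le_mul hcen (Real.exp_le_exp.2 (by linarith)) (Real.exp_nonneg _) hqp.le
  have hvR1 : v ∈ closedBall c R1 := closedBall_subset_closedBall (by linarith) hv
  have hprod : ‖K v‖ * ‖Bt c R1 S n v * G v‖ = ‖Bt c R1 S n v * K1 v‖ * ‖F v‖ := by
    rw [hKK v, hFG v]
    simp only [norm_mul]
    ring
  have h6 : ‖K v‖ * ‖Bt c R1 S n v * G v‖ ≤ ‖F v‖ := by
    rw [hprod]
    have := hL1 v hvR1
    calc _ ≤ 1 * ‖F v‖ := by gcongr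
      _ = ‖F v‖ := one_mul _
  have h7 : ‖K v‖ * (‖F c‖ * Real.exp (-(2 * Real.log (M / ‖F c‖) * r / (R - r)))) ≤ ‖F v‖ :=
    (mul_le_mul_of_nonneg_left hlow2 (norm_nonneg _)).trans h6
  have h8 : 0 < Real.exp (2 * Real.log (M / ‖F c‖) * r / (R - r)) := Real.exp_pos _
  calc ‖K v‖ * ‖F c‖ = ‖K v‖ * (‖F c‖ * Real.exp (-(2 * Real.log (M / ‖F c‖) * r / (R - r)))) *
        Real.exp (2 * Real.log (M / ‖F c‖) * r / (R - r)) := by
        rw [mul_assoc ‖K v‖, mul_assoc ‖F c‖, ← Real.exp_add]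
        simp
    _ ≤ _ := by gcongr

end H353
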