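import Mathlib

open Complex MeasureTheory ProbabilityTheory Filter Topology

namespace H353

noncomputable section

/-- the two point law used for the kernel -/
def pr (b h : ℝ) : Measure Bool :=
  ENNReal.ofReal (1 / (1 + Real.exp (b * h))) • Measure.dirac false +
  ENNReal.ofReal (Real.exp (b * h) / (1 + Real.exp (b * h))) • Measure.dirac true

instance pr_prob (b h : ℝ) : IsProbabilityMeasure (pr b h) := by
  constructor
  have hp : 0 < Real.exp (b * h) := Real.exp_pos _
  simp only [pr, Measure.coe_add, Measure.coe_smul, Pi.add_apply, Pi.smul_apply,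
    measure_univ, smul_eq_mul, mul_one]
  rw [← ENNReal.ofReal_add (by positivity) (by positivity), ← add_div, div_self (by positivity)]
  simp

theorem integral_pr (b h : ℝ) (f : Bool → ℂ) :
    ∫ x, f x ∂(pr b h) = (f false + cexp (b * h) * f true) / (1 + cexp (b * h)) := by
  have hp : 0 < Real.exp (b * h) := Real.exp_pos _
  have i1 : ∀ x, Integrable f (Measure.dirac x) := fun x => by
    refine integrable_dirac ?_
    simp
  rw [pr, integral_add_measure ((i1 _).smul_measure (by simp)) ((i1 _).smul_measure (by simp)),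
    integral_smul_measure, integral_smul_measure, integral_dirac, integral_dirac,
    ENNReal.toReal_ofReal (by positivity), ENNReal.toReal_ofReal (by positivity)]
  have e1 : (cexp (b * h)) = ((Real.exp (b * h) : ℝ) : ℂ) := by push_cast; rfl
  rw [e1]
  simp only [Complex.real_smul]
  push_cast
  ring

/-- the elementary killing factor -/
def EE (b h : ℝ) (s : ℂ) : ℂ := (1 + cexp ((b - s) * h)) / (1 + cexp (b * h))

theorem EE_zero_h (b : ℝ) (s : ℂ) : EE b 0 s = 1 := by
  simp only [EE, ofReal_zero, mul_zero, Complex.exp_zero]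
  norm_num

theorem EE_diff (b h : ℝ) : Differentiable ℂ (EE b h) := by
  unfold EE
  fun_prop

theorem EE_vanish (b h : ℝ) (s : ℂ) (hs : (b - s) * h = Real.pi * I ∨ (b - s) * h = -(Real.pi * I)) :
    EE b h s = 0 := by
  unfold EE
  rcases hs with hs | hs
  · rw [hs, Complex.exp_pi_mul_I]; simp
  · rw [hs, Complex.exp_neg, Complex.exp_pi_mul_I]; norm_num

variable {ι : Type*}

/-- the product law -/
def PP (b h : ι → ℝ) : Measure (ι → Bool) := Measure.infinitePi (fun i => pr (b i) (h i))

instance PP_prob (b h : ι → ℝ) : IsProbabilityMeasure (PP b h) := by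
  unfold PP; infer_instance

/-- the random sum -/
def XX (h : ι → ℝ) (ω : ι → Bool) : ℝ := ∑' i, if ω i then h i else 0

theorem XX_summable (h : ι → ℝ) (h0 : ∀ i, 0 ≤ h i) (hs : Summable h) (ω : ι → Bool) :
    Summable (fun i => if ω i then h i else 0) := by
  refine Summable.of_nonneg_of_le (fun i => ?_) (fun i => ?_) hs
  · split_ifs; exacts [h0 i, le_rfl]
  · split_ifs; exacts [le_rfl, h0 i]

theorem XX_nonneg (h : ι → ℝ) (h0 : ∀ i, 0 ≤ h i) (ω : ι → Bool) : 0 ≤ XX h ω := by
  refine tsum_nonneg fun i => ?_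
  split_ifs; exacts [h0 i, le_rfl]

theorem XX_le (h : ι → ℝ) (h0 : ∀ i, 0 ≤ h i) (hs : Summable h) (ω : ι → Bool) :
    XX h ω ≤ ∑' i, h i := by
  refine (XX_summable h h0 hs ω).tsum_le_tsum (fun i => ?_) hs
  split_ifs; exacts [le_rfl, h0 i]

theorem XX_part_meas (h : ι → ℝ) (F : Finset ι) :
    Measurable (fun ω : ι → Bool => ∑ i ∈ F, if ω i then h i else 0) := by
  refine Finset.measurable_sum _ fun i _ => ?_
  refine Measurable.ite ?_ measurable_const measurable_const
  exact measurableSet_eq_fun (measurable_pi_apply i) measurable_const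

theorem XX_meas [Countable ι] (h : ι → ℝ) (h0 : ∀ i, 0 ≤ h i) (hs : Summable h) :
    Measurable (XX h) := by
  refine measurable_of_tendsto_metrizable' (atTop : Filter (Finset ι))
    (fun F => XX_part_meas h F) ?_
  rw [tendsto_pi_nhds]
  intro ω
  exact (XX_summable h h0 hs ω).hasSum

/-- the Laplace transform of the law of `XX` -/
def KK (b h : ι → ℝ) (s : ℂ) : ℂ := ∫ ω, cexp (-s * XX h ω) ∂(PP b h)

theorem KK_part (b h : ι → ℝ) (s : ℂ) (F : Finset ι) :
    ∫ ω, cexp (-s * ((∑ i ∈ F, if ω i then h i else 0 : ℝ) : ℂ)) ∂(PP b h) =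
      ∏ i ∈ F, EE (b i) (h i) s := by
  have e1 : ∀ ω : ι → Bool, cexp (-s * ((∑ i ∈ F, if ω i then h i else 0 : ℝ) : ℂ)) =
      (fun y : F → Bool => ∏ i : F, cexp (-s * ((if y i then h i else 0 : ℝ) : ℂ)))
        (F.restrict ω) := by
    intro ω
    show _ = ∏ i : F, cexp (-s * ((if ω i then h i else 0 : ℝ) : ℂ))
    rw [← Complex.exp_sum, ← Finset.mul_sum, ← Complex.ofReal_sum,
      Finset.sum_coe_sort F (fun i => if ω i then h i else 0)]
  have m1 : AEStronglyMeasurable (fun y : F → Bool => ∏ i : F, cexp (-s * ((if y i then h i else 0 : ℝ) : ℂ)))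
      (Measure.pi (fun i : F => pr (b i) (h i))) := by
    refine Measurable.aestronglyMeasurable ?_
    fun_prop
  rw [integral_congr_ae (ae_of_all _ e1), PP]
  rw [integral_restrict_infinitePi (μ := fun i => pr (b i) (h i)) m1]
  rw [integral_fintype_prod_eq_prod (fun (i : F) (x : Bool) => cexp (-s * ((if x then h i else 0 : ℝ) : ℂ)))]
  rw [← Finset.prod_coe_sort F]
  refine Finset.prod_congr rfl fun i _ => ?_
  rw [integral_pr]
  simp only [EE, Bool.false_eq_true, if_false, if_true, ofReal_zero, mul_zero, Complex.exp_zero]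
  rw [← Complex.exp_add]
  congr 3
  ring

theorem KK_hasProd [Countable ι] (b h : ι → ℝ) (h0 : ∀ i, 0 ≤ h i) (hs : Summable h) (s : ℂ) :
    HasProd (fun i => EE (b i) (h i) s) (KK b h s) := by
  have key : Tendsto (fun F : Finset ι => ∫ ω, cexp (-s * ((∑ i ∈ F, if ω i then h i else 0 : ℝ) : ℂ)) ∂(PP b h))
      atTop (𝓝 (KK b h s)) := by
    refine tendsto_integral_filter_of_dominated_convergence
      (fun _ => Real.exp (‖s‖ * ∑' i, h i)) ?_ ?_ (integrable_const _) ?_
    · refine Eventually.of_forall fun F => ?_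
      refine Measurable.aestronglyMeasurable ?_
      have := XX_part_meas h F
      fun_prop
    · refine Eventually.of_forall fun F => ae_of_all _ fun ω => ?_
      rw [Complex.norm_exp]
      refine Real.exp_le_exp.2 ?_
      refine (Complex.re_le_norm _).trans ?_
      rw [norm_mul, norm_neg, Complex.norm_real, Real.norm_eq_abs]
      refine mul_le_mul_of_nonneg_left ?_ (norm_nonneg _)
      have n1 : 0 ≤ ∑ i ∈ F, (if ω i then h i else 0) :=
        Finset.sum_nonneg fun i _ => by split_ifs; exacts [h0 i, le_rfl]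
      rw [abs_of_nonneg n1]
      calc ∑ i ∈ F, (if ω i then h i else 0) ≤ ∑ i ∈ F, h i :=
            Finset.sum_le_sum fun i _ => by split_ifs; exacts [le_rfl, h0 i]
        _ ≤ ∑' i, h i := hs.sum_le_tsum _ fun i _ => h0 i
    · refine ae_of_all _ fun ω => ?_
      have h1 : Tendsto (fun F : Finset ι => ∑ i ∈ F, if ω i then h i else 0) atTop (𝓝 (XX h ω)) :=
        (XX_summable h h0 hs ω).hasSum
      have h2 : Continuous (fun x : ℝ => cexp (-s * (x : ℂ))) := by fun_prop
      exact (h2.tendsto _).comp h1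
  simp_rw [KK_part] at key
  exact key

theorem KK_split [Countable ι] [DecidableEq ι] (b h : ι → ℝ) (h0 : ∀ i, 0 ≤ h i) (hs : Summable h)
    (F : Finset ι) (s : ℂ) :
    KK b h s = (∏ i ∈ F, EE (b i) (h i) s) * KK b (fun i => if i ∈ F then 0 else h i) s := by
  have h0' : ∀ i, 0 ≤ (fun i => if i ∈ F then 0 else h i) i := by
    intro i; simp only; split_ifs; exacts [le_rfl, h0 i]
  have hs' : Summable (fun i => if i ∈ F then 0 else h i) := by
    refine Summable.of_nonneg_of_le h0' (fun i => ?_) hs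
    split_ifs; exacts [h0 i, le_rfl]
  have p1 := KK_hasProd b h h0 hs s
  have p2 := KK_hasProd b _ h0' hs' s
  have p3 : HasProd (fun i => if i ∈ F then EE (b i) (h i) s else 1) (∏ i ∈ F, EE (b i) (h i) s) := by
    have h3 : HasProd (fun i => if i ∈ F then EE (b i) (h i) s else 1)
        (∏ i ∈ F, if i ∈ F then EE (b i) (h i) s else 1) :=
      hasProd_prod_of_ne_finset_one (fun i hi => if_neg hi)
    rwa [Finset.prod_congr rfl (fun i hi => if_pos hi)] at h3
  have p4 := p3.mul p2
  have e : (fun i => (if i ∈ F then EE (b i) (h i) s else 1) *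
      EE (b i) (if i ∈ F then 0 else h i) s) = fun i => EE (b i) (h i) s := by
    funext i
    split_ifs
    · rw [EE_zero_h, mul_one]
    · rw [one_mul]
  rw [e] at p4
  exact p1.unique p4

theorem KK_diff [Countable ι] (b h : ι → ℝ) (h0 : ∀ i, 0 ≤ h i) (hs : Summable h) :
    Differentiable ℂ (KK b h) := by
  have hint : integrableExpSet (XX h) (PP b h) = Set.univ := by
    rw [Set.eq_univ_iff_forall]
    intro t
    show Integrable _ _
    refine Integrable.mono' (integrable_const (Real.exp (|t| * ∑' i, h i))) ?_ ?_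
    · have := XX_meas h h0 hs
      exact (by fun_prop : Measurable _).aestronglyMeasurable
    · refine ae_of_all _ fun ω => ?_
      rw [Real.norm_eq_abs, Real.abs_exp]
      refine Real.exp_le_exp.2 ?_
      calc t * XX h ω ≤ |t| * XX h ω := mul_le_mul_of_nonneg_right (le_abs_self _) (XX_nonneg h h0 ω)
        _ ≤ |t| * ∑' i, h i := mul_le_mul_of_nonneg_left (XX_le h h0 hs ω) (abs_nonneg _)
  have e : KK b h = fun s => complexMGF (XX h) (PP b h) (-s) := rfl
  rw [e]
  intro s
  have h1 : HasDerivAt (complexMGF (XX h) (PP b h)) _ (-s) :=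
    hasDerivAt_complexMGF (by rw [hint]; simp)
  exact h1.differentiableAt.comp s (differentiableAt_id.neg)

theorem KK_norm (b h : ι → ℝ) (h0 : ∀ i, 0 ≤ h i) (s : ℂ) (hs : 0 ≤ s.re) : ‖KK b h s‖ ≤ 1 := by
  have : ‖KK b h s‖ ≤ ∫ ω, (1:ℝ) ∂(PP b h) := by
    refine norm_integral_le_of_norm_le (integrable_const _) (ae_of_all _ fun ω => ?_)
    rw [Complex.norm_exp]
    have : (-s * (XX h ω : ℂ)).re = - (s.re * XX h ω) := by simp
    rw [this]
    exact Real.exp_le_one_iff.2 (neg_nonpos.2 (mul_nonneg hs (XX_nonneg h h0 ω)))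
  simpa using this

theorem KK_order [Countable ι] (b h : ι → ℝ) (h0 : ∀ i, 0 ≤ h i) (hs : Summable h) (ρ : ℂ)
    (F : Finset ι) (hF : ∀ i ∈ F, EE (b i) (h i) ρ = 0) :
    (F.card : ℕ∞) ≤ analyticOrderAt (KK b h) ρ := by
  classical
  have an1 : ∀ G : Finset ι, AnalyticAt ℂ (fun s => ∏ i ∈ G, EE (b i) (h i) s) ρ := by
    intro G
    refine Differentiable.analyticAt ?_ ρ
    have := fun i => EE_diff (b i) (h i)
    fun_prop
  have h0' : ∀ i, 0 ≤ (fun i => if i ∈ F then 0 else h i) i := by
    intro i; simp only; split_ifs; exacts [le_rfl, h0 i]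
  have hs' : Summable (fun i => if i ∈ F then 0 else h i) := by
    refine Summable.of_nonneg_of_le h0' (fun i => ?_) hs
    split_ifs; exacts [h0 i, le_rfl]
  have an2 : AnalyticAt ℂ (KK b (fun i => if i ∈ F then 0 else h i)) ρ :=
    (KK_diff b _ h0' hs').analyticAt ρ
  have e : KK b h = (fun s => ∏ i ∈ F, EE (b i) (h i) s) * KK b (fun i => if i ∈ F then 0 else h i) := by
    funext s
    exact KK_split b h h0 hs F s
  rw [e, analyticOrderAt_mul (an1 F) an2]
  refine le_add_right ?_
  clear e an2 hs' h0'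
  induction F using Finset.induction_on with
  | empty => simp
  | insert a G ha ih =>
    have e2 : (fun s => ∏ i ∈ insert a G, EE (b i) (h i) s) =
        (EE (b a) (h a)) * (fun s => ∏ i ∈ G, EE (b i) (h i) s) := by
      funext s
      rw [Finset.prod_insert ha]
      rfl
    rw [e2, analyticOrderAt_mul ((EE_diff _ _).analyticAt ρ) (an1 G), Finset.card_insert_of_notMem ha]
    push_cast
    rw [add_comm]
    refine add_le_add ?_ (ih fun i hi => hF i (Finset.mem_insert_of_mem hi))
    have : analyticOrderAt (EE (b a) (h a)) ρ ≠ 0 := by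
      rw [((EE_diff _ _).analyticAt ρ).analyticOrderAt_ne_zero]
      exact hF a (Finset.mem_insert_self a G)
    exact Order.one_le_iff_ne_zero.2 this

end

end H353
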