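import Pool.Agent.H19.EW.L.H353R2_K1
import Pool.Agent.H19.EW.L.H353R2_K3

open Complex MeasureTheory ProbabilityTheory Filter Topology Set
open scoped ContDiff FourierTransform

set_option linter.unusedSectionVars false

namespace H353

noncomputable section

/-- the vertical line with real part `c` -/
def ln (c ξ : ℝ) : ℂ := (c : ℂ) + ((2 * Real.pi * ξ : ℝ) : ℂ) * I

theorem ln_re (c ξ : ℝ) : (ln c ξ).re = c := by simp [ln]
theorem ln_im (c ξ : ℝ) : (ln c ξ).im = 2 * Real.pi * ξ := by simp [ln]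

theorem ln_cont (c : ℝ) : Continuous (ln c) := by unfold ln; fun_prop

theorem ln_ne (c ξ : ℝ) (hc : 0 < c) : ln c ξ ≠ 0 := by
  intro h
  have := congrArg Complex.re h
  rw [ln_re] at this
  simp at this
  linarith

theorem ln_normSq (c ξ : ℝ) : ‖ln c ξ‖ ^ 2 = c ^ 2 + (2 * Real.pi * ξ) ^ 2 := by
  rw [Complex.sq_norm, Complex.normSq_apply, ln_re, ln_im]
  ring

theorem ln_lower (c ξ : ℝ) : (min (c ^ 2) 1) * (1 + ξ ^ 2) ≤ ‖ln c ξ‖ ^ 2 := by
  rw [ln_normSq]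
  have h1 := min_le_left (c ^ 2) 1
  have h2 := min_le_right (c ^ 2) 1
  have h3 : 0 ≤ min (c ^ 2) 1 := le_min (sq_nonneg c) zero_le_one
  have hpi : 1 ≤ (2 * Real.pi) ^ 2 := by nlinarith [Real.pi_gt_three]
  have : ξ ^ 2 ≤ (2 * Real.pi * ξ) ^ 2 := by nlinarith [sq_nonneg ξ]
  nlinarith [sq_nonneg ξ]

/-- Laplace transform of the smooth step -/
def GG (ε : ℝ) (s : ℂ) : ℂ := DD (deriv (Ph ε)) s / s

theorem GG_decay (ε : ℝ) (hε : 0 < ε) (k : ℕ) : ∃ C : ℝ, 0 < C ∧ ∀ s : ℂ, 0 < s.re →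
    ‖s‖ ^ (k + 1) * ‖GG ε s‖ ≤ C := by
  obtain ⟨C, hC, hb⟩ := TF.decay k (Ph_TF ε hε)
  refine ⟨C, hC, fun s hs => ?_⟩
  have hs0 : s ≠ 0 := by rintro rfl; simp at hs
  have hn : 0 < ‖s‖ := norm_pos_iff.2 hs0
  unfold GG
  rw [norm_div]
  calc ‖s‖ ^ (k + 1) * (‖DD (deriv (Ph ε)) s‖ / ‖s‖) = ‖s‖ ^ k * ‖DD (deriv (Ph ε)) s‖ := by
        rw [pow_succ]
        field_simp
    _ ≤ C := hb s hs.le

theorem GG_diffAt (ε : ℝ) (hε : 0 < ε) (s : ℂ) (hs : s ≠ 0) : DifferentiableAt ℂ (GG ε) s := by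
  unfold GG
  exact ((Ph_TF ε hε).diff s).div differentiableAt_id hs

theorem GG_line_cont (ε : ℝ) (hε : 0 < ε) (c : ℝ) (hc : 0 < c) : Continuous (fun ξ => GG ε (ln c ξ)) := by
  rw [continuous_iff_continuousAt]
  intro ξ
  exact ContinuousAt.comp (f := ln c) (g := GG ε) (GG_diffAt ε hε _ (ln_ne c ξ hc)).continuousAt
    (ln_cont c).continuousAt

theorem GG_line_le (ε : ℝ) (hε : 0 < ε) (c : ℝ) (hc : 0 < c) : ∃ C : ℝ, 0 < C ∧ ∀ ξ : ℝ,
    ‖GG ε (ln c ξ)‖ ≤ C * (1 + ξ ^ 2)⁻¹ := by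
  obtain ⟨C, hC, hb⟩ := GG_decay ε hε 1
  have hm : 0 < min (c ^ 2) 1 := lt_min (by positivity) one_pos
  refine ⟨C / min (c ^ 2) 1, by positivity, fun ξ => ?_⟩
  have h1 := hb (ln c ξ) (by rw [ln_re]; exact hc)
  have h2 := ln_lower c ξ
  norm_num at h1
  have h3 : (min (c ^ 2) 1) * (1 + ξ ^ 2) * ‖GG ε (ln c ξ)‖ ≤ C :=
    (mul_le_mul_of_nonneg_right h2 (norm_nonneg _)).trans h1
  have h4 : 0 < 1 + ξ ^ 2 := by positivity
  rw [← div_eq_mul_inv, le_div_iff₀ h4, le_div_iff₀ hm]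
  linarith

theorem GG_int (ε : ℝ) (hε : 0 < ε) (c : ℝ) (hc : 0 < c) :
    Integrable (fun ξ => GG ε (ln c ξ)) := by
  obtain ⟨C, hC, hb⟩ := GG_line_le ε hε c hc
  exact (integrable_inv_one_add_sq.const_mul C).mono' (GG_line_cont ε hε c hc).aestronglyMeasurable
    (ae_of_all _ hb)

theorem Ph_inv (ε : ℝ) (hε : 0 < ε) (t : ℝ) :
    ∫ ξ : ℝ, GG ε (ln 2 ξ) * cexp (ln 2 ξ * t) = (Ph ε t : ℂ) := by
  set f : ℝ → ℂ := fun t => (Ph ε t : ℂ) * cexp (-2 * t) with hf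
  have hfc : Continuous f := by
    have := (Ph_smooth ε).continuous
    rw [hf]; fun_prop
  have hfi : Integrable f := by
    have := Ph_exp_integrable ε hε 2 (by norm_num)
    exact this
  have hF : 𝓕 f = fun ξ => GG ε (ln 2 ξ) := by
    funext ξ
    rw [Real.fourier_real_eq_integral_exp_smul]
    unfold GG
    rw [← Ph_laplace ε hε _ (by rw [ln_re]; norm_num)]
    refine integral_congr_ae (ae_of_all _ fun v => ?_)
    simp only [hf, smul_eq_mul, ln]
    rw [mul_left_comm, ← Complex.exp_add]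
    congr 2
    push_cast
    ring
  have h1 : 𝓕⁻ (𝓕 f) = f := Continuous.fourierInv_fourier_eq hfc hfi (by
    rw [hF]; exact GG_int ε hε 2 (by norm_num))
  have h2 := congrFun h1 t
  rw [hF, Real.fourierInv_eq'] at h2
  have h3 : (∫ ξ : ℝ, GG ε (ln 2 ξ) * cexp (ln 2 ξ * t)) = (∫ v : ℝ, cexp (((2 * Real.pi * inner ℝ v t : ℝ) : ℂ) * I) • GG ε (ln 2 v)) *
      cexp (2 * t) := by
    rw [← integral_mul_const]
    refine integral_congr_ae (ae_of_all _ fun v => ?_)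
    simp only [smul_eq_mul, ln]
    have e : cexp (((2 : ℝ) + ((2 * Real.pi * v : ℝ) : ℂ) * I) * t) =
        cexp (((2 * Real.pi * inner ℝ v t : ℝ) : ℂ) * I) * cexp (2 * t) := by
      rw [← Complex.exp_add]
      congr 1
      simp
      ring
    rw [e]
    ring
  rw [h3, h2]
  simp only [hf]
  rw [mul_assoc, ← Complex.exp_add]
  have : (-2 * (t:ℂ) + 2 * t) = 0 := by ring
  rw [this]
  simp

section avg

variable {ι : Type*} [Countable ι] (b h : ι → ℝ) (h0 : ∀ i, 0 ≤ h i) (hs : Summable h)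

/-- average of translates -/
def Av (b h : ι → ℝ) (f : ℝ → ℝ) (t : ℝ) : ℝ := ∫ w, f (t - XX h w) ∂(PP b h)

include h0 hs in
theorem Av_int (f : ℝ → ℝ) (hf : Continuous f) (C : ℝ) (hC : ∀ t, |f t| ≤ C) (t : ℝ) :
    Integrable (fun w => f (t - XX h w)) (PP b h) := by
  refine (integrable_const C).mono' ?_ (ae_of_all _ fun w => hC _)
  have := XX_meas h h0 hs
  exact (hf.measurable.comp (measurable_const.sub this)).aestronglyMeasurable

include h0 hs in
theorem Av_deriv (f : ℝ → ℝ) (hf : ContDiff ℝ ∞ f) (C C' : ℝ) (hC : ∀ t, |f t| ≤ C)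
    (hC' : ∀ t, |deriv f t| ≤ C') (t : ℝ) : HasDerivAt (Av b h f) (Av b h (deriv f) t) t := by
  have hc' : Continuous (deriv f) := (contDiff_infty_iff_deriv.1 hf).2.continuous
  have key := hasDerivAt_integral_of_dominated_loc_of_deriv_le (μ := PP b h)
    (F := fun (t : ℝ) w => f (t - XX h w)) (F' := fun (t : ℝ) w => deriv f (t - XX h w)) (x₀ := t)
    (s := Set.univ) (bound := fun _ => C') univ_mem ?_ ?_ ?_ ?_ ?_ ?_
  · exact key.2
  · exact Eventually.of_forall fun x => (Av_int b h h0 hs f hf.continuous C hC x).aestronglyMeasurable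
  · exact Av_int b h h0 hs f hf.continuous C hC t
  · exact (Av_int b h h0 hs (deriv f) hc' C' hC' t).aestronglyMeasurable
  · exact ae_of_all _ fun w x _ => hC' _
  · exact integrable_const _
  · refine ae_of_all _ fun w x _ => ?_
    have h1 : HasDerivAt f (deriv f (x - XX h w)) (x - XX h w) :=
      ((contDiff_infty_iff_deriv.1 hf).1 _).hasDerivAt
    exact h1.comp_sub_const x (XX h w)

theorem TF_bdd {ε : ℝ} {f : ℝ → ℝ} (h : TF ε f) : ∃ C, ∀ t, |f t| ≤ C :=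
  h.smooth.continuous.bounded_above_of_compact_support h.hcs

include h0 hs in
theorem Av_TF_smooth {ε : ℝ} (n : ℕ) : ∀ {f : ℝ → ℝ}, TF ε f → ContDiff ℝ n (Av b h f) := by
  induction n with
  | zero =>
    intro f hf
    obtain ⟨C, hC⟩ := TF_bdd hf
    obtain ⟨C', hC'⟩ := TF_bdd hf.deriv
    rw [Nat.cast_zero, contDiff_zero]
    exact Differentiable.continuous (𝕜 := ℝ) fun t => (Av_deriv b h h0 hs f hf.smooth C C' hC hC' t).differentiableAt
  | succ n ih =>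
    intro f hf
    obtain ⟨C, hC⟩ := TF_bdd hf
    obtain ⟨C', hC'⟩ := TF_bdd hf.deriv
    have e : deriv (Av b h f) = Av b h (deriv f) := by
      funext t
      exact (Av_deriv b h h0 hs f hf.smooth C C' hC hC' t).deriv
    have := (contDiff_succ_iff_deriv (𝕜 := ℝ) (n := (n : WithTop ℕ∞)) (f := Av b h f)).2
      ⟨fun t => (Av_deriv b h h0 hs f hf.smooth C C' hC hC' t).differentiableAt, by simp, by
        rw [e]; exact ih hf.deriv⟩
    exact_mod_cast this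

include h0 hs in
theorem Av_Ph_smooth (ε : ℝ) (hε : 0 < ε) : ContDiff ℝ ∞ (Av b h (Ph ε)) := by
  rw [contDiff_infty_iff_deriv]
  obtain ⟨C', hC'⟩ := TF_bdd (Ph_TF ε hε)
  have hd : ∀ t, HasDerivAt (Av b h (Ph ε)) (Av b h (deriv (Ph ε)) t) t := fun t =>
    Av_deriv b h h0 hs (Ph ε) (Ph_smooth ε) 1 C'
      (fun t => by rw [abs_of_nonneg (Ph_nonneg _ _)]; exact Ph_le_one _ _) hC' t
  refine ⟨fun t => (hd t).differentiableAt, ?_⟩
  have e : deriv (Av b h (Ph ε)) = Av b h (deriv (Ph ε)) := by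
    funext t
    exact (hd t).deriv
  rw [e, contDiff_infty]
  exact fun n => Av_TF_smooth b h h0 hs n (Ph_TF ε hε)

include h0 hs in
theorem Av_Ph_mono (ε : ℝ) (hε : 0 < ε) : Monotone (Av b h (Ph ε)) := by
  intro s t hst
  have hb : ∀ t, |Ph ε t| ≤ 1 := fun t => by
    rw [abs_of_nonneg (Ph_nonneg _ _)]; exact Ph_le_one _ _
  refine integral_mono (Av_int b h h0 hs _ (Ph_smooth ε).continuous 1 hb s)
    (Av_int b h h0 hs _ (Ph_smooth ε).continuous 1 hb t) fun w => ?_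
  exact Ph_mono ε hε (by linarith)

include h0 in
theorem Av_Ph_zero (ε : ℝ) (hε : 0 < ε) (t : ℝ) (ht : t ≤ 0) : Av b h (Ph ε) t = 0 := by
  unfold Av
  have : ∀ w, Ph ε (t - XX h w) = 0 := fun w =>
    Ph_zero ε hε _ (by linarith [XX_nonneg h h0 w])
  simp [this]

include h0 hs in
theorem Av_Ph_one (ε : ℝ) (hε : 0 < ε) (t : ℝ) (ht : ε + ∑' i, h i ≤ t) : Av b h (Ph ε) t = 1 := by
  unfold Av
  have : ∀ w, Ph ε (t - XX h w) = 1 := fun w =>
    Ph_one ε hε _ (by linarith [XX_le h h0 hs w])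
  simp [this]

theorem Av_Ph_nonneg (ε t : ℝ) : 0 ≤ Av b h (Ph ε) t :=
  integral_nonneg fun _ => Ph_nonneg _ _

include h0 hs in
theorem Av_Ph_inv (ε : ℝ) (hε : 0 < ε) (t : ℝ) :
    ∫ ξ : ℝ, GG ε (ln 2 ξ) * KK b h (ln 2 ξ) * cexp (ln 2 ξ * t) = (Av b h (Ph ε) t : ℂ) := by
  have hXm := XX_meas h h0 hs
  have hG := GG_int ε hε 2 (by norm_num)
  have hGc := GG_line_cont ε hε 2 (by norm_num)
  have e1 : (Av b h (Ph ε) t : ℂ) =
      ∫ w, (∫ ξ : ℝ, GG ε (ln 2 ξ) * cexp (ln 2 ξ * ((t - XX h w : ℝ) : ℂ))) ∂(PP b h) := by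
    unfold Av
    rw [← integral_complex_ofReal]
    refine integral_congr_ae (ae_of_all _ fun w => ?_)
    exact (Ph_inv ε hε _).symm
  rw [e1, integral_integral_swap]
  · refine integral_congr_ae (ae_of_all _ fun ξ => ?_)
    simp only
    unfold KK
    rw [mul_assoc, mul_comm (∫ w, _ ∂_), ← integral_const_mul, ← integral_const_mul]
    refine integral_congr_ae (ae_of_all _ fun w => ?_)
    simp only
    rw [← Complex.exp_add]
    congr 2
    push_cast
    ring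
  · have hdom : Integrable (fun p : (ι → Bool) × ℝ => ‖GG ε (ln 2 p.2)‖ * Real.exp (2 * t)) ((PP b h).prod volume) := by
      have := (hG.norm.mul_const (Real.exp (2 * t))).comp_snd (PP b h)
      exact this
    refine hdom.mono' ?_ (ae_of_all _ fun p => ?_)
    · refine Measurable.aestronglyMeasurable ?_
      have m1 : Measurable (fun p : (ι → Bool) × ℝ => GG ε (ln 2 p.2)) := hGc.measurable.comp measurable_snd
      have m2 : Measurable (fun p : (ι → Bool) × ℝ => ln 2 p.2) := (ln_cont 2).measurable.comp measurable_snd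
      have m3 : Measurable (fun p : (ι → Bool) × ℝ => XX h p.1) := hXm.comp measurable_fst
      show Measurable (fun p : (ι → Bool) × ℝ => GG ε (ln 2 p.2) * cexp (ln 2 p.2 * ((t - XX h p.1 : ℝ) : ℂ)))
      fun_prop
    · show ‖GG ε (ln 2 p.2) * cexp (ln 2 p.2 * ((t - XX h p.1 : ℝ) : ℂ))‖ ≤ _
      rw [norm_mul]
      refine mul_le_mul_of_nonneg_left ?_ (norm_nonneg _)
      rw [Complex.norm_exp, Complex.re_mul_ofReal, ln_re]
      refine Real.exp_le_exp.2 ?_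
      linarith [XX_nonneg h h0 p.1]

end avg

end

end H353
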