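import Pool.Agent.H19.EW.L.H353R2_An2
import Pool.Agent.H19.EW.ZUA1
import Pool.Agent.H19.EW.ZUG2b

open Complex Filter Topology Set Metric MeasureTheory

namespace H353

/-- the entire function `(v-1) ζ(v)` -/
noncomputable abbrev FF : ℂ → ℂ := ZU.J_g2b.FF

theorem frac_int_le (s : ℂ) (hs : 0 < s.re) :
    ‖∫ u in Ioi (1 : ℝ), ((Int.fract u : ℝ) : ℂ) * (u : ℂ) ^ (-s - 1)‖ ≤ 1 / s.re := by
  have h1 : ∫ u in Ioi (1 : ℝ), (u : ℝ) ^ (-s.re - 1) = 1 / s.re := by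
    rw [integral_Ioi_rpow_of_lt (by linarith) one_pos]
    rw [Real.one_rpow]
    have : -s.re - 1 + 1 = -s.re := by ring
    rw [this]
    field_simp
  have h2 : IntegrableOn (fun u : ℝ => (u : ℝ) ^ (-s.re - 1)) (Ioi 1) :=
    integrableOn_Ioi_rpow_of_lt (by linarith) one_pos
  rw [← h1]
  refine norm_integral_le_of_norm_le h2 ?_
  refine (ae_restrict_mem measurableSet_Ioi).mono fun u hu => ?_
  have hu0 : (0:ℝ) < u := lt_trans one_pos hu
  rw [norm_mul, norm_real, Real.norm_eq_abs, abs_of_nonneg (Int.fract_nonneg u),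
    Complex.norm_cpow_eq_rpow_re_of_pos hu0]
  simp only [sub_re, neg_re, one_re]
  calc _ ≤ 1 * u ^ (-s.re - 1) := by
        gcongr
        exact (Int.fract_lt_one u).le
    _ = _ := one_mul _

theorem FF_eq (v : ℂ) (hv : 0 < v.re) (hv1 : v ≠ 1) : FF v = v - (v - 1) * v *
    ∫ u in Ioi (1 : ℝ), ((Int.fract u : ℝ) : ℂ) * (u : ℂ) ^ (-v - 1) := by
  rw [show FF v = (v - 1) * riemannZeta v from ZU.J_g2b.FF_ne hv1, ZU.J_a1.zf_one v hv hv1]
  have : v - 1 ≠ 0 := sub_ne_zero.2 hv1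
  field_simp
  ring

theorem FF_bound (σ0 : ℝ) (h0 : 0 < σ0) (v : ℂ) (hv : σ0 ≤ v.re) :
    ‖FF v‖ ≤ (1 + 1 / σ0) * (1 + ‖v‖) ^ 2 := by
  have hn := norm_nonneg v
  have hc : 0 < 1 / σ0 := by positivity
  by_cases hv1 : v = 1
  · rw [hv1]
    have : FF 1 = 1 := ZU.J_g2b.FF_one
    rw [this]
    simp only [norm_one]
    nlinarith
  · rw [FF_eq v (by linarith) hv1]
    have h1 := frac_int_le v (by linarith)
    have h2 : 1 / v.re ≤ 1 / σ0 := one_div_le_one_div_of_le h0 hv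
    have h3 : ‖v - 1‖ ≤ ‖v‖ + 1 := by
      have := norm_sub_le v 1
      simpa using this
    calc ‖v - (v - 1) * v * ∫ u in Ioi (1 : ℝ), ((Int.fract u : ℝ) : ℂ) * (u : ℂ) ^ (-v - 1)‖
        ≤ ‖v‖ + ‖(v - 1) * v * ∫ u in Ioi (1 : ℝ), ((Int.fract u : ℝ) : ℂ) * (u : ℂ) ^ (-v - 1)‖ :=
          norm_sub_le _ _
      _ = ‖v‖ + ‖v - 1‖ * ‖v‖ * ‖∫ u in Ioi (1 : ℝ), ((Int.fract u : ℝ) : ℂ) * (u : ℂ) ^ (-v - 1)‖ := by
          rw [norm_mul, norm_mul]
      _ ≤ ‖v‖ + (‖v‖ + 1) * ‖v‖ * (1 / σ0) := by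
          have := h1.trans h2
          gcongr
      _ ≤ (1 + 1 / σ0) * (1 + ‖v‖) ^ 2 := by nlinarith [mul_nonneg hn hc.le, mul_nonneg (mul_nonneg hn hn) hc.le]

theorem zeta_lower (v : ℂ) (hv : 2 ≤ v.re) : 1 / 2 ≤ ‖riemannZeta v‖ := by
  have h1 : 1 < v.re := by linarith
  have h2 := ArithmeticFunction.LSeries_zeta_mul_Lseries_moebius h1
  rw [ArithmeticFunction.LSeries_zeta_eq_riemannZeta h1] at h2
  have hs2 : HasSum (fun n : ℕ => 1 / (n : ℝ) ^ 2) (Real.pi ^ 2 / 6) := hasSum_zeta_two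
  have h3 : ‖LSeries (fun n => ((ArithmeticFunction.moebius n : ℤ) : ℂ)) v‖ ≤ Real.pi ^ 2 / 6 := by
    rw [← hs2.tsum_eq]
    refine tsum_of_norm_bounded hs2.summable.hasSum ?_
    intro n
    by_cases hn : n = 0
    · simp [hn]
    · rw [LSeries.norm_term_eq, if_neg hn]
      have hn1 : (1:ℝ) ≤ n := by exact_mod_cast Nat.one_le_iff_ne_zero.2 hn
      have e1 : ‖((ArithmeticFunction.moebius n : ℤ) : ℂ)‖ ≤ 1 := by
        rw [Complex.norm_intCast]
        exact_mod_cast ArithmeticFunction.abs_moebius_le_one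
      have e2 : (n:ℝ) ^ (2:ℝ) ≤ (n:ℝ) ^ v.re := Real.rpow_le_rpow_of_exponent_le hn1 hv
      rw [Real.rpow_two] at e2
      have e3 : (0:ℝ) < (n:ℝ) ^ 2 := by positivity
      exact div_le_div₀ zero_le_one e1 e3 e2
  have h4 : Real.pi ^ 2 / 6 ≤ 2 := by
    have := Real.pi_lt_d2
    have := Real.pi_pos
    nlinarith
  have h5 : 1 = ‖riemannZeta v‖ *
      ‖LSeries (fun n => ((ArithmeticFunction.moebius n : ℤ) : ℂ)) v‖ := by
    rw [← norm_mul, h2, norm_one]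
  have h6 : 0 ≤ ‖riemannZeta v‖ := norm_nonneg _
  nlinarith [norm_nonneg (LSeries (fun n => ((ArithmeticFunction.moebius n : ℤ) : ℂ)) v)]

theorem FF_lower (v : ℂ) (hv : 2 ≤ v.re) : 1 / 2 ≤ ‖FF v‖ := by
  have hv1 : v ≠ 1 := by
    rintro rfl
    norm_num at hv
  rw [show FF v = _ from ZU.J_g2b.FF_ne hv1, norm_mul]
  have h1 := zeta_lower v hv
  have h2 : 1 ≤ ‖v - 1‖ := by
    have := Complex.abs_re_le_norm (v - 1)
    rw [Complex.sub_re, Complex.one_re, abs_of_nonneg (by linarith)] at this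
    linarith
  nlinarith

/-- no real zeros -/
theorem FF_real_ne (σ : ℝ) (hσ : 0 < σ) : FF (σ : ℂ) ≠ 0 := by
  intro h0
  have hlt : σ < 1 := by
    have := ZU.J_g2b.FF_zero_re h0
    rwa [Complex.ofReal_re] at this
  have hne : (σ : ℂ) ≠ 1 := by
    intro h
    have : σ = 1 := by exact_mod_cast h
    linarith
  rw [FF_eq (σ : ℂ) (by rwa [Complex.ofReal_re]) hne] at h0
  have hJ : ∫ u in Ioi (1 : ℝ), ((Int.fract u : ℝ) : ℂ) * (u : ℂ) ^ (-(σ : ℂ) - 1) =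
      ((∫ u in Ioi (1 : ℝ), Int.fract u * u ^ (-σ - 1) : ℝ) : ℂ) := by
    rw [← integral_complex_ofReal]
    refine setIntegral_congr_fun measurableSet_Ioi fun u hu => ?_
    have hu0 : (0:ℝ) < u := lt_trans one_pos hu
    rw [Complex.ofReal_mul, Complex.ofReal_cpow hu0.le]
    push_cast
    rfl
  rw [hJ] at h0
  have hJ0 : 0 ≤ ∫ u in Ioi (1 : ℝ), Int.fract u * u ^ (-σ - 1) := by
    refine setIntegral_nonneg measurableSet_Ioi fun u hu => ?_
    have hu0 : (0:ℝ) < u := lt_trans one_pos hu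
    have := Int.fract_nonneg u
    positivity
  have h1 : ((σ - (σ - 1) * σ * (∫ u in Ioi (1 : ℝ), Int.fract u * u ^ (-σ - 1)) : ℝ) : ℂ) = 0 := by
    push_cast
    push_cast at h0
    exact h0
  have h2 : σ - (σ - 1) * σ * (∫ u in Ioi (1 : ℝ), Int.fract u * u ^ (-σ - 1)) = 0 := by
    exact_mod_cast h1
  have h3 : 0 ≤ (1 - σ) * σ * (∫ u in Ioi (1 : ℝ), Int.fract u * u ^ (-σ - 1)) := by
    have : 0 ≤ 1 - σ := by linarith
    positivity
  nlinarith

theorem FF_im_ne (ρ : ℂ) (hρ : FF ρ = 0) (hre : 0 < ρ.re) : ρ.im ≠ 0 := by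
  intro h
  have : ρ = (ρ.re : ℂ) := by
    apply Complex.ext <;> simp [h]
  rw [this] at hρ
  exact FF_real_ne ρ.re hre hρ

theorem FF_anal (ρ : ℂ) : AnalyticAt ℂ FF ρ := ZU.J_g2b.FF_diff.analyticAt ρ

theorem FF_order_ne_top (ρ : ℂ) : analyticOrderAt FF ρ ≠ ⊤ := by
  intro h
  have hFan : AnalyticOnNhd ℂ FF univ := fun z _ => FF_anal z
  have := hFan.eqOn_zero_of_preconnected_of_eventuallyEq_zero isPreconnected_univ (mem_univ ρ)
    (analyticOrderAt_eq_top.1 h)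
  have h1 := this (mem_univ 1)
  rw [show FF 1 = 1 from ZU.J_g2b.FF_one] at h1
  exact one_ne_zero h1

/-- multiplicity -/
noncomputable def mu (ρ : ℂ) : ℕ := analyticOrderNatAt FF ρ

theorem mu_cast (ρ : ℂ) : (mu ρ : ℕ∞) = analyticOrderAt FF ρ := by
  unfold mu analyticOrderNatAt
  exact ENat.natCast_toNat (FF_order_ne_top ρ)

theorem mu_pos (ρ : ℂ) (h : FF ρ = 0) : 1 ≤ mu ρ := by
  rw [Nat.one_le_iff_ne_zero]
  intro h0
  have h1 := mu_cast ρ
  rw [h0] at h1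
  have h2 : analyticOrderAt FF ρ = 0 := by rw [← h1]; rfl
  exact ((FF_anal ρ).analyticOrderAt_eq_zero.1 h2) h

/-- finitely many zeros in a compact set -/
theorem zeros_finite (K : Set ℂ) (hK : IsCompact K) : {ρ : ℂ | FF ρ = 0 ∧ ρ ∈ K}.Finite := by
  by_contra hinf
  have hinf' : {v : ℂ | FF v = 0 ∧ v ∈ K}.Infinite := hinf
  obtain ⟨x, _, hx⟩ := hinf'.exists_accPt_of_subset_isCompact hK (fun v hv => hv.2)
  rw [accPt_iff_frequently_nhdsNE] at hx
  have hFan : AnalyticOnNhd ℂ FF univ := fun z _ => FF_anal z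
  have := hFan.eqOn_zero_of_preconnected_of_frequently_eq_zero isPreconnected_univ (mem_univ x)
    (hx.mono (fun y hy => hy.1))
  have h1 := this (mem_univ 1)
  rw [show FF 1 = 1 from ZU.J_g2b.FF_one] at h1
  exact one_ne_zero h1

/-- local count of zeros with multiplicity -/
theorem local_count (t : ℝ) (S : Finset ℂ) (hS : ∀ ρ ∈ S, FF ρ = 0 ∧ 1 / 2 ≤ ρ.re ∧ |ρ.im - t| ≤ 1) :
    ((∑ ρ ∈ S, mu ρ : ℕ) : ℝ) ≤ 60 * Real.log (22 * (5 + |t|) ^ 2) := by
  set c : ℂ := 2 + t * I with hc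
  have hcre : c.re = 2 := by simp [hc]
  have hcim : c.im = t := by simp [hc]
  have hSb : ∀ ρ ∈ S, ρ ∈ closedBall c (1.81:ℝ) := by
    intro ρ hρ
    obtain ⟨h1, h2, h3⟩ := hS ρ hρ
    have h4 := ZU.J_g2b.FF_zero_re h1
    rw [mem_closedBall, Complex.dist_eq_re_im, hcre, hcim]
    apply Real.sqrt_le_iff.2
    refine ⟨by norm_num, ?_⟩
    have h5 : (ρ.im - t) ^ 2 ≤ 1 := by
      rw [← sq_abs]
      have := abs_nonneg (ρ.im - t)
      nlinarith
    nlinarith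
  have hM : ∀ v ∈ sphere c (1.9:ℝ), ‖FF v‖ ≤ 11 * (5 + |t|) ^ 2 := by
    intro v hv
    rw [mem_sphere, dist_eq_norm] at hv
    have h1 := Complex.abs_re_le_norm (v - c)
    rw [hv, Complex.sub_re, hcre, abs_le] at h1
    have h2 := FF_bound 0.1 (by norm_num) v (by linarith)
    refine h2.trans ?_
    have h3 : ‖v‖ ≤ 4 + |t| := by
      have e1 : ‖v‖ ≤ ‖v - c‖ + ‖c‖ := by
        have := norm_add_le (v - c) c
        simpa using this
      have e2 : ‖c‖ ≤ 2 + |t| := by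
        rw [hc]
        refine (norm_add_le _ _).trans ?_
        simp
      linarith
    have h4 : (1 + 1 / (0.1:ℝ)) = 11 := by norm_num
    rw [h4]
    have := norm_nonneg v
    have h5 : (1 + ‖v‖) ^ 2 ≤ (5 + |t|) ^ 2 := pow_le_pow_left₀ (by positivity) (by linarith) 2
    linarith
  have h := count_bound univ isOpen_univ FF ZU.J_g2b.FF_diff.differentiableOn c 1.81 1.9 _
    (by norm_num) (by norm_num) (subset_univ _) hM S mu hSb (fun ρ _ => (mu_cast ρ).le)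
  have hl := FF_lower c (by rw [hcre])
  set N := ∑ ρ ∈ S, mu ρ with hN
  have hpow : ((1.9:ℝ) / 1.81) ^ N ≤ 22 * (5 + |t|) ^ 2 := by
    have hp : 0 < ((1.9:ℝ) / 1.81) ^ N := by positivity
    nlinarith
  have hlog := Real.log_le_log (by positivity) hpow
  rw [Real.log_pow] at hlog
  have hb : 1 / 60 ≤ Real.log ((1.9:ℝ) / 1.81) := by
    have := Real.one_sub_inv_le_log_of_pos (show (0:ℝ) < 1.9 / 1.81 by norm_num)
    refine le_trans ?_ this
    norm_num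
  have hN0 : (0:ℝ) ≤ N := Nat.cast_nonneg N
  nlinarith

end H353
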