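import Pool.Agent.H19.EW.ZUDefs

open Complex Filter Topology Set MeasureTheory

namespace ZU.J_a2















lemma plx_gaussK (T : ℝ) (hT : 0 < T) (x : ℝ) :
    ∫ t : ℝ, ((Real.exp (-(t / T) ^ 2) : ℝ) : ℂ) * cexp (-((t * x : ℝ) : ℂ) * I) =
      ((T * √Real.pi * Real.exp (-(T ^ 2 / 4 * x ^ 2)) : ℝ) : ℂ) := by
  have hb : 0 < (((1 / T ^ 2 : ℝ) : ℂ)).re := by
    rw [Complex.ofReal_re]; positivity
  have h := fourierIntegral_gaussian hb ((-x : ℝ) : ℂ)
  have e1 : ∀ t : ℝ, ((Real.exp (-(t / T) ^ 2) : ℝ) : ℂ) * cexp (-((t * x : ℝ) : ℂ) * I) =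
      cexp (I * ((-x : ℝ) : ℂ) * t) * cexp (-((1 / T ^ 2 : ℝ) : ℂ) * (t : ℂ) ^ 2) := by
    intro t
    rw [Complex.ofReal_exp, mul_comm]
    congr 1
    · congr 1; push_cast; ring
    · congr 1; push_cast; field_simp
  simp_rw [e1]
  rw [h]
  have e2 : ((Real.pi : ℂ) / ((1 / T ^ 2 : ℝ) : ℂ)) ^ (1 / 2 : ℂ) = ((T * √Real.pi : ℝ) : ℂ) := by
    have : ((Real.pi : ℂ) / ((1 / T ^ 2 : ℝ) : ℂ)) = ((Real.pi * T ^ 2 : ℝ) : ℂ) := by
      push_cast; field_simp
    rw [this]
    have h3 : (1 / 2 : ℂ) = ((1 / 2 : ℝ) : ℂ) := by push_cast; rfl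
    rw [h3, ← Complex.ofReal_cpow (by positivity), ← Real.sqrt_eq_rpow, Real.sqrt_mul Real.pi_pos.le,
      Real.sqrt_sq hT.le, mul_comm]
  rw [e2]
  rw [Complex.ofReal_mul (T * √Real.pi), Complex.ofReal_exp]
  congr 2
  push_cast
  field_simp

lemma plx_normexp (r : ℝ) : ‖cexp (-(r : ℂ) * I)‖ = 1 := by
  rw [← Complex.ofReal_neg, Complex.norm_exp_ofReal_mul_I]

lemma plx_intE (T : ℝ) (hT : 0 < T) : Integrable (fun t : ℝ => Real.exp (-(t / T) ^ 2)) := by
  have h := integrable_exp_neg_mul_sq (b := 1 / T ^ 2) (by positivity)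
  refine h.congr (Filter.Eventually.of_forall fun t => ?_)
  show Real.exp _ = Real.exp _
  congr 1
  field_simp

lemma plx_main (G : ℝ → ℝ) (hG : Integrable G) (hG2 : Integrable (fun x => G x ^ 2))
    (T : ℝ) (hT : 0 < T) :
    Integrable (fun t : ℝ => Real.exp (-(t / T) ^ 2) *
      ‖∫ x, (G x : ℂ) * cexp (-((t * x : ℝ) : ℂ) * I)‖ ^ 2) ∧
    ∫ t : ℝ, Real.exp (-(t / T) ^ 2) * ‖∫ x, (G x : ℂ) * cexp (-((t * x : ℝ) : ℂ) * I)‖ ^ 2 ≤
      2 * Real.pi * ∫ x, G x ^ 2 := by
  set F : ℝ → ℂ := fun t => ∫ x, (G x : ℂ) * cexp (-((t * x : ℝ) : ℂ) * I) with hF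
  have hGc : Integrable (fun x => (G x : ℂ)) := hG.ofReal
  have hFc : Continuous F := by
    apply continuous_of_dominated (bound := fun x => |G x|)
    · intro t
      exact hGc.1.mul (Continuous.aestronglyMeasurable (by fun_prop))
    · intro t
      refine Filter.Eventually.of_forall fun x => ?_
      rw [norm_mul, plx_normexp, mul_one, Complex.norm_real, Real.norm_eq_abs]
    · exact hG.abs
    · refine Filter.Eventually.of_forall fun x => ?_
      fun_prop
  have hFb : ∀ t, ‖F t‖ ≤ ∫ x, |G x| := by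
    intro t
    refine (norm_integral_le_integral_norm _).trans (le_of_eq ?_)
    congr 1
    ext x
    rw [norm_mul, plx_normexp, mul_one, Complex.norm_real, Real.norm_eq_abs]
  have hE := plx_intE T hT
  refine ⟨?_, ?_⟩
  · refine Integrable.mono' (hE.mul_const ((∫ x, |G x|) ^ 2)) ?_ ?_
    · exact ((by fun_prop : Continuous fun t : ℝ => Real.exp (-(t / T) ^ 2)).mul
        (hFc.norm.pow 2)).aestronglyMeasurable
    · refine Filter.Eventually.of_forall fun t => ?_
      rw [Real.norm_eq_abs, abs_of_nonneg (by positivity)]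
      have := hFb t
      gcongr
  -- kernel
  set K : ℝ → ℝ := fun x => T * √Real.pi * Real.exp (-(T ^ 2 / 4 * x ^ 2)) with hK
  have hKi : Integrable K := by
    have h := (integrable_exp_neg_mul_sq (b := T ^ 2 / 4) (by positivity)).const_mul (T * √Real.pi)
    refine h.congr (Filter.Eventually.of_forall fun t => ?_)
    simp only [hK, neg_mul]
  have hKint : ∫ x, K x = 2 * Real.pi := by
    have h := integral_gaussian (T ^ 2 / 4)
    have : (fun x => K x) = fun x => (T * √Real.pi) * Real.exp (-(T ^ 2 / 4) * x ^ 2) := by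
      ext x; simp only [hK, neg_mul]
    rw [this, integral_const_mul, h, Real.sqrt_div Real.pi_pos.le,
      show T ^ 2 / 4 = (T / 2) ^ 2 by ring, Real.sqrt_sq (by positivity)]
    have := Real.mul_self_sqrt Real.pi_pos.le
    field_simp
    nlinarith [this]
  have hKpos : ∀ x, 0 ≤ K x := fun x => by simp only [hK]; positivity
  have hKeven : ∀ x, K (-x) = K x := fun x => by simp only [hK, neg_sq]
  have hKle : ∀ x, K x ≤ T * √Real.pi := fun x => by
    simp only [hK]
    have h1 : Real.exp (-(T ^ 2 / 4 * x ^ 2)) ≤ 1 := by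
      rw [Real.exp_le_one_iff]
      have : 0 ≤ T ^ 2 / 4 * x ^ 2 := by positivity
      linarith
    calc T * √Real.pi * Real.exp (-(T ^ 2 / 4 * x ^ 2)) ≤ T * √Real.pi * 1 := by gcongr
      _ = _ := mul_one _
  have hKcont : Continuous K := by simp only [hK]; fun_prop
  -- key identity for ‖F t‖²
  have key : ∀ t : ℝ, ((‖F t‖ ^ 2 : ℝ) : ℂ) = ∫ z : ℝ × ℝ, (G z.1 : ℂ) * (G z.2 : ℂ) *
      cexp (-((t * (z.1 - z.2) : ℝ) : ℂ) * I) ∂((volume : Measure ℝ).prod volume) := by
    intro t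
    have h1 : ((‖F t‖ ^ 2 : ℝ) : ℂ) = F t * (starRingEnd ℂ) (F t) := by
      rw [Complex.mul_conj']; push_cast; rfl
    rw [h1]
    have h2 : (starRingEnd ℂ) (F t) = ∫ x, (G x : ℂ) * cexp (((t * x : ℝ) : ℂ) * I) := by
      rw [hF]
      simp only
      rw [← integral_conj]
      congr 1
      ext x
      rw [map_mul, Complex.conj_ofReal, ← Complex.exp_conj]
      congr 2
      rw [map_mul, map_neg, Complex.conj_ofReal, Complex.conj_I]
      ring
    rw [h2]
    have h3 := integral_prod_mul (μ := (volume : Measure ℝ)) (ν := (volume : Measure ℝ))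
      (fun x => (G x : ℂ) * cexp (-((t * x : ℝ) : ℂ) * I))
      (fun x => (G x : ℂ) * cexp (((t * x : ℝ) : ℂ) * I))
    rw [hF]
    simp only
    rw [← h3]
    congr 1
    ext z
    have : cexp (-((t * (z.1 - z.2) : ℝ) : ℂ) * I) =
        cexp (-((t * z.1 : ℝ) : ℂ) * I) * cexp (((t * z.2 : ℝ) : ℂ) * I) := by
      rw [← Complex.exp_add]
      congr 1
      push_cast
      ring
    rw [this]
    ring
  have hGG : Integrable (fun z : ℝ × ℝ => (G z.1 : ℂ) * (G z.2 : ℂ))
      ((volume : Measure ℝ).prod volume) := hGc.mul_prod hGc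
  have hEc : Integrable (fun t : ℝ => ((Real.exp (-(t / T) ^ 2) : ℝ) : ℂ)) := hE.ofReal
  have hbig : Integrable (Function.uncurry fun (t : ℝ) (z : ℝ × ℝ) =>
      ((Real.exp (-(t / T) ^ 2) : ℝ) : ℂ) * ((G z.1 : ℂ) * (G z.2 : ℂ) *
      cexp (-((t * (z.1 - z.2) : ℝ) : ℂ) * I)))
      ((volume : Measure ℝ).prod ((volume : Measure ℝ).prod volume)) := by
    have h0 := hEc.mul_prod hGG
    refine Integrable.mono (g := fun p : ℝ × (ℝ × ℝ) =>
      ((Real.exp (-(p.1 / T) ^ 2) : ℝ) : ℂ) * ((G p.2.1 : ℂ) * (G p.2.2 : ℂ))) h0 ?_ ?_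
    · have h1 : (Function.uncurry fun (t : ℝ) (z : ℝ × ℝ) =>
      ((Real.exp (-(t / T) ^ 2) : ℝ) : ℂ) * ((G z.1 : ℂ) * (G z.2 : ℂ) *
      cexp (-((t * (z.1 - z.2) : ℝ) : ℂ) * I))) = fun p : ℝ × (ℝ × ℝ) =>
        (((Real.exp (-(p.1 / T) ^ 2) : ℝ) : ℂ) * ((G p.2.1 : ℂ) * (G p.2.2 : ℂ))) *
          cexp (-((p.1 * (p.2.1 - p.2.2) : ℝ) : ℂ) * I) := by
        ext p
        simp only [Function.uncurry]
        ring
      rw [h1]
      exact h0.1.mul (Continuous.aestronglyMeasurable (by fun_prop))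
    · refine Filter.Eventually.of_forall fun p => ?_
      simp only [Function.uncurry, norm_mul, plx_normexp, mul_one]
      exact le_rfl
  have hid : ((∫ t : ℝ, Real.exp (-(t / T) ^ 2) * ‖F t‖ ^ 2 : ℝ) : ℂ) =
      ((∫ z : ℝ × ℝ, G z.1 * G z.2 * K (z.1 - z.2) ∂((volume : Measure ℝ).prod volume) : ℝ) : ℂ) := by
    rw [← integral_complex_ofReal, ← integral_complex_ofReal]
    calc ∫ t : ℝ, ((Real.exp (-(t / T) ^ 2) * ‖F t‖ ^ 2 : ℝ) : ℂ)
        = ∫ t : ℝ, ∫ z : ℝ × ℝ, ((Real.exp (-(t / T) ^ 2) : ℝ) : ℂ) * ((G z.1 : ℂ) * (G z.2 : ℂ) *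
      cexp (-((t * (z.1 - z.2) : ℝ) : ℂ) * I)) ∂((volume : Measure ℝ).prod volume) := by
          congr 1
          ext t
          rw [Complex.ofReal_mul, key t, integral_const_mul]
      _ = ∫ z : ℝ × ℝ, (∫ t : ℝ, ((Real.exp (-(t / T) ^ 2) : ℝ) : ℂ) * ((G z.1 : ℂ) * (G z.2 : ℂ) *
      cexp (-((t * (z.1 - z.2) : ℝ) : ℂ) * I))) ∂((volume : Measure ℝ).prod volume) :=
          integral_integral_swap hbig
      _ = _ := by
          refine integral_congr_ae (Filter.Eventually.of_forall fun z => ?_)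
          have h5 : ∀ t : ℝ, ((Real.exp (-(t / T) ^ 2) : ℝ) : ℂ) * ((G z.1 : ℂ) * (G z.2 : ℂ) *
      cexp (-((t * (z.1 - z.2) : ℝ) : ℂ) * I)) = ((G z.1 : ℂ) * (G z.2 : ℂ)) *
        (((Real.exp (-(t / T) ^ 2) : ℝ) : ℂ) * cexp (-((t * (z.1 - z.2) : ℝ) : ℂ) * I)) := by
            intro t; ring
          refine (integral_congr_ae (Filter.Eventually.of_forall h5)).trans ?_
          rw [integral_const_mul, plx_gaussK T hT (z.1 - z.2)]
          simp only [hK]
          push_cast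
          ring
  have hid' := Complex.ofReal_injective hid
  rw [hid']
  have I2 : Integrable (fun z : ℝ × ℝ => G z.2 ^ 2 * K (z.1 - z.2))
      ((volume : Measure ℝ).prod volume) := by
    have := hG2.convolution_integrand (ContinuousLinearMap.mul ℝ ℝ) hKi
    simpa using this
  have I1 : Integrable (fun z : ℝ × ℝ => G z.1 ^ 2 * K (z.1 - z.2))
      ((volume : Measure ℝ).prod volume) := by
    have := I2.swap
    refine this.congr (Filter.Eventually.of_forall fun z => ?_)
    show G z.1 ^ 2 * K (z.2 - z.1) = _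
    rw [← hKeven (z.2 - z.1), neg_sub]
  have J2 : ∫ z : ℝ × ℝ, G z.2 ^ 2 * K (z.1 - z.2) ∂((volume : Measure ℝ).prod volume) =
      2 * Real.pi * ∫ x, G x ^ 2 := by
    rw [integral_prod_symm _ I2]
    have : ∀ y : ℝ, ∫ x : ℝ, G y ^ 2 * K (x - y) = G y ^ 2 * (2 * Real.pi) := by
      intro y
      rw [integral_const_mul, integral_sub_right_eq_self K y, hKint]
    simp only [this]
    rw [integral_mul_const, mul_comm]
  have J1 : ∫ z : ℝ × ℝ, G z.1 ^ 2 * K (z.1 - z.2) ∂((volume : Measure ℝ).prod volume) =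
      2 * Real.pi * ∫ x, G x ^ 2 := by
    rw [integral_prod _ I1]
    have : ∀ y : ℝ, ∫ x : ℝ, G y ^ 2 * K (y - x) = G y ^ 2 * (2 * Real.pi) := by
      intro y
      rw [integral_const_mul, integral_sub_left_eq_self K volume y, hKint]
    simp only [this]
    rw [integral_mul_const, mul_comm]
  have I0 : Integrable (fun z : ℝ × ℝ => G z.1 * G z.2 * K (z.1 - z.2))
      ((volume : Measure ℝ).prod volume) := by
    have h1 : Integrable (fun z : ℝ × ℝ => G z.1 * G z.2) ((volume : Measure ℝ).prod volume) :=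
      hG.mul_prod hG
    refine Integrable.mono (h1.mul_const (T * √Real.pi)) ?_ ?_
    · exact h1.1.mul (Continuous.aestronglyMeasurable (by fun_prop))
    · refine Filter.Eventually.of_forall fun z => ?_
      rw [norm_mul, norm_mul _ (T * √Real.pi), Real.norm_eq_abs (K _), abs_of_nonneg (hKpos _),
        Real.norm_eq_abs (T * √Real.pi), abs_of_nonneg (by positivity)]
      have := hKle (z.1 - z.2)
      gcongr
  calc ∫ z : ℝ × ℝ, G z.1 * G z.2 * K (z.1 - z.2) ∂((volume : Measure ℝ).prod volume)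
      ≤ ∫ z : ℝ × ℝ, ((1 / 2) * (G z.1 ^ 2 * K (z.1 - z.2)) + (1 / 2) * (G z.2 ^ 2 * K (z.1 - z.2)))
        ∂((volume : Measure ℝ).prod volume) := by
        refine integral_mono I0 ((I1.const_mul _).add (I2.const_mul _)) fun z => ?_
        have h1 := hKpos (z.1 - z.2)
        have h2 : G z.1 * G z.2 ≤ 1 / 2 * G z.1 ^ 2 + 1 / 2 * G z.2 ^ 2 := by
          nlinarith [sq_nonneg (G z.1 - G z.2)]
        calc G z.1 * G z.2 * K (z.1 - z.2) ≤ (1 / 2 * G z.1 ^ 2 + 1 / 2 * G z.2 ^ 2) * K (z.1 - z.2) := by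
              gcongr
          _ = _ := by ring
    _ = 2 * Real.pi * ∫ x, G x ^ 2 := by
        rw [integral_add (I1.const_mul _) (I2.const_mul _), integral_const_mul, integral_const_mul,
          J1, J2]
        ring

/-- TARGET -/
theorem planch (σ : ℝ) (hσ : 0 < σ) (N : ℕ) (hN : 1 ≤ N) (T : ℝ) (hT : 0 < T) :
    Integrable (fun t : ℝ => Real.exp (-(t / T) ^ 2) *
      ‖∫ u in Ioi (N : ℝ), ((Int.fract u : ℝ) : ℂ) * (u : ℂ) ^ (-((σ : ℂ) + t * I) - 1)‖ ^ 2) ∧
    ∫ t : ℝ, Real.exp (-(t / T) ^ 2) *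
      ‖∫ u in Ioi (N : ℝ), ((Int.fract u : ℝ) : ℂ) * (u : ℂ) ^ (-((σ : ℂ) + t * I) - 1)‖ ^ 2 ≤
      2 * Real.pi * ((N : ℝ) ^ (-(2 * σ)) / (2 * σ)) := by
  have hN0 : (0 : ℝ) < N := by exact_mod_cast hN
  set L : ℝ := Real.log N with hL
  set G : ℝ → ℝ := (Ioi L).indicator (fun x => Int.fract (Real.exp x) * Real.exp (-σ * x)) with hG
  have himg : Real.exp '' Ioi L = Ioi (N : ℝ) := by
    ext u
    simp only [mem_image, mem_Ioi]
    constructor
    · rintro ⟨x, hx, rfl⟩
      calc (N : ℝ) = Real.exp L := (Real.exp_log hN0).symm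
        _ < Real.exp x := Real.exp_lt_exp.mpr hx
    · intro hu
      have hu0 : 0 < u := hN0.trans hu
      exact ⟨Real.log u, Real.log_lt_log hN0 hu, Real.exp_log hu0⟩
  have hmeasG : Measurable G := by
    refine Measurable.indicator ?_ measurableSet_Ioi
    exact (measurable_fract.comp Real.measurable_exp).mul (by fun_prop)
  have hexpI : Integrable ((Ioi L).indicator (fun x => Real.exp (-σ * x))) :=
    (integrable_indicator_iff measurableSet_Ioi).mpr (exp_neg_integrableOn_Ioi L hσ)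
  have hexp2I : Integrable ((Ioi L).indicator (fun x => Real.exp (-(2 * σ) * x))) :=
    (integrable_indicator_iff measurableSet_Ioi).mpr
      (exp_neg_integrableOn_Ioi L (by positivity : (0 : ℝ) < 2 * σ))
  have hGb : ∀ x, 0 ≤ G x ∧ G x ≤ (Ioi L).indicator (fun x => Real.exp (-σ * x)) x := by
    intro x
    simp only [hG, indicator]
    split_ifs with h
    · have h1 := Int.fract_nonneg (Real.exp x)
      have h2 := (Int.fract_lt_one (Real.exp x)).le
      have h3 := Real.exp_pos (-σ * x)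
      constructor
      · positivity
      · nlinarith
    · exact ⟨le_rfl, le_rfl⟩
  have hGi : Integrable G := by
    refine hexpI.mono' hmeasG.aestronglyMeasurable (Filter.Eventually.of_forall fun x => ?_)
    rw [Real.norm_eq_abs, abs_of_nonneg (hGb x).1]
    exact (hGb x).2
  have hG2b : ∀ x, G x ^ 2 ≤ (Ioi L).indicator (fun x => Real.exp (-(2 * σ) * x)) x := by
    intro x
    have h := hGb x
    have h1 : G x ^ 2 ≤ ((Ioi L).indicator (fun x => Real.exp (-σ * x)) x) ^ 2 := by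
      have := h.1
      have := h.2
      gcongr
    refine h1.trans (le_of_eq ?_)
    simp only [indicator]
    split_ifs
    · rw [← Real.exp_nat_mul]
      congr 1
      push_cast
      ring
    · norm_num
  have hG2i : Integrable (fun x => G x ^ 2) := by
    refine hexp2I.mono' (hmeasG.pow_const 2).aestronglyMeasurable
      (Filter.Eventually.of_forall fun x => ?_)
    rw [Real.norm_eq_abs, abs_of_nonneg (sq_nonneg _)]
    exact hG2b x
  have hG2int : ∫ x, G x ^ 2 ≤ (N : ℝ) ^ (-(2 * σ)) / (2 * σ) := by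
    calc ∫ x, G x ^ 2 ≤ ∫ x, (Ioi L).indicator (fun x => Real.exp (-(2 * σ) * x)) x :=
          integral_mono hG2i hexp2I hG2b
      _ = ∫ x in Ioi L, Real.exp (-(2 * σ) * x) := integral_indicator measurableSet_Ioi
      _ = (N : ℝ) ^ (-(2 * σ)) / (2 * σ) := by
          rw [integral_exp_mul_Ioi (by linarith), Real.rpow_def_of_pos hN0, neg_div_neg_eq, hL]
          congr 2
          ring
  have hF : ∀ t : ℝ, ∫ u in Ioi (N : ℝ), ((Int.fract u : ℝ) : ℂ) *
      (u : ℂ) ^ (-((σ : ℂ) + t * I) - 1) = ∫ x, (G x : ℂ) * cexp (-((t * x : ℝ) : ℂ) * I) := by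
    intro t
    rw [← himg, integral_image_eq_integral_abs_deriv_smul measurableSet_Ioi
      (fun x _ => (Real.hasDerivAt_exp x).hasDerivWithinAt) Real.exp_injective.injOn]
    rw [← integral_indicator measurableSet_Ioi]
    congr 1
    ext x
    simp only [hG, indicator]
    split_ifs with h
    · rw [abs_of_pos (Real.exp_pos x), Complex.cpow_def_of_ne_zero
        (by exact_mod_cast (Real.exp_pos x).ne'), ← Complex.ofReal_log (Real.exp_pos x).le,
        Real.log_exp, Complex.real_smul, Complex.ofReal_mul, Complex.ofReal_exp (-σ * x),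
        Complex.ofReal_exp x]
      have : cexp (x : ℂ) * (((Int.fract (Real.exp x) : ℝ) : ℂ) *
          cexp ((x : ℂ) * (-((σ : ℂ) + t * I) - 1))) =
          ((Int.fract (Real.exp x) : ℝ) : ℂ) * (cexp (x : ℂ) *
          cexp ((x : ℂ) * (-((σ : ℂ) + t * I) - 1))) := by ring
      rw [this, ← Complex.exp_add, mul_assoc, ← Complex.exp_add]
      congr 2
      push_cast
      ring
    · simp
  simp only [hF]
  obtain ⟨h1, h2⟩ := plx_main G hGi hG2i T hT
  refine ⟨h1, h2.trans ?_⟩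
  gcongr


end ZU.J_a2

alias ZU.planch := ZU.J_a2.planch
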