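import Pool.Agent.H19.EW.ZUDefs

open Complex Filter Topology Set MeasureTheory

namespace ZU.J_d














theorem sla_mean (g : ℂ → ℂ) (U : Set ℂ) (hU : IsOpen U) (hg : DifferentiableOn ℂ g U) (s : ℂ)
    (x : ℝ) (hx : 0 < x) (hb : Metric.closedBall s x ⊆ U) :
    2 * Real.pi * ‖g s‖ ^ 2 ≤ ∫ θ in Ioo (-Real.pi) Real.pi, ‖g (circleMap s x θ)‖ ^ 2 := by
  have hd : DifferentiableOn ℂ (fun z => g z ^ 2) U := hg.pow 2
  have hb' : Metric.closedBall s |x| ⊆ U := by rwa [abs_of_pos hx]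
  have h1 : Real.circleAverage (fun z => g z ^ 2) s x = g s ^ 2 :=
    DiffContOnCl.circleAverage (hd.diffContOnCl_ball hb')
  rw [Real.circleAverage_eq_integral_add (-Real.pi),
    intervalIntegral.integral_comp_add_right (fun θ => g (circleMap s x θ) ^ 2)] at h1
  have e1 : (0 : ℝ) + -Real.pi = -Real.pi := by ring
  have e2 : 2 * Real.pi + -Real.pi = Real.pi := by ring
  rw [e1, e2] at h1
  have hpi := Real.pi_pos
  have hle : -Real.pi ≤ Real.pi := by linarith
  have h2 : ‖∫ θ in (-Real.pi)..Real.pi, g (circleMap s x θ) ^ 2‖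
      ≤ ∫ θ in (-Real.pi)..Real.pi, ‖g (circleMap s x θ) ^ 2‖ :=
    intervalIntegral.norm_integral_le_integral_norm hle
  have h3 : ∫ θ in (-Real.pi)..Real.pi, ‖g (circleMap s x θ) ^ 2‖
      = ∫ θ in Ioo (-Real.pi) Real.pi, ‖g (circleMap s x θ)‖ ^ 2 := by
    rw [intervalIntegral.integral_of_le hle, integral_Ioc_eq_integral_Ioo]
    simp only [norm_pow]
  have h4 : ‖g s‖ ^ 2 = (2 * Real.pi)⁻¹ * ‖∫ θ in (-Real.pi)..Real.pi, g (circleMap s x θ) ^ 2‖ := by
    rw [← norm_pow, ← h1, norm_smul, Real.norm_of_nonneg (by positivity)]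
  rw [h4, ← mul_assoc, mul_inv_cancel₀ (by positivity), one_mul, ← h3]
  exact h2

theorem sla_polar (g : ℂ → ℂ) (s : ℂ) (r : ℝ) (hr : 0 < r) :
    ∫ w in Metric.ball s r, ‖g w‖ ^ 2
      = ∫ p in (Ioo 0 r) ×ˢ (Ioo (-Real.pi) Real.pi), p.1 * ‖g (circleMap s p.1 p.2)‖ ^ 2 := by
  have h1 : ∫ w in Metric.ball s r, ‖g w‖ ^ 2
      = ∫ w : ℂ, (Metric.ball s r).indicator (fun w => ‖g w‖ ^ 2) (s + w) := by
    rw [← integral_indicator Metric.isOpen_ball.measurableSet]
    exact (integral_add_left_eq_self _ s).symm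
  rw [h1, ← Complex.integral_comp_polarCoord_symm]
  have h2 : ∀ p ∈ polarCoord.target, p.1 • (Metric.ball s r).indicator (fun w => ‖g w‖ ^ 2)
      (s + Complex.polarCoord.symm p)
      = ((Ioo 0 r) ×ˢ (Ioo (-Real.pi) Real.pi)).indicator
        (fun p : ℝ × ℝ => p.1 * ‖g (circleMap s p.1 p.2)‖ ^ 2) p := by
    intro p hp
    rw [polarCoord_target] at hp
    have hp1 : 0 < p.1 := hp.1
    have hc : s + Complex.polarCoord.symm p = circleMap s p.1 p.2 := by
      rw [Complex.polarCoord_symm_apply, circleMap, Complex.exp_mul_I]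
      push_cast
      rfl
    rw [hc]
    by_cases hr' : p.1 < r
    · rw [Set.indicator_of_mem, Set.indicator_of_mem]
      · rfl
      · exact ⟨⟨hp1, hr'⟩, hp.2⟩
      · rw [Metric.mem_ball, dist_eq_norm, circleMap_sub_center, norm_circleMap_zero, abs_of_pos hp1]
        exact hr'
    · rw [Set.indicator_of_notMem, Set.indicator_of_notMem]
      · simp
      · intro hcon
        exact hr' hcon.1.2
      · rw [Metric.mem_ball, dist_eq_norm, circleMap_sub_center, norm_circleMap_zero, abs_of_pos hp1]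
        exact hr'
  rw [setIntegral_congr_fun polarCoord.open_target.measurableSet h2,
    setIntegral_indicator (measurableSet_Ioo.prod measurableSet_Ioo)]
  congr 2
  rw [polarCoord_target]
  ext p
  constructor
  · rintro ⟨_, h⟩
    exact h
  · rintro h
    exact ⟨⟨h.1.1, h.2⟩, h⟩

/-- TARGET: sup norm by area `L²` norm for holomorphic functions -/
theorem sup_le_area (a b a' b' B B' : ℝ) (h1 : a' < a) (h2 : a ≤ b) (h3 : b < b')
    (h4 : 0 < B) (h5 : B < B') :
    ∃ C : ℝ, 0 < C ∧ ∀ (g : ℂ → ℂ) (U : Set ℂ), IsOpen U → rect a' b' B' ⊆ U →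
      DifferentiableOn ℂ g U → ∀ s ∈ rect a b B, ‖g s‖ ^ 2 ≤ C * ∫ w in rect a' b' B', ‖g w‖ ^ 2 := by
  obtain ⟨r, hr, hr1, hr2, hr3⟩ : ∃ r : ℝ, 0 < r ∧ r ≤ a - a' ∧ r ≤ b' - b ∧ r ≤ B' - B :=
    ⟨min (min (a - a') (b' - b)) (B' - B),
      lt_min (lt_min (by linarith) (by linarith)) (by linarith),
      le_trans (min_le_left _ _) (min_le_left _ _),
      le_trans (min_le_left _ _) (min_le_right _ _), min_le_right _ _⟩
  have hpi := Real.pi_pos
  refine ⟨(Real.pi * r ^ 2)⁻¹, by positivity, ?_⟩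
  intro g U hU hsub hg s hs
  have hball : Metric.closedBall s r ⊆ rect a' b' B' := by
    intro z hz
    rw [Metric.mem_closedBall, dist_eq_norm] at hz
    have e1 := (Complex.abs_re_le_norm (z - s)).trans hz
    have e2 := (Complex.abs_im_le_norm (z - s)).trans hz
    rw [Complex.sub_re, abs_le] at e1
    rw [Complex.sub_im, abs_le] at e2
    obtain ⟨s1, s2, s3⟩ := hs
    rw [abs_le] at s3
    refine ⟨by linarith [e1.1], by linarith [e1.2], ?_⟩
    rw [abs_le]
    constructor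
    · linarith [e2.1, s3.1]
    · linarith [e2.2, s3.2]
  have hcomp : IsCompact (rect a' b' B') := by
    have : rect a' b' B' = (Icc a' b') ×ℂ (Icc (-B') B') := by
      ext z
      simp only [rect, Complex.mem_reProdIm, Set.mem_Icc, abs_le]
      constructor
      · rintro ⟨x1, x2, x3⟩
        exact ⟨⟨x1, x2⟩, x3⟩
      · rintro ⟨⟨x1, x2⟩, x3⟩
        exact ⟨x1, x2, x3⟩
    rw [this]
    exact isCompact_Icc.reProdIm isCompact_Icc
  have hgc : ContinuousOn g U := hg.continuousOn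
  have hint : IntegrableOn (fun w => ‖g w‖ ^ 2) (rect a' b' B') :=
    ContinuousOn.integrableOn_compact hcomp (((hgc.mono hsub).norm).pow 2)
  have hA : ∫ w in Metric.ball s r, ‖g w‖ ^ 2 ≤ ∫ w in rect a' b' B', ‖g w‖ ^ 2 := by
    refine setIntegral_mono_set hint (Filter.Eventually.of_forall fun w => by positivity) ?_
    exact (Metric.ball_subset_closedBall.trans hball).eventuallyLE
  -- polar coordinates
  have hmap : ∀ p ∈ (Icc 0 r) ×ˢ (Icc (-Real.pi) Real.pi), circleMap s p.1 p.2 ∈ U := by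
    intro p hp
    apply hsub
    apply hball
    rw [Metric.mem_closedBall, dist_eq_norm, circleMap_sub_center, norm_circleMap_zero,
      abs_of_nonneg hp.1.1]
    exact hp.1.2
  have hcm : Continuous fun p : ℝ × ℝ => circleMap s p.1 p.2 := by
    unfold circleMap
    fun_prop
  have hGint : IntegrableOn (fun p : ℝ × ℝ => p.1 * ‖g (circleMap s p.1 p.2)‖ ^ 2)
      ((Ioo 0 r) ×ˢ (Ioo (-Real.pi) Real.pi)) := by
    have hc : ContinuousOn (fun p : ℝ × ℝ => p.1 * ‖g (circleMap s p.1 p.2)‖ ^ 2)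
        ((Icc 0 r) ×ˢ (Icc (-Real.pi) Real.pi)) :=
      continuous_fst.continuousOn.mul (((hgc.comp hcm.continuousOn hmap).norm).pow 2)
    have := ContinuousOn.integrableOn_compact (μ := volume) (isCompact_Icc.prod isCompact_Icc) hc
    exact this.mono_set (Set.prod_mono Ioo_subset_Icc_self Ioo_subset_Icc_self)
  have hB : ∫ w in Metric.ball s r, ‖g w‖ ^ 2
      = ∫ x in Ioo 0 r, ∫ θ in Ioo (-Real.pi) Real.pi, x * ‖g (circleMap s x θ)‖ ^ 2 := by
    rw [sla_polar g s r hr]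
    exact setIntegral_prod _ hGint
  have hInt2 : IntegrableOn (fun x => ∫ θ in Ioo (-Real.pi) Real.pi,
      x * ‖g (circleMap s x θ)‖ ^ 2) (Ioo 0 r) := by
    have h := hGint
    rw [IntegrableOn, Measure.volume_eq_prod, ← Measure.prod_restrict] at h
    exact h.integral_prod_left
  have hC : ∫ x in Ioo 0 r, x * (2 * Real.pi * ‖g s‖ ^ 2)
      ≤ ∫ x in Ioo 0 r, ∫ θ in Ioo (-Real.pi) Real.pi, x * ‖g (circleMap s x θ)‖ ^ 2 := by
    refine setIntegral_mono_on ?_ hInt2 measurableSet_Ioo ?_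
    · have : ContinuousOn (fun x : ℝ => x * (2 * Real.pi * ‖g s‖ ^ 2)) (Icc 0 r) := by fun_prop
      exact (ContinuousOn.integrableOn_compact isCompact_Icc this).mono_set Ioo_subset_Icc_self
    · intro x hx
      rw [integral_const_mul]
      refine mul_le_mul_of_nonneg_left ?_ hx.1.le
      exact sla_mean g U hU hg s x hx.1
        ((Metric.closedBall_subset_closedBall hx.2.le).trans (hball.trans hsub))
  have hD : ∫ x in Ioo 0 r, x * (2 * Real.pi * ‖g s‖ ^ 2) = Real.pi * r ^ 2 * ‖g s‖ ^ 2 := by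
    rw [integral_mul_const, ← integral_Ioc_eq_integral_Ioo,
      ← intervalIntegral.integral_of_le hr.le, integral_id]
    ring
  have hE : Real.pi * r ^ 2 * ‖g s‖ ^ 2 ≤ ∫ w in rect a' b' B', ‖g w‖ ^ 2 := by
    rw [← hD]
    exact hC.trans (hB.symm.le.trans hA)
  rw [inv_mul_eq_div, le_div_iff₀ (by positivity)]
  linarith


end ZU.J_d

alias ZU.sup_le_area := ZU.J_d.sup_le_area
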