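import Pool.Agent.H19.EW.ZUDefs

open Complex Filter Topology Set MeasureTheory

namespace ZU.J_e1b














theorem fubini_bound_rect (a b B : ℝ) : rect a b B = Icc a b ×ℂ Icc (-B) B := by
  ext z
  rw [Complex.mem_reProdIm]
  change (a ≤ z.re ∧ z.re ≤ b ∧ |z.im| ≤ B) ↔ (a ≤ z.re ∧ z.re ≤ b) ∧ (-B ≤ z.im ∧ z.im ≤ B)
  rw [abs_le, and_assoc]

theorem fubini_bound_compact (a b B : ℝ) : IsCompact (rect a b B) := by
  rw [fubini_bound_rect]
  exact isCompact_Icc.reProdIm isCompact_Icc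

theorem fubini_bound_vol (a b B : ℝ) (hab : a ≤ b) (hB : 0 < B) :
    (volume : Measure ℂ).real (rect a b B) = (b - a) * (2 * B) := by
  have h1 : rect a b B = Complex.measurableEquivRealProd ⁻¹' (Icc a b ×ˢ Icc (-B) B) := by
    rw [fubini_bound_rect]
    rfl
  rw [Measure.real, h1, Complex.volume_preserving_equiv_real_prod.measure_preimage
    (measurableSet_Icc.prod measurableSet_Icc).nullMeasurableSet, Measure.volume_eq_prod,
    Measure.prod_prod, Real.volume_Icc, Real.volume_Icc, ENNReal.toReal_mul,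
    ENNReal.toReal_ofReal (by linarith), ENNReal.toReal_ofReal (by linarith)]
  ring

/-- clamping the real part -/
noncomputable def fubini_bound_cl (a b : ℝ) (z : ℂ) : ℂ :=
  ((max a (min b z.re) : ℝ) : ℂ) + (z.im : ℂ) * I

theorem fubini_bound_cl_cont (a b : ℝ) : Continuous (fubini_bound_cl a b) := by
  unfold fubini_bound_cl
  fun_prop

theorem fubini_bound_cl_mem (a b : ℝ) (hab : a ≤ b) (z : ℂ) :
    fubini_bound_cl a b z ∈ {z : ℂ | a ≤ z.re ∧ z.re ≤ b} := by
  have h1 : (fubini_bound_cl a b z).re = max a (min b z.re) := by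
    simp [fubini_bound_cl]
  change a ≤ (fubini_bound_cl a b z).re ∧ (fubini_bound_cl a b z).re ≤ b
  rw [h1]
  exact ⟨le_max_left _ _, max_le hab (min_le_left _ _)⟩

theorem fubini_bound_cl_eq (a b : ℝ) (z : ℂ) (h1 : a ≤ z.re) (h2 : z.re ≤ b) :
    fubini_bound_cl a b z = z := by
  unfold fubini_bound_cl
  rw [min_eq_right h2, max_eq_right h1, Complex.re_add_im]

/-- TARGET -/
theorem fubini_bound (a b B : ℝ) (hab : a ≤ b) (hB : 0 < B) (G : ℂ → ℂ)
    (hG : ContinuousOn G {z : ℂ | a ≤ z.re ∧ z.re ≤ b}) (q : ℝ → ℝ) (hq : Continuous q)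
    (T : ℝ) (hT : 0 ≤ T) (V : ℝ)
    (hV : ∀ s ∈ rect a b B, ∫ t in (0 : ℝ)..T, q t * ‖G (s + t * I)‖ ^ 2 ≤ V) :
    Continuous (fun t : ℝ => ∫ w in rect a b B, ‖G (w + t * I)‖ ^ 2) ∧
    ∫ t in (0 : ℝ)..T, q t * (∫ w in rect a b B, ‖G (w + t * I)‖ ^ 2) ≤
      (b - a) * (2 * B) * V := by
  have hcomp := fubini_bound_compact a b B
  have hmeas : MeasurableSet (rect a b B) := hcomp.measurableSet
  let G' : ℂ → ℂ := fun z => G (fubini_bound_cl a b z)
  have hG' : Continuous G' :=
    hG.comp_continuous (fubini_bound_cl_cont a b) (fubini_bound_cl_mem a b hab)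
  have hGG : ∀ w ∈ rect a b B, ∀ t : ℝ, G' (w + t * I) = G (w + t * I) := by
    intro w hw t
    have hre : (w + t * I).re = w.re := by simp
    change G (fubini_bound_cl a b (w + t * I)) = _
    rw [fubini_bound_cl_eq a b (w + t * I) (by rw [hre]; exact hw.1) (by rw [hre]; exact hw.2.1)]
  have hPhi : (fun t : ℝ => ∫ w in rect a b B, ‖G (w + t * I)‖ ^ 2) =
      fun t : ℝ => ∫ w in rect a b B, ‖G' (w + t * I)‖ ^ 2 := by
    funext t
    refine setIntegral_congr_fun hmeas fun w hw => ?_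
    change ‖G (w + t * I)‖ ^ 2 = ‖G' (w + t * I)‖ ^ 2
    rw [hGG w hw t]
  have hjoint : Continuous (fun p : ℝ × ℂ => ‖G' (p.2 + p.1 * I)‖ ^ 2) := by fun_prop
  constructor
  · rw [hPhi]
    exact continuous_parametric_integral_of_continuous (f := fun (t : ℝ) (w : ℂ) =>
      ‖G' (w + t * I)‖ ^ 2) hjoint hcomp
  · have hF : Continuous (fun p : ℝ × ℂ => q p.1 * ‖G' (p.2 + p.1 * I)‖ ^ 2) :=
      (hq.comp continuous_fst).mul hjoint
    have e1 : ∫ t in (0 : ℝ)..T, q t * (∫ w in rect a b B, ‖G (w + t * I)‖ ^ 2) =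
        ∫ t in (0 : ℝ)..T, ∫ w in rect a b B, q t * ‖G' (w + t * I)‖ ^ 2 := by
      refine intervalIntegral.integral_congr fun t _ => ?_
      change q t * (∫ w in rect a b B, ‖G (w + t * I)‖ ^ 2) =
        ∫ w in rect a b B, q t * ‖G' (w + t * I)‖ ^ 2
      rw [integral_const_mul]
      congr 1
      exact congrFun hPhi t
    have hint : Integrable (Function.uncurry fun (t : ℝ) (w : ℂ) => q t * ‖G' (w + t * I)‖ ^ 2)
        (((volume : Measure ℝ).restrict (Ioc 0 T)).prod
          ((volume : Measure ℂ).restrict (rect a b B))) := by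
      rw [Measure.prod_restrict]
      have h1 : IntegrableOn (Function.uncurry fun (t : ℝ) (w : ℂ) => q t * ‖G' (w + t * I)‖ ^ 2)
          (Icc 0 T ×ˢ rect a b B) ((volume : Measure ℝ).prod (volume : Measure ℂ)) :=
        ContinuousOn.integrableOn_compact (isCompact_Icc.prod hcomp) hF.continuousOn
      exact h1.mono_set (Set.prod_mono Ioc_subset_Icc_self subset_rfl)
    rw [e1, intervalIntegral.integral_of_le hT, integral_integral_swap hint]
    have hJc : Continuous (fun w : ℂ => ∫ t in (0 : ℝ)..T, q t * ‖G' (w + t * I)‖ ^ 2) := by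
      refine intervalIntegral.continuous_parametric_intervalIntegral_of_continuous'
        (f := fun (w : ℂ) (t : ℝ) => q t * ‖G' (w + t * I)‖ ^ 2) ?_ 0 T
      exact hF.comp continuous_swap
    have hJi : IntegrableOn (fun w : ℂ => ∫ t in Ioc (0 : ℝ) T, q t * ‖G' (w + t * I)‖ ^ 2)
        (rect a b B) := by
      have h1 := hJc.continuousOn.integrableOn_compact (μ := volume) hcomp
      simpa only [intervalIntegral.integral_of_le hT] using h1
    have hle : ∫ w in rect a b B, ∫ t in Ioc (0 : ℝ) T, q t * ‖G' (w + t * I)‖ ^ 2 ≤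
        ∫ _w in rect a b B, V := by
      refine setIntegral_mono_on hJi (integrableOn_const hcomp.measure_lt_top.ne) hmeas ?_
      intro w hw
      rw [← intervalIntegral.integral_of_le hT]
      refine le_trans (le_of_eq ?_) (hV w hw)
      refine intervalIntegral.integral_congr fun t _ => ?_
      change q t * ‖G' (w + t * I)‖ ^ 2 = q t * ‖G (w + t * I)‖ ^ 2
      rw [hGG w hw t]
    refine hle.trans (le_of_eq ?_)
    rw [setIntegral_const, fubini_bound_vol a b B hab hB, smul_eq_mul]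


end ZU.J_e1b

alias ZU.fubini_bound := ZU.J_e1b.fubini_bound
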