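import Pool.Agent.H19.EW.L.H353R2_Z1
import Pool.Agent.H19.EW.L.H353R2_Z5
import Pool.Agent.H19.EW.L.Helper240_ZU_D
import Pool.Agent.H19.EW.L.Helper240_ZU_E1b

open Complex Filter Topology Set MeasureTheory

namespace H353

theorem MX_diff (X : ℕ) : Differentiable ℂ (MX X) := by
  unfold MX
  apply Differentiable.fun_sum
  intro m hm
  rw [Finset.mem_Icc] at hm
  intro s
  have hm0 : (m : ℂ) ≠ 0 := by
    have : m ≠ 0 := by omega
    exact_mod_cast this
  exact ((differentiableAt_id.neg).const_cpow (Or.inl hm0)).const_mul _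

theorem fz_diffAt (X : ℕ) (s : ℂ) (hs : s ≠ 1) : DifferentiableAt ℂ (fz X) s :=
  ((differentiableAt_riemannZeta hs).mul (MX_diff X s)).sub_const 1

/-- clamped and shifted version of `fz` -/
noncomputable def Gc (X : ℕ) (T : ℝ) (z : ℂ) : ℂ :=
  fz X ((z.re : ℂ) + (max (z.im + (T - 1 / 2)) (1 / 2) : ℝ) * I)

theorem Gc_cont (X : ℕ) (T : ℝ) : Continuous (Gc X T) := by
  rw [continuous_iff_continuousAt]
  intro z
  unfold Gc
  have hne : ((z.re : ℂ) + (max (z.im + (T - 1 / 2)) (1 / 2) : ℝ) * I) ≠ 1 := by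
    intro h
    have := congrArg Complex.im h
    simp at this
    have h2 : (1:ℝ) / 2 ≤ max (z.im + (T - 1 / 2)) (1 / 2) := le_max_right _ _
    norm_num at h2 this
    have h3 := le_max_right (z.im + (T - 1 / 2)) (1 / 2)
    linarith
  exact ContinuousAt.comp (f := fun z : ℂ => ((z.re : ℂ) + (max (z.im + (T - 1 / 2)) (1 / 2) : ℝ) * I))
    (fz_diffAt X _ hne).continuousAt (by fun_prop)

theorem Gc_eq (X : ℕ) (T : ℝ) (z : ℂ) (hz : 1 / 2 ≤ z.im + (T - 1 / 2)) :
    Gc X T z = fz X (z + ((T - 1 / 2 : ℝ) : ℂ) * I) := by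
  unfold Gc
  rw [max_eq_left hz]
  congr 1
  apply Complex.ext <;> simp

/-- one block -/
theorem block (σ : ℝ) (h1 : 1 / 2 < σ) (h2 : σ < 1) : ∃ C δ : ℝ, 0 < C ∧ 0 < δ ∧ ∀ T : ℝ, 3 ≤ T →
    ∀ S : Finset ℂ, (∀ ρ ∈ S, FF ρ = 0 ∧ σ ≤ ρ.re ∧ T ≤ ρ.im ∧ ρ.im ≤ 2 * T) →
      ∑ ρ ∈ S, (mu ρ : ℝ) ≤ C * T ^ (1 - δ) := by
  set σ1 : ℝ := (σ + 1 / 2) / 2 with hσ1
  have hs1 : 1 / 2 < σ1 := by rw [hσ1]; linarith
  have hs2 : σ1 < σ := by rw [hσ1]; linarith
  obtain ⟨C0, δ0, hC0, hδ0, hδ1, hf⟩ := fz_power σ1 hs1 (by linarith)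
  obtain ⟨C1, hC1, hsup⟩ := ZU.sup_le_area σ 1 σ1 (3 / 2) (1 / 2) 1 hs2 h2.le (by norm_num)
    (by norm_num) (by norm_num)
  set ε : ℝ := δ0 / 4 with hε
  have hε0 : 0 < ε := by positivity
  refine ⟨C1 * (60 * ((352:ℝ) ^ ε / ε)) * ((3 / 2 - σ1) * (2 * 1) * C0), δ0 / 2, ?_, by positivity, ?_⟩
  · have : 0 < 3 / 2 - σ1 := by linarith
    positivity
  intro T hT S hS
  have hT0 : 0 < T := by linarith
  obtain ⟨X, hX⟩ := hf T (by linarith)
  set G : ℂ → ℂ := Gc X T with hG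
  have hGc : Continuous G := Gc_cont X T
  set R : Set ℂ := ZU.rect σ1 (3 / 2) 1 with hR
  have hRcomp : IsCompact R := ZU.J_e1b.fubini_bound_compact _ _ _
  -- Fubini
  have hV : ∀ s ∈ R, ∫ t in (0 : ℝ)..(T + 1), (1:ℝ) * ‖G (s + t * I)‖ ^ 2 ≤ C0 * T ^ (1 - δ0) := by
    intro s hs
    obtain ⟨q1, q2, q3⟩ := hs
    rw [abs_le] at q3
    refine le_trans ?_ (hX s.re ⟨q1, q2⟩)
    have e1 : ∀ t ∈ uIcc (0:ℝ) (T + 1), (1:ℝ) * ‖G (s + t * I)‖ ^ 2 =
        ‖fz X ((s.re : ℂ) + ((t + (s.im + (T - 1 / 2)) : ℝ) : ℂ) * I)‖ ^ 2 := by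
      intro t ht
      rw [uIcc_of_le (by linarith)] at ht
      rw [one_mul, hG, Gc_eq X T _ (by simp; linarith [ht.1])]
      congr 3
      apply Complex.ext <;> simp
      ring
    rw [intervalIntegral.integral_congr e1]
    rw [intervalIntegral.integral_comp_add_right
      (fun u => ‖fz X ((s.re : ℂ) + ((u : ℝ) : ℂ) * I)‖ ^ 2)]
    have hcont : ContinuousOn (fun u : ℝ => ‖fz X ((s.re : ℂ) + ((u : ℝ) : ℂ) * I)‖ ^ 2)
        (Icc (T / 2) (3 * T)) := by
      intro u hu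
      apply ContinuousAt.continuousWithinAt
      have hne : (s.re : ℂ) + ((u : ℝ) : ℂ) * I ≠ 1 := by
        intro h
        have := congrArg Complex.im h
        simp at this
        linarith [hu.1]
      exact ((ContinuousAt.comp (f := fun u : ℝ => (s.re : ℂ) + ((u : ℝ) : ℂ) * I)
        (fz_diffAt X _ hne).continuousAt (by fun_prop)).norm).pow 2
    rw [intervalIntegral.integral_of_le (by linarith), intervalIntegral.integral_of_le (by linarith)]
    refine setIntegral_mono_set ?_ (Eventually.of_forall fun u => by positivity) ?_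
    · exact (hcont.integrableOn_compact isCompact_Icc).mono_set Ioc_subset_Icc_self
    · refine LE.le.eventuallyLE ?_
      intro u hu
      exact ⟨by linarith [hu.1], by linarith [hu.2]⟩
  obtain ⟨hAc, hAint⟩ := ZU.fubini_bound σ1 (3 / 2) 1 (by linarith) one_pos G hGc.continuousOn
    (fun _ => 1) continuous_const (T + 1) (by linarith) _ hV
  set A : ℝ → ℝ := fun t => ∫ w in R, ‖G (w + t * I)‖ ^ 2 with hA
  have hA0 : ∀ t, 0 ≤ A t := fun t => setIntegral_nonneg hRcomp.measurableSet fun w _ => by positivity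
  have hAint' : ∫ t in Icc (0:ℝ) (T + 1), A t ≤ (3 / 2 - σ1) * (2 * 1) * (C0 * T ^ (1 - δ0)) := by
    rw [integral_Icc_eq_integral_Ioc, ← intervalIntegral.integral_of_le (by linarith)]
    simpa only [one_mul] using hAint
  -- each zero
  have hone : ∀ ρ ∈ S, ∀ t ∈ Icc (ρ.im - T) (ρ.im - T + 1), 1 ≤ C1 * A t := by
    intro ρ hρ t ht
    obtain ⟨z1, z2, z3, z4⟩ := hS ρ hρ
    have z5 := ZU.J_g2b.FF_zero_re z1
    have ht0 : 0 ≤ t := by linarith [ht.1]
    set U : Set ℂ := {w | w + (t : ℂ) * I + ((T - 1 / 2 : ℝ) : ℂ) * I ≠ 1} with hU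
    have hUo : IsOpen U := isOpen_ne_fun (by fun_prop) continuous_const
    have hsub : ZU.rect σ1 (3 / 2) 1 ⊆ U := by
      intro w hw h
      obtain ⟨_, _, q3⟩ := hw
      rw [abs_le] at q3
      have := congrArg Complex.im h
      simp at this
      linarith
    have hgd : DifferentiableOn ℂ (fun w => fz X (w + (t : ℂ) * I + ((T - 1 / 2 : ℝ) : ℂ) * I)) U := by
      intro w hw
      have h3 := fz_diffAt X _ hw
      exact (DifferentiableAt.comp (f := fun w : ℂ => w + (t : ℂ) * I + ((T - 1 / 2 : ℝ) : ℂ) * I)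
        w h3 (by fun_prop)).differentiableWithinAt
    set s0 : ℂ := ρ - (t : ℂ) * I - ((T - 1 / 2 : ℝ) : ℂ) * I with hs0
    have hs0m : s0 ∈ ZU.rect σ 1 (1 / 2) := by
      refine ⟨by simp [hs0]; exact z2, by simp [hs0]; exact z5.le, ?_⟩
      rw [abs_le]
      simp only [hs0, Complex.sub_im, Complex.mul_im, Complex.ofReal_re, Complex.I_im,
        Complex.ofReal_im, Complex.I_re, mul_one, mul_zero, add_zero]
      constructor <;> linarith [ht.1, ht.2]
    have h4 := hsup _ U hUo hsub hgd s0 hs0m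
    have h5 : fz X (s0 + (t : ℂ) * I + ((T - 1 / 2 : ℝ) : ℂ) * I) = -1 := by
      have e : s0 + (t : ℂ) * I + ((T - 1 / 2 : ℝ) : ℂ) * I = ρ := by rw [hs0]; ring
      rw [e]
      unfold fz
      have hρ1 : ρ ≠ 1 := by
        rintro rfl
        simp at z5
      have : riemannZeta ρ = 0 := by
        have h6 : FF ρ = (ρ - 1) * riemannZeta ρ := ZU.J_g2b.FF_ne hρ1
        rw [z1] at h6
        exact (mul_eq_zero.1 h6.symm).resolve_left (sub_ne_zero.2 hρ1)
      rw [this]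
      ring
    simp only [h5] at h4
    norm_num at h4
    refine h4.trans (le_of_eq ?_)
    congr 1
    refine setIntegral_congr_fun hRcomp.measurableSet fun w hw => ?_
    obtain ⟨_, _, q3⟩ := hw
    rw [abs_le] at q3
    rw [hG, Gc_eq X T _ (by simp; linarith)]
    norm_num
  have hAi : ∀ a b : ℝ, IntegrableOn A (Icc a b) := fun a b =>
    hAc.continuousOn.integrableOn_compact isCompact_Icc
  have hone2 : ∀ ρ ∈ S, 1 ≤ C1 * ∫ t in Icc (0:ℝ) (T + 1),
      (Icc (ρ.im - T) (ρ.im - T + 1)).indicator A t := by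
    intro ρ hρ
    obtain ⟨z1, z2, z3, z4⟩ := hS ρ hρ
    rw [setIntegral_indicator measurableSet_Icc]
    have e : Icc (0:ℝ) (T + 1) ∩ Icc (ρ.im - T) (ρ.im - T + 1) = Icc (ρ.im - T) (ρ.im - T + 1) := by
      apply Set.inter_eq_right.2
      exact Icc_subset_Icc (by linarith) (by linarith)
    rw [e, ← integral_const_mul]
    have h6 : ∫ _t in Icc (ρ.im - T) (ρ.im - T + 1), (1:ℝ) = 1 := by
      rw [setIntegral_const, Measure.real, Real.volume_Icc]
      simp
    refine h6.symm.le.trans ?_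
    exact setIntegral_mono_on (integrableOn_const (by simp)) ((hAi _ _).const_mul _)
      measurableSet_Icc (fun t ht => hone ρ hρ t ht)
  -- sum up
  set LC : ℝ := 60 * Real.log (352 * T ^ 2) with hLC
  have hpt : ∀ t ∈ Icc (0:ℝ) (T + 1),
      ∑ ρ ∈ S, (mu ρ : ℝ) * (Icc (ρ.im - T) (ρ.im - T + 1)).indicator A t ≤ LC * A t := by
    intro t ht
    have e1 : ∑ ρ ∈ S, (mu ρ : ℝ) * (Icc (ρ.im - T) (ρ.im - T + 1)).indicator A t =
        (∑ ρ ∈ S.filter (fun ρ => t ∈ Icc (ρ.im - T) (ρ.im - T + 1)), (mu ρ : ℝ)) * A t := by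
      rw [Finset.sum_mul, Finset.sum_filter]
      refine Finset.sum_congr rfl fun ρ _ => ?_
      by_cases h : t ∈ Icc (ρ.im - T) (ρ.im - T + 1)
      · rw [if_pos h, indicator_of_mem h]
      · rw [if_neg h, indicator_of_notMem h, mul_zero]
    rw [e1]
    refine mul_le_mul_of_nonneg_right ?_ (hA0 t)
    have h7 := local_count (T - 1 / 2 + t) (S.filter (fun ρ => t ∈ Icc (ρ.im - T) (ρ.im - T + 1)))
      (fun ρ hρ => by
        rw [Finset.mem_filter] at hρ
        obtain ⟨z1, z2, z3, z4⟩ := hS ρ hρ.1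
        refine ⟨z1, by linarith, ?_⟩
        rw [abs_le]
        constructor <;> linarith [hρ.2.1, hρ.2.2])
    push_cast at h7
    refine h7.trans ?_
    rw [hLC]
    have h8 : |T - 1 / 2 + t| ≤ 2 * T + 1 / 2 := by
      rw [abs_le]
      constructor <;> linarith [ht.1, ht.2]
    have h9 : (5 + |T - 1 / 2 + t|) ^ 2 ≤ (4 * T) ^ 2 :=
      pow_le_pow_left₀ (by positivity) (by linarith) 2
    have h10 : Real.log (22 * (5 + |T - 1 / 2 + t|) ^ 2) ≤ Real.log (352 * T ^ 2) :=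
      Real.log_le_log (by positivity) (by nlinarith)
    linarith
  have hindI : ∀ ρ ∈ S, Integrable (fun t => (mu ρ : ℝ) *
      (Icc (ρ.im - T) (ρ.im - T + 1)).indicator A t) (volume.restrict (Icc (0:ℝ) (T + 1))) := by
    intro ρ _
    exact ((hAi 0 (T + 1)).indicator measurableSet_Icc).const_mul _
  have hLC0 : 0 ≤ LC := by
    rw [hLC]
    have : 0 ≤ Real.log (352 * T ^ 2) := Real.log_nonneg (by nlinarith)
    positivity
  have hmain : ∑ ρ ∈ S, (mu ρ : ℝ) ≤ C1 * (LC * ((3 / 2 - σ1) * (2 * 1) * (C0 * T ^ (1 - δ0)))) := by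
    calc ∑ ρ ∈ S, (mu ρ : ℝ) ≤ ∑ ρ ∈ S, (mu ρ : ℝ) * (C1 * ∫ t in Icc (0:ℝ) (T + 1),
          (Icc (ρ.im - T) (ρ.im - T + 1)).indicator A t) := by
          refine Finset.sum_le_sum fun ρ hρ => ?_
          exact le_mul_of_one_le_right (Nat.cast_nonneg _) (hone2 ρ hρ)
      _ = C1 * ∫ t in Icc (0:ℝ) (T + 1), ∑ ρ ∈ S, (mu ρ : ℝ) *
          (Icc (ρ.im - T) (ρ.im - T + 1)).indicator A t := by
          rw [integral_finsetSum _ hindI, Finset.mul_sum]
          refine Finset.sum_congr rfl fun ρ _ => ?_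
          rw [integral_const_mul]
          ring
      _ ≤ C1 * ∫ t in Icc (0:ℝ) (T + 1), LC * A t := by
          refine mul_le_mul_of_nonneg_left ?_ hC1.le
          exact setIntegral_mono_on (integrable_finsetSum _ hindI) ((hAi _ _).const_mul _)
            measurableSet_Icc hpt
      _ = C1 * (LC * ∫ t in Icc (0:ℝ) (T + 1), A t) := by rw [integral_const_mul]
      _ ≤ _ := by gcongr
  refine hmain.trans ?_
  have hlog : Real.log (352 * T ^ 2) ≤ (352:ℝ) ^ ε / ε * T ^ (2 * ε) := by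
    have h11 := Real.log_le_rpow_div (show (0:ℝ) ≤ 352 * T ^ 2 by positivity) hε0
    refine h11.trans (le_of_eq ?_)
    rw [Real.mul_rpow (by norm_num) (by positivity), ← Real.rpow_natCast T 2, ← Real.rpow_mul hT0.le]
    push_cast
    ring
  have h12 : 0 < 3 / 2 - σ1 := by linarith
  have h13 : 0 < T ^ (1 - δ0) := Real.rpow_pos_of_pos hT0 _
  calc C1 * (LC * ((3 / 2 - σ1) * (2 * 1) * (C0 * T ^ (1 - δ0))))
      ≤ C1 * ((60 * ((352:ℝ) ^ ε / ε * T ^ (2 * ε))) * ((3 / 2 - σ1) * (2 * 1) * (C0 * T ^ (1 - δ0)))) := by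
        rw [hLC]
        gcongr
    _ = C1 * (60 * ((352:ℝ) ^ ε / ε)) * ((3 / 2 - σ1) * (2 * 1) * C0) *
        (T ^ (2 * ε) * T ^ (1 - δ0)) := by ring
    _ = _ := by
        rw [← Real.rpow_add hT0]
        congr 2
        rw [hε]
        ring

end H353
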