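import Mathlib

/-! Rectangular contours. -/

set_option autoImplicit false

open Set Filter Topology Complex Metric MeasureTheory

namespace Pool.Agent.H810R2.CSd

/-- A weighted oriented segment: points `p + x d`, `x` from `a` to `b`, weight `ω`. -/
structure Seg where
  p : ℂ
  d : ℂ
  ω : ℂ
  a : ℝ
  b : ℝ

/-- points of the line -/
noncomputable def Seg.pt (s : Seg) (x : ℝ) : ℂ := s.p + x * s.d

theorem Seg.continuous_pt (s : Seg) : Continuous s.pt := by
  unfold Seg.pt
  fun_prop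

/-- the integral along a segment -/
noncomputable def Seg.int {X : Type*} [NormedAddCommGroup X] [NormedSpace ℂ X] (s : Seg)
    (g : ℂ → X) : X := s.ω • ∫ x in s.a..s.b, g (s.pt x)

section cauchy

variable {x₀ x₁ y₀ y₁ : ℝ}

/-- the boundary integral of a rectangle -/
noncomputable def rect (x₀ x₁ y₀ y₁ : ℝ) (g : ℂ → ℂ) : ℂ :=
  (∫ x in x₀..x₁, g (x + y₀ * I)) - (∫ x in x₀..x₁, g (x + y₁ * I)) +
    I • (∫ y in y₀..y₁, g (x₁ + y * I)) - I • (∫ y in y₀..y₁, g (x₀ + y * I))

theorem rect_eq_zero {g : ℂ → ℂ} (hg : Differentiable ℂ g) : rect x₀ x₁ y₀ y₁ g = 0 := by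
  have h := integral_boundary_rect_eq_zero_of_differentiableOn g (⟨x₀, y₀⟩ : ℂ) (⟨x₁, y₁⟩ : ℂ)
    hg.differentiableOn
  exact h

theorem log_neg_of_im_pos {z : ℂ} (hz : 0 < z.im) : Complex.log (-z) = Complex.log z - Real.pi * I := by
  rw [Complex.log, Complex.log, norm_neg, Complex.arg_neg_eq_arg_sub_pi_of_im_pos hz]
  push_cast
  ring

theorem log_neg_of_im_neg {z : ℂ} (hz : z.im < 0) : Complex.log (-z) = Complex.log z + Real.pi * I := by
  rw [Complex.log, Complex.log, norm_neg, Complex.arg_neg_eq_arg_add_pi_of_im_neg hz]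
  push_cast
  ring

theorem rect_inv {w : ℂ} (h1 : x₀ < w.re) (h2 : w.re < x₁) (h3 : y₀ < w.im) (h4 : w.im < y₁) :
    rect x₀ x₁ y₀ y₁ (fun z => (z - w)⁻¹) = 2 * Real.pi * I := by
  -- general fundamental theorem
  have key : ∀ (p d : ℂ) (σ : ℂ) (a b : ℝ), σ ≠ 0 → (∀ x : ℝ, σ * (p + x * d) ∈ slitPlane) →
      d * (∫ x in a..b, (p + x * d)⁻¹) =
        Complex.log (σ * (p + b * d)) - Complex.log (σ * (p + a * d)) := by
    intro p d σ a b hσ h
    have hne : ∀ x : ℝ, p + x * d ≠ 0 := by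
      intro x hx
      have := h x
      rw [hx, mul_zero] at this
      exact Complex.zero_notMem_slitPlane this
    have hder : ∀ x ∈ uIcc a b, HasDerivAt (fun x : ℝ => Complex.log (σ * (p + x * d)))
        (d * (p + x * d)⁻¹) x := by
      intro x _
      have h1 : HasDerivAt (fun x : ℝ => (x : ℂ)) 1 x := Complex.ofRealCLM.hasDerivAt
      have h2 : HasDerivAt (fun x : ℝ => σ * (p + x * d)) (σ * (1 * d)) x :=
        ((h1.mul_const d).const_add p).const_mul σ
      have h3 := h2.clog_real (h x)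
      convert h3 using 1
      have := hne x
      field_simp
    have hcont : Continuous fun x : ℝ => d * (p + x * d)⁻¹ :=
      continuous_const.mul (Continuous.inv₀ (by fun_prop) hne)
    have := intervalIntegral.integral_eq_sub_of_hasDerivAt hder (hcont.intervalIntegrable a b)
    rw [← this, intervalIntegral.integral_const_mul]
  have hsl : ∀ {z : ℂ}, z.im ≠ 0 → z ∈ slitPlane := fun h => Or.inr h
  have hsr : ∀ {z : ℂ}, 0 < z.re → z ∈ slitPlane := fun h => Or.inl h
  have c1 := key (y₀ * I - w) 1 1 x₀ x₁ one_ne_zero (fun x => hsl (by simp; linarith))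
  have c2 := key (y₁ * I - w) 1 1 x₀ x₁ one_ne_zero (fun x => hsl (by simp; linarith))
  have c3 := key (x₁ - w) I 1 y₀ y₁ one_ne_zero (fun x => hsr (by simp; linarith))
  have c4 := key (x₀ - w) I (-1) y₀ y₁ (by norm_num) (fun x => hsr (by simp; linarith))
  have d1 : ∀ (y x : ℝ), ((x : ℂ) + y * I - w)⁻¹ = (y * I - w + x * 1)⁻¹ := by
    intro y x; congr 1; ring
  have d2 : ∀ (y x : ℝ), ((x : ℂ) + y * I - w)⁻¹ = (x - w + y * I)⁻¹ := by
    intro y x; congr 1; ring
  rw [rect]
  simp only [smul_eq_mul]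
  simp only [d1 y₀, d1 y₁]
  have e3 : (∫ y in y₀..y₁, ((x₁ : ℂ) + y * I - w)⁻¹) = ∫ y in y₀..y₁, ((x₁ : ℂ) - w + y * I)⁻¹ :=
    intervalIntegral.integral_congr fun y _ => d2 y x₁
  have e4 : (∫ y in y₀..y₁, ((x₀ : ℂ) + y * I - w)⁻¹) = ∫ y in y₀..y₁, ((x₀ : ℂ) - w + y * I)⁻¹ :=
    intervalIntegral.integral_congr fun y _ => d2 y x₀
  rw [e3, e4, c3, c4]
  rw [one_mul] at c1 c2
  rw [c1, c2]
  have f01 : Complex.log (-1 * (x₀ - w + y₁ * I)) = Complex.log (x₀ - w + y₁ * I) - Real.pi * I := by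
    rw [neg_one_mul]
    apply log_neg_of_im_pos
    simp; linarith
  have f00 : Complex.log (-1 * (x₀ - w + y₀ * I)) = Complex.log (x₀ - w + y₀ * I) + Real.pi * I := by
    rw [neg_one_mul]
    apply log_neg_of_im_neg
    simp; linarith
  rw [f01, f00]
  have g1 : ∀ x y : ℝ, (1 : ℂ) * (y * I - w + x * 1) = x - w + y * I := by
    intro x y; ring
  rw [g1, g1, g1, g1, one_mul, one_mul]
  ring

theorem rect_sub {f g : ℂ → ℂ} (hf : ∀ y, y = y₀ ∨ y = y₁ → Continuous fun x : ℝ => f (x + (y : ℝ) * I))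
    (hf' : ∀ x, x = x₀ ∨ x = x₁ → Continuous fun y : ℝ => f ((x : ℝ) + y * I))
    (hg : ∀ y, y = y₀ ∨ y = y₁ → Continuous fun x : ℝ => g (x + (y : ℝ) * I))
    (hg' : ∀ x, x = x₀ ∨ x = x₁ → Continuous fun y : ℝ => g ((x : ℝ) + y * I)) :
    rect x₀ x₁ y₀ y₁ (fun z => f z + g z) = rect x₀ x₁ y₀ y₁ f + rect x₀ x₁ y₀ y₁ g := by
  unfold rect
  rw [intervalIntegral.integral_add ((hf _ (Or.inl rfl)).intervalIntegrable _ _)
      ((hg _ (Or.inl rfl)).intervalIntegrable _ _),
    intervalIntegral.integral_add ((hf _ (Or.inr rfl)).intervalIntegrable _ _)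
      ((hg _ (Or.inr rfl)).intervalIntegrable _ _),
    intervalIntegral.integral_add ((hf' _ (Or.inr rfl)).intervalIntegrable _ _)
      ((hg' _ (Or.inr rfl)).intervalIntegrable _ _),
    intervalIntegral.integral_add ((hf' _ (Or.inl rfl)).intervalIntegrable _ _)
      ((hg' _ (Or.inl rfl)).intervalIntegrable _ _)]
  simp only [smul_eq_mul]
  ring

/-- Cauchy's integral formula for a rectangle. -/
theorem rect_cauchy {g : ℂ → ℂ} (hg : Differentiable ℂ g) {w : ℂ} (h1 : x₀ < w.re) (h2 : w.re < x₁)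
    (h3 : y₀ < w.im) (h4 : w.im < y₁) :
    rect x₀ x₁ y₀ y₁ (fun z => (z - w)⁻¹ * g z) = 2 * Real.pi * I * g w := by
  have hd : Differentiable ℂ (dslope g w) := by
    have := (Complex.differentiableOn_dslope (s := univ) (c := w) univ_mem).2
      hg.differentiableOn
    exact differentiableOn_univ.1 this
  have hneh : ∀ y, y = y₀ ∨ y = y₁ → ∀ x : ℝ, (x : ℂ) + (y : ℝ) * I - w ≠ 0 := by
    rintro y (rfl | rfl) x h
    · have := congrArg Complex.im h; simp at this; linarith
    · have := congrArg Complex.im h; simp at this; linarith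
  have hnev : ∀ x, x = x₀ ∨ x = x₁ → ∀ y : ℝ, ((x : ℝ) : ℂ) + y * I - w ≠ 0 := by
    rintro x (rfl | rfl) y h
    · have := congrArg Complex.re h; simp at this; linarith
    · have := congrArg Complex.re h; simp at this; linarith
  have hsplit : ∀ z, z - w ≠ 0 → (z - w)⁻¹ * g z = dslope g w z + (z - w)⁻¹ * g w := by
    intro z hz
    rw [dslope_of_ne g (sub_ne_zero.1 hz), slope_def_field]
    field_simp
    ring
  have hrw : rect x₀ x₁ y₀ y₁ (fun z => (z - w)⁻¹ * g z) =
      rect x₀ x₁ y₀ y₁ (fun z => dslope g w z + (z - w)⁻¹ * g w) := by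
    unfold rect
    rw [intervalIntegral.integral_congr fun x _ => hsplit _ (hneh y₀ (Or.inl rfl) x),
      intervalIntegral.integral_congr fun x _ => hsplit _ (hneh y₁ (Or.inr rfl) x),
      intervalIntegral.integral_congr fun y _ => hsplit _ (hnev x₁ (Or.inr rfl) y),
      intervalIntegral.integral_congr fun y _ => hsplit _ (hnev x₀ (Or.inl rfl) y)]
  rw [hrw, rect_sub (f := dslope g w) (g := fun z => (z - w)⁻¹ * g w)]
  · rw [rect_eq_zero hd, zero_add]
    have : rect x₀ x₁ y₀ y₁ (fun z => (z - w)⁻¹ * g w) =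
        rect x₀ x₁ y₀ y₁ (fun z => (z - w)⁻¹) * g w := by
      unfold rect
      simp only [intervalIntegral.integral_mul_const, smul_eq_mul]
      ring
    rw [this, rect_inv h1 h2 h3 h4]
  · intro y _
    exact hd.continuous.comp (by fun_prop)
  · intro x _
    exact hd.continuous.comp (by fun_prop)
  · intro y hy
    exact (Continuous.inv₀ (by fun_prop) (hneh y hy)).mul continuous_const
  · intro x hx
    exact (Continuous.inv₀ (by fun_prop) (hnev x hx)).mul continuous_const

end cauchy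

end Pool.Agent.H810R2.CSd
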