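import Mathlib

/-! # Subexponential functions -/

set_option autoImplicit false
set_option maxHeartbeats 4000000

open Filter Topology Asymptotics

namespace Pool.Agent.W190

noncomputable section

/-- `f` grows more slowly than every exponential -/
def SE (f : ℝ → ℝ) : Prop := ∀ δ : ℝ, 0 < δ → ∀ᶠ u in atTop, f u ≤ Real.exp (δ * u)

theorem SE.mono {f g : ℝ → ℝ} (hg : SE g) (h : ∀ᶠ u in atTop, f u ≤ g u) : SE f := by
  intro δ hδ
  filter_upwards [hg δ hδ, h] with u h1 h2
  exact h2.trans h1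

theorem SE.mul {f g : ℝ → ℝ} (hf : SE f) (hg : SE g) (hg0 : ∀ᶠ u in atTop, 0 ≤ g u) :
    SE (fun u => f u * g u) := by
  intro δ hδ
  filter_upwards [hf (δ / 2) (by positivity), hg (δ / 2) (by positivity), hg0] with u h1 h2 h3
  calc f u * g u ≤ Real.exp (δ / 2 * u) * g u := mul_le_mul_of_nonneg_right h1 h3
    _ ≤ Real.exp (δ / 2 * u) * Real.exp (δ / 2 * u) :=
        mul_le_mul_of_nonneg_left h2 (Real.exp_pos _).le
    _ = Real.exp (δ * u) := by rw [← Real.exp_add]; congr 1; ring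

theorem SE.const (c : ℝ) : SE (fun _ => c) := by
  intro δ hδ
  have h : Tendsto (fun u : ℝ => Real.exp (δ * u)) atTop atTop :=
    Real.tendsto_exp_atTop.comp (tendsto_id.const_mul_atTop hδ)
  exact h.eventually_ge_atTop c

theorem SE.add {f g : ℝ → ℝ} (hf : SE f) (hg : SE g) : SE (fun u => f u + g u) := by
  intro δ hδ
  have h : Tendsto (fun u : ℝ => Real.exp (δ / 2 * u)) atTop atTop :=
    Real.tendsto_exp_atTop.comp (tendsto_id.const_mul_atTop (by positivity))
  filter_upwards [hf (δ / 2) (by positivity), hg (δ / 2) (by positivity),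
    h.eventually_ge_atTop 2] with u h1 h2 h3
  calc f u + g u ≤ Real.exp (δ / 2 * u) + Real.exp (δ / 2 * u) := add_le_add h1 h2
    _ = 2 * Real.exp (δ / 2 * u) := by ring
    _ ≤ Real.exp (δ / 2 * u) * Real.exp (δ / 2 * u) :=
        mul_le_mul_of_nonneg_right h3 (Real.exp_pos _).le
    _ = Real.exp (δ * u) := by rw [← Real.exp_add]; congr 1; ring

theorem SE.rpow {f : ℝ → ℝ} (hf : SE f) (hf0 : ∀ᶠ u in atTop, 0 ≤ f u) (k : ℝ) (hk : 0 ≤ k) :
    SE (fun u => f u ^ k) := by
  intro δ hδ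
  filter_upwards [hf (δ / (k + 1)) (by positivity), hf0, eventually_ge_atTop 0] with u h1 h2 h3
  calc f u ^ k ≤ Real.exp (δ / (k + 1) * u) ^ k := Real.rpow_le_rpow h2 h1 hk
    _ = Real.exp (δ / (k + 1) * u * k) := by rw [← Real.exp_mul]
    _ ≤ Real.exp (δ * u) := by
        refine Real.exp_le_exp.2 ?_
        have h4 : k / (k + 1) ≤ 1 := by
          rw [div_le_one (by positivity)]
          linarith
        calc δ / (k + 1) * u * k = (δ * u) * (k / (k + 1)) := by ring
          _ ≤ (δ * u) * 1 := mul_le_mul_of_nonneg_left h4 (by positivity)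
          _ = _ := by ring

theorem SE.pow {f : ℝ → ℝ} (hf : SE f) (hf0 : ∀ᶠ u in atTop, 0 ≤ f u) (k : ℕ) :
    SE (fun u => f u ^ k) := by
  have := hf.rpow hf0 (k : ℝ) (by positivity)
  simpa using this

theorem SE.id_rpow (k : ℝ) : SE (fun u => u ^ k) := by
  intro δ hδ
  have h := (isLittleO_rpow_exp_pos_mul_atTop k hδ).bound (c := 1) one_pos
  filter_upwards [h] with u h1
  rw [one_mul, Real.norm_eq_abs, Real.norm_eq_abs, abs_of_pos (Real.exp_pos _)] at h1
  exact (le_abs_self _).trans h1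

/-- a polynomially bounded function raised to a power of the order `u ^ a'`, `a' < 1` -/
theorem SE.pow_fun {f : ℝ → ℝ} {n : ℝ → ℕ} {A K C a' : ℝ} (hA : 0 < A)
    (hf : ∀ᶠ u in atTop, 0 ≤ f u ∧ f u ≤ A * u ^ K)
    (hn : ∀ᶠ u in atTop, (n u : ℝ) ≤ C * u ^ a') (ha' : a' < 1) :
    SE (fun u => f u ^ n u) := by
  intro δ hδ
  -- `C u^{a'} (|log A| + |K| log u) ≤ δ u`
  have h1 : (fun u : ℝ => C * u ^ a' * (|Real.log A| + |K| * Real.log u)) =o[atTop] fun u : ℝ => u := by
    set b : ℝ := (1 - a') / 2 with hb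
    have hb0 : 0 < b := by rw [hb]; linarith
    have h2 : (fun u : ℝ => |Real.log A| + |K| * Real.log u) =o[atTop] fun u : ℝ => u ^ b := by
      refine IsLittleO.add ?_ ?_
      · refine isLittleO_const_left.2 (Or.inr ?_)
        exact tendsto_norm_atTop_atTop.comp (tendsto_rpow_atTop hb0)
      · exact (isLittleO_log_rpow_atTop hb0).const_mul_left _
    have h3 : (fun u : ℝ => C * u ^ a') =O[atTop] fun u : ℝ => u ^ a' :=
      (isBigO_refl _ _).const_mul_left _
    have h4 := h3.mul_isLittleO h2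
    refine h4.trans_isBigO ?_
    refine IsBigO.of_bound 1 ?_
    filter_upwards [eventually_ge_atTop 1] with u hu
    have hu0 : 0 < u := by linarith
    rw [← Real.rpow_add hu0, Real.norm_eq_abs, Real.norm_eq_abs, abs_of_pos hu0,
      abs_of_pos (Real.rpow_pos_of_pos hu0 _), one_mul]
    calc u ^ (a' + b) ≤ u ^ (1:ℝ) := Real.rpow_le_rpow_of_exponent_le hu (by rw [hb]; linarith)
      _ = u := Real.rpow_one u
  have h5 := h1.bound hδ
  filter_upwards [h5, hf, hn, eventually_ge_atTop 1] with u h6 h7 h8 h9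
  have hu0 : 0 < u := by linarith
  have hlu : 0 ≤ Real.log u := Real.log_nonneg h9
  rw [Real.norm_eq_abs, Real.norm_eq_abs, abs_of_pos hu0] at h6
  set q : ℝ := |Real.log A| + |K| * Real.log u with hq
  have hq0 : 0 ≤ q := by positivity
  have h10 : A * u ^ K ≤ Real.exp q := by
    rw [hq, Real.exp_add]
    have e1 : A ≤ Real.exp |Real.log A| := by
      calc A = Real.exp (Real.log A) := (Real.exp_log hA).symm
        _ ≤ _ := Real.exp_le_exp.2 (le_abs_self _)
    have e2 : u ^ K ≤ Real.exp (|K| * Real.log u) := by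
      rw [Real.rpow_def_of_pos hu0, mul_comm]
      exact Real.exp_le_exp.2 (mul_le_mul_of_nonneg_right (le_abs_self _) hlu)
    exact mul_le_mul e1 e2 (Real.rpow_nonneg hu0.le _) (Real.exp_pos _).le
  calc f u ^ n u ≤ (Real.exp q) ^ n u := pow_le_pow_left₀ h7.1 (h7.2.trans h10) _
    _ = Real.exp (n u * q) := by rw [← Real.exp_nat_mul]
    _ ≤ Real.exp (δ * u) := by
        refine Real.exp_le_exp.2 ?_
        calc (n u : ℝ) * q ≤ C * u ^ a' * q := mul_le_mul_of_nonneg_right h8 hq0
          _ ≤ |C * u ^ a' * q| := le_abs_self _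
          _ ≤ δ * u := h6

end

end Pool.Agent.W190
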