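import Pool.Agent.H19.EW.L.W190_A2

/-! # Perron type representation: the summatory function -/

set_option autoImplicit false

open Complex MeasureTheory Filter Topology Set
open H353 (ln ln_re ln_im ln_cont ln_ne ln_normSq ln_lower)

namespace Pool.Agent.W190

noncomputable section

/-- the summatory function in the logarithmic scale -/
def TT (a : ℕ → ℂ) (v : ℝ) : ℂ := ∑ n ∈ Finset.Icc 1 ⌊Real.exp v⌋₊, a n

/-- the step at `log n` -/
def hv (n : ℕ) (v : ℝ) : ℂ := if Real.log n ≤ v then 1 else 0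

theorem TT_eq (a : ℕ → ℂ) {v B : ℝ} (h : v ≤ B) :
    TT a v = ∑ n ∈ Finset.Icc 1 ⌊Real.exp B⌋₊, a n * hv n v := by
  unfold TT hv
  simp only [mul_ite, mul_one, mul_zero]
  rw [← Finset.sum_filter]
  refine Finset.sum_congr ?_ fun _ _ => rfl
  ext n
  rw [Finset.mem_filter, Finset.mem_Icc, Finset.mem_Icc]
  have hle : Real.exp v ≤ Real.exp B := Real.exp_le_exp.2 h
  constructor
  · rintro ⟨h1, h2⟩
    have h3 : (n : ℝ) ≤ Real.exp v := (Nat.le_floor_iff (Real.exp_pos _).le).1 h2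
    refine ⟨⟨h1, Nat.le_floor (h3.trans hle)⟩, ?_⟩
    have hn : (0:ℝ) < n := by exact_mod_cast h1
    exact (Real.log_le_iff_le_exp hn).2 h3
  · rintro ⟨⟨h1, h2⟩, h3⟩
    have hn : (0:ℝ) < n := by exact_mod_cast h1
    exact ⟨h1, Nat.le_floor ((Real.log_le_iff_le_exp hn).1 h3)⟩

theorem hv_meas (n : ℕ) : Measurable (hv n) :=
  Measurable.ite measurableSet_Ici measurable_const measurable_const

theorem hv_LI (n : ℕ) : LI (hv n) := by
  intro a b
  refine (intervalIntegrable_const (c := (1:ℂ))).mono_fun (hv_meas n).aestronglyMeasurable ?_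
  refine Eventually.of_forall fun v => ?_
  by_cases h : Real.log n ≤ v <;> simp [hv, h]

theorem int_hv (n : ℕ) (w h : ℝ) :
    ∫ v in w..(w + h), hv n v =
      ((max (w + h - Real.log n) 0 : ℝ) : ℂ) - ((max (w - Real.log n) 0 : ℝ) : ℂ) := by
  have hcont : Continuous (fun v : ℝ => ((max (v - Real.log n) 0 : ℝ) : ℂ)) := by fun_prop
  have hder : ∀ v ∈ Ioo (min w (w + h)) (max w (w + h)) \ {Real.log n},
      HasDerivAt (fun v : ℝ => ((max (v - Real.log n) 0 : ℝ) : ℂ)) (hv n v) v := by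
    intro v hv1
    have hne : v ≠ Real.log n := hv1.2
    rcases lt_or_gt_of_ne hne with h1 | h1
    · have e1 : hv n v = 0 := by unfold hv; rw [if_neg (not_le.2 h1)]
      rw [e1]
      refine (hasDerivAt_const v (0:ℂ)).congr_of_eventuallyEq ?_
      filter_upwards [Iio_mem_nhds h1] with x hx
      rw [max_eq_right (by linarith [mem_Iio.1 hx])]
      simp
    · have e1 : hv n v = 1 := by unfold hv; rw [if_pos h1.le]
      rw [e1]
      have h2 : HasDerivAt (fun x : ℝ => ((x : ℂ) - (Real.log n : ℝ))) 1 v :=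
        (Complex.ofRealCLM.hasDerivAt (x := v)).sub_const _
      refine h2.congr_of_eventuallyEq ?_
      filter_upwards [Ioi_mem_nhds h1] with x hx
      rw [max_eq_left (by linarith [mem_Ioi.1 hx])]
      push_cast
      rfl
  have := MeasureTheory.integral_eq_of_hasDerivAt_off_countable
    (f := fun v : ℝ => ((max (v - Real.log n) 0 : ℝ) : ℂ)) (f' := hv n) (a := w) (b := w + h)
    (s := {Real.log n}) (countable_singleton _) hcont.continuousOn hder (hv_LI n _ _)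
  exact this

theorem TT_LI (a : ℕ → ℂ) : LI (TT a) := by
  intro x y
  have h1 : IntervalIntegrable (fun v => ∑ n ∈ Finset.Icc 1 ⌊Real.exp (max x y)⌋₊, a n * hv n v)
      volume x y := by
    have h2 := IntervalIntegrable.sum (Finset.Icc 1 ⌊Real.exp (max x y)⌋₊)
      (f := fun n v => a n * hv n v) (μ := volume) (a := x) (b := y)
      (fun n _ => (hv_LI n x y).const_mul _)
    have e : (fun v => ∑ n ∈ Finset.Icc 1 ⌊Real.exp (max x y)⌋₊, a n * hv n v) =
        ∑ n ∈ Finset.Icc 1 ⌊Real.exp (max x y)⌋₊, fun v => a n * hv n v := by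
      funext v
      simp
    rw [e]
    exact h2
  refine h1.congr ?_
  intro v hv1
  exact (TT_eq a (by
    rw [uIoc, mem_Ioc] at hv1
    exact hv1.2)).symm

variable {a : ℕ → ℂ}

theorem term_norm (ha0 : a 0 = 0) (n : ℕ) (ξ : ℝ) :
    ‖LSeries.term a (ln 2 ξ) n‖ = ‖a n‖ / (n : ℝ) ^ 2 := by
  by_cases hn : n = 0
  · subst hn
    simp [ha0]
  · rw [LSeries.norm_term_eq, if_neg hn, ln_re]
    congr 1
    exact_mod_cast Real.rpow_natCast (n : ℝ) 2

theorem term_cont (n : ℕ) : Continuous (fun ξ => LSeries.term a (ln 2 ξ) n) := by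
  by_cases hn : n = 0
  · subst hn
    simp only [LSeries.term_zero]
    exact continuous_const
  · simp only [LSeries.term_of_ne_zero hn]
    have hnc : (n : ℂ) ≠ 0 := by exact_mod_cast hn
    have := ln_cont 2
    refine continuous_const.div ?_ fun ξ => ?_
    · exact Continuous.const_cpow this (Or.inl hnc)
    · exact (Complex.cpow_ne_zero_iff).2 (Or.inl hnc)

theorem LS_cont (ha0 : a 0 = 0) (hs : Summable fun n : ℕ => ‖a n‖ / (n : ℝ) ^ 2) :
    Continuous (fun ξ => LSeries a (ln 2 ξ)) := by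
  unfold LSeries
  exact continuous_tsum (fun n => term_cont n) hs fun n ξ => (term_norm ha0 n ξ).le

theorem LS_norm (ha0 : a 0 = 0) (hs : Summable fun n : ℕ => ‖a n‖ / (n : ℝ) ^ 2) (ξ : ℝ) :
    ‖LSeries a (ln 2 ξ)‖ ≤ ∑' n : ℕ, ‖a n‖ / (n : ℝ) ^ 2 := by
  unfold LSeries
  exact tsum_of_norm_bounded hs.hasSum fun n => (term_norm ha0 n ξ).le

theorem base_rep (ha0 : a 0 = 0) (hs : Summable fun n : ℕ => ‖a n‖ / (n : ℝ) ^ 2) {h : ℝ}
    (hh : 0 < h) :
    Rep (avg h (TT a)) (fun ξ => LSeries a (ln 2 ξ) * (kap h (ln 2 ξ) * (ln 2 ξ)⁻¹)) := by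
  have hlc := ln_cont 2
  have hl0 : ∀ ξ, ln 2 ξ ≠ 0 := fun ξ => ln_ne 2 ξ (by norm_num)
  have hhc : (h : ℂ) ≠ 0 := by exact_mod_cast hh.ne'
  have hLc := LS_cont ha0 hs
  have hkc := kap_ln_cont h hh
  have hic : Continuous (fun ξ => (ln 2 ξ)⁻¹) := Continuous.inv₀ hlc hl0
  have hki : Integrable (fun ξ => kap h (ln 2 ξ) * (ln 2 ξ)⁻¹) := by
    refine (ln_sq_inv_int.norm.const_mul ((Real.exp (2 * h) + 1) / h)).mono'
      (hkc.mul hic).aestronglyMeasurable (ae_of_all _ fun ξ => ?_)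
    have h1 := kap_norm' h hh (ln 2 ξ) (hl0 ξ)
    rw [ln_re] at h1
    have hn : 0 < ‖ln 2 ξ‖ := norm_pos_iff.2 (hl0 ξ)
    rw [norm_mul, norm_inv, norm_inv, norm_pow]
    calc ‖kap h (ln 2 ξ)‖ * ‖ln 2 ξ‖⁻¹ ≤ (Real.exp (2 * h) + 1) / (‖ln 2 ξ‖ * h) * ‖ln 2 ξ‖⁻¹ :=
          mul_le_mul_of_nonneg_right h1 (by positivity)
      _ = _ := by field_simp
  refine ⟨hLc.mul (hkc.mul hic), mul_int hki hLc _ (LS_norm ha0 hs), fun w => ?_⟩
  -- the summands
  set F : ℕ → ℝ → ℂ := fun n ξ => a n * ((h : ℂ)⁻¹ *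
    (cexp (ln 2 ξ * ((w + h - Real.log n : ℝ) : ℂ)) * ((ln 2 ξ) ^ 2)⁻¹ -
      cexp (ln 2 ξ * ((w - Real.log n : ℝ) : ℂ)) * ((ln 2 ξ) ^ 2)⁻¹)) with hF
  have hFi : ∀ n, Integrable (F n) := by
    intro n
    rw [hF]
    exact (((exp_int ln_sq_inv_cont ln_sq_inv_int _).sub
      (exp_int ln_sq_inv_cont ln_sq_inv_int _)).const_mul _).const_mul _
  have hFint : ∀ n, ∫ ξ, F n ξ = a n * ((h : ℂ)⁻¹ * (((max (w + h - Real.log n) 0 : ℝ) : ℂ) -
      ((max (w - Real.log n) 0 : ℝ) : ℂ))) := by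
    intro n
    rw [hF]
    simp only
    rw [integral_const_mul, integral_const_mul, integral_sub (exp_int ln_sq_inv_cont ln_sq_inv_int _)
      (exp_int ln_sq_inv_cont ln_sq_inv_int _), ramp, ramp]
  have hexp : ∀ (n : ℕ) (x : ℝ), n ≠ 0 → Real.exp (2 * (x - Real.log n)) = Real.exp (2 * x) * (1 / (n:ℝ) ^ 2) := by
    intro n x hn
    have hn0 : (0:ℝ) < n := by exact_mod_cast Nat.pos_of_ne_zero hn
    rw [mul_sub, Real.exp_sub, show (2:ℝ) * Real.log n = Real.log ((n:ℝ) ^ 2) by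
      rw [Real.log_pow]; norm_num, Real.exp_log (by positivity)]
    ring
  have hFn : ∀ n ξ, ‖F n ξ‖ ≤ (‖a n‖ / (n:ℝ) ^ 2) *
      (h⁻¹ * (Real.exp (2 * (w + h)) + Real.exp (2 * w)) * ‖((ln 2 ξ) ^ 2)⁻¹‖) := by
    intro n ξ
    by_cases hn : n = 0
    · subst hn
      rw [hF]
      simp [ha0]
    · rw [hF]
      simp only
      rw [norm_mul, norm_mul, norm_inv, Complex.norm_real, Real.norm_eq_abs, abs_of_pos hh]
      have h1 : ‖cexp (ln 2 ξ * ((w + h - Real.log n : ℝ) : ℂ)) * ((ln 2 ξ) ^ 2)⁻¹ -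
          cexp (ln 2 ξ * ((w - Real.log n : ℝ) : ℂ)) * ((ln 2 ξ) ^ 2)⁻¹‖ ≤
          (Real.exp (2 * (w + h)) + Real.exp (2 * w)) * (1 / (n:ℝ) ^ 2) * ‖((ln 2 ξ) ^ 2)⁻¹‖ := by
        refine (norm_sub_le _ _).trans (le_of_eq ?_)
        rw [norm_mul, norm_mul, norm_exp_ln, norm_exp_ln, hexp n _ hn, hexp n _ hn]
        ring
      calc ‖a n‖ * (h⁻¹ * _) ≤ ‖a n‖ * (h⁻¹ * ((Real.exp (2 * (w + h)) + Real.exp (2 * w)) *
            (1 / (n:ℝ) ^ 2) * ‖((ln 2 ξ) ^ 2)⁻¹‖)) := by gcongr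
        _ = _ := by ring
  have hsum : Summable (fun n => ∫ ξ, ‖F n ξ‖) := by
    refine Summable.of_nonneg_of_le (fun n => integral_nonneg fun _ => norm_nonneg _)
      (fun n => integral_mono (hFi n).norm ((ln_sq_inv_int.norm.const_mul _).const_mul _) (hFn n)) ?_
    simp only [integral_const_mul]
    exact hs.mul_right _
  have key := integral_tsum_of_summable_integral_norm hFi hsum
  have e2 : ∀ ξ, ∑' n, F n ξ = cexp (ln 2 ξ * w) * (LSeries a (ln 2 ξ) * (kap h (ln 2 ξ) * (ln 2 ξ)⁻¹)) := by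
    intro ξ
    rw [LSeries, ← tsum_mul_right, ← tsum_mul_left]
    refine tsum_congr fun n => ?_
    rw [hF]
    simp only
    by_cases hn : n = 0
    · subst hn
      simp [ha0]
    · rw [LSeries.term_of_ne_zero hn]
      have hnc : (n : ℂ) ≠ 0 := by exact_mod_cast hn
      have e3 : ∀ x : ℝ, cexp (ln 2 ξ * ((x - Real.log n : ℝ) : ℂ)) = cexp (ln 2 ξ * x) / (n : ℂ) ^ (ln 2 ξ) := by
        intro x
        rw [Complex.cpow_def_of_ne_zero hnc, ← Complex.exp_sub]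
        congr 1
        rw [← Complex.natCast_log]
        push_cast
        ring
      rw [e3, e3]
      have hl := hl0 ξ
      have hp : (n : ℂ) ^ (ln 2 ξ) ≠ 0 := (Complex.cpow_ne_zero_iff).2 (Or.inl hnc)
      unfold kap
      push_cast
      rw [mul_add, Complex.exp_add]
      field_simp
  simp_rw [hFint, e2] at key
  rw [← key]
  -- the left side
  have hzero : ∀ n ∉ Finset.Icc 1 ⌊Real.exp (w + h)⌋₊, a n * ((h : ℂ)⁻¹ *
      (((max (w + h - Real.log n) 0 : ℝ) : ℂ) - ((max (w - Real.log n) 0 : ℝ) : ℂ))) = 0 := by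
    intro n hn
    by_cases hn0 : n = 0
    · subst hn0
      simp [ha0]
    · rw [Finset.mem_Icc, not_and, not_le] at hn
      have h1 := hn (Nat.one_le_iff_ne_zero.2 hn0)
      have hnp : (0:ℝ) < n := by exact_mod_cast Nat.pos_of_ne_zero hn0
      have h2 : Real.exp (w + h) < n := (Nat.floor_lt (Real.exp_pos _).le).1 h1
      have h3 : w + h < Real.log n := (Real.lt_log_iff_exp_lt hnp).2 h2
      rw [max_eq_right (by linarith), max_eq_right (by linarith)]
      simp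
  rw [tsum_eq_sum hzero]
  unfold avg
  have e4 : ∫ v in w..(w + h), TT a v = ∫ v in w..(w + h),
      ∑ n ∈ Finset.Icc 1 ⌊Real.exp (w + h)⌋₊, a n * hv n v := by
    refine intervalIntegral.integral_congr fun v hv1 => ?_
    rw [uIcc_of_le (by linarith)] at hv1
    exact TT_eq a hv1.2
  rw [e4, intervalIntegral.integral_finsetSum fun n _ => (hv_LI n _ _).const_mul _, Finset.mul_sum]
  refine Finset.sum_congr rfl fun n _ => ?_
  rw [intervalIntegral.integral_const_mul, int_hv n w h]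
  ring

/-- representation of the smoothed sums -/
theorem main_rep (ha0 : a 0 = 0) (hs : Summable fun n : ℕ => ‖a n‖ / (n : ℝ) ^ 2) {h : ℝ}
    (hh : 0 < h) (d : ℝ) (N : ℕ) (L : List ℂ) (w : ℝ) :
    Op h d N L (TT a) w = ∫ ξ, cexp (ln 2 ξ * w) * (sy d L (ln 2 ξ) *
      (kap h (ln 2 ξ) ^ (N + 2) * LSeries a (ln 2 ξ))) := by
  have h1 := ((((base_rep ha0 hs hh).avgs hh N).dif h).shfs d L).eq w
  unfold Op
  rw [h1]
  refine integral_congr_ae (ae_of_all _ fun ξ => ?_)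
  simp only
  have hl : ln 2 ξ ≠ 0 := ln_ne 2 ξ (by norm_num)
  have hhc : (h : ℂ) ≠ 0 := by exact_mod_cast hh.ne'
  have e : (cexp (ln 2 ξ * h) - 1) / h = kap h (ln 2 ξ) * ln 2 ξ := by
    unfold kap
    field_simp
  rw [e, pow_add]
  field_simp

theorem main_int (ha0 : a 0 = 0) (hs : Summable fun n : ℕ => ‖a n‖ / (n : ℝ) ^ 2) {h : ℝ}
    (hh : 0 < h) (d : ℝ) (N : ℕ) (L : List ℂ) (w : ℝ) :
    Integrable (fun ξ => cexp (ln 2 ξ * w) * (sy d L (ln 2 ξ) *
      (kap h (ln 2 ξ) ^ (N + 2) * LSeries a (ln 2 ξ)))) := by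
  have h1 := ((((base_rep ha0 hs hh).avgs hh N).dif h).shfs d L)
  refine (exp_int h1.cont h1.int w).congr (ae_of_all _ fun ξ => ?_)
  simp only
  have hl : ln 2 ξ ≠ 0 := ln_ne 2 ξ (by norm_num)
  have hhc : (h : ℂ) ≠ 0 := by exact_mod_cast hh.ne'
  have e : (cexp (ln 2 ξ * h) - 1) / h = kap h (ln 2 ξ) * ln 2 ξ := by
    unfold kap
    field_simp
  rw [e, pow_add]
  field_simp

end

end Pool.Agent.W190
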