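import Pool.Agent.H19.EW.L.H353R2_K2

/-! # The quotient of the annihilator by `(s-1) ζ(s)` -/

set_option autoImplicit false

open Complex Filter Topology Set Metric
open H353 (FF mu mu_cast FF_anal FF_order_ne_top zeros_finite exists_quot quot_bound FF_lower FF_bound)

namespace Pool.Agent.W190

noncomputable section

/-- one factor -/
def eF (d : ℝ) (ρ s : ℂ) : ℂ := 1 - cexp ((s - ρ) * d)

/-- one factor divided by `s - ρ` -/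
def gF (d : ℝ) (ρ s : ℂ) : ℂ := dslope (eF d ρ) ρ s

theorem eF_diff (d : ℝ) (ρ : ℂ) : Differentiable ℂ (eF d ρ) := by
  unfold eF
  fun_prop

theorem eF_self (d : ℝ) (ρ : ℂ) : eF d ρ ρ = 0 := by simp [eF]

theorem eF_eq (d : ℝ) (ρ s : ℂ) : eF d ρ s = (s - ρ) * gF d ρ s := by
  have := sub_smul_dslope (eF d ρ) ρ s
  rw [eF_self, sub_zero, smul_eq_mul] at this
  exact this.symm

theorem gF_diff (d : ℝ) (ρ : ℂ) : Differentiable ℂ (gF d ρ) := by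
  have h := (Complex.differentiableOn_dslope (s := univ) (c := ρ) univ_mem).2
    (eF_diff d ρ).differentiableOn
  exact differentiableOn_univ.1 h

theorem gF_self (d : ℝ) (ρ : ℂ) : gF d ρ ρ = -d := by
  unfold gF
  rw [dslope_same]
  have h : HasDerivAt (eF d ρ) (-(cexp ((ρ - ρ) * d) * (1 * d))) ρ := by
    unfold eF
    exact ((((hasDerivAt_id ρ).sub_const ρ).mul_const (d : ℂ)).cexp).const_sub 1
  rw [h.deriv]
  simp

theorem exp_sub_one_lower (z : ℂ) (hz : ‖z‖ ≤ 1 / 2) : ‖z‖ / 2 ≤ ‖cexp z - 1‖ := by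
  have h1 := norm_exp_sub_one_sub_id_le (x := z) (by linarith)
  have h2 : ‖z‖ ≤ ‖cexp z - 1‖ + ‖cexp z - 1 - z‖ := by
    have := norm_sub_le (cexp z - 1) (cexp z - 1 - z)
    have e : (cexp z - 1) - (cexp z - 1 - z) = z := by ring
    rwa [e] at this
  have := norm_nonneg z
  nlinarith

theorem eF_lower {d : ℝ} (hd : 0 < d) {ρ s : ℂ} (h : ‖s - ρ‖ * d ≤ 1 / 2) :
    d / 2 * ‖s - ρ‖ ≤ ‖eF d ρ s‖ := by
  have hn : ‖(s - ρ) * (d : ℂ)‖ = ‖s - ρ‖ * d := by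
    rw [norm_mul, Complex.norm_real, Real.norm_eq_abs, abs_of_pos hd]
  have h1 := exp_sub_one_lower ((s - ρ) * d) (by rw [hn]; exact h)
  rw [hn] at h1
  unfold eF
  rw [norm_sub_rev 1 _]
  linarith

theorem eF_upper {d : ℝ} (ρ s : ℂ) (h : (s.re - ρ.re) * d ≤ 1 / 2) : ‖eF d ρ s‖ ≤ 3 := by
  unfold eF
  refine (norm_sub_le _ _).trans ?_
  rw [norm_one, Complex.norm_exp, Complex.re_mul_ofReal, Complex.sub_re]
  have h1 : Real.exp ((s.re - ρ.re) * d) ≤ Real.exp 1 := Real.exp_le_exp.2 (by linarith)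
  have h2 : Real.exp ((s.re - ρ.re) * d) ≤ Real.exp (1 / 2) := Real.exp_le_exp.2 h
  have h3 : Real.exp (1 / 2) ≤ 2 := by
    have h4 : Real.exp (1 / 2) * Real.exp (1 / 2) = Real.exp 1 := by
      rw [← Real.exp_add]; norm_num
    have h5 := Real.exp_one_lt_d9
    have h6 := Real.exp_pos (1 / 2)
    nlinarith
  linarith

theorem gF_lower {d : ℝ} (hd : 0 < d) {ρ s : ℂ} (h : ‖s - ρ‖ * d ≤ 1 / 2) :
    d / 2 ≤ ‖gF d ρ s‖ := by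
  by_cases hs : s = ρ
  · rw [hs, gF_self, norm_neg, Complex.norm_real, Real.norm_eq_abs, abs_of_pos hd]
    linarith
  · have h1 := eF_lower hd h
    rw [eF_eq, norm_mul] at h1
    have h2 : 0 < ‖s - ρ‖ := norm_pos_iff.2 (sub_ne_zero.2 hs)
    nlinarith

/-- product over a finite set of points -/
def PZ (d : ℝ) (Z : Finset ℂ) (e : ℂ → ℕ) (s : ℂ) : ℂ := ∏ ρ ∈ Z, eF d ρ s ^ e ρ

theorem PZ_diff (d : ℝ) (Z : Finset ℂ) (e : ℂ → ℕ) : Differentiable ℂ (PZ d Z e) := by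
  unfold PZ
  have := fun ρ => eF_diff d ρ
  fun_prop

/-- the part of the annihilator for the exponentials `exp (k v)`, `k = 1, …, D + 1`, divided by `s - 1` -/
def RD (d : ℝ) (D : ℕ) (s : ℂ) : ℂ := gF d 1 s * ∏ k ∈ Finset.range D, eF d ((k + 2 : ℕ) : ℂ) s

theorem RD_diff (d : ℝ) (D : ℕ) : Differentiable ℂ (RD d D) := by
  unfold RD
  have := fun ρ => eF_diff d ρ
  have := gF_diff d 1
  fun_prop

/-- the numerator -/
def Kq (d : ℝ) (Z : Finset ℂ) (e : ℂ → ℕ) (D : ℕ) (B : ℂ → ℂ) (ρ₀ s : ℂ) : ℂ :=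
  (s - ρ₀) * PZ d Z e s * (B s * RD d D s)

theorem Kq_diff (d : ℝ) (Z : Finset ℂ) (e : ℂ → ℕ) (D : ℕ) (B : ℂ → ℂ) (ρ₀ : ℂ)
    (hB : Differentiable ℂ B) : Differentiable ℂ (Kq d Z e D B ρ₀) := by
  unfold Kq
  have := PZ_diff d Z e
  have := RD_diff d D
  fun_prop

theorem PZ_split (d : ℝ) (Z : Finset ℂ) (e : ℂ → ℕ) (ρ : ℂ) (hρ : ρ ∈ Z) (s : ℂ) :
    PZ d Z e s = (s - ρ) ^ e ρ * (gF d ρ s ^ e ρ * PZ d (Z.erase ρ) e s) := by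
  classical
  unfold PZ
  rw [← Finset.mul_prod_erase Z _ hρ, eF_eq, mul_pow]
  ring

theorem order_ge {f g : ℂ → ℂ} (hf : Differentiable ℂ f) (hg : Differentiable ℂ g) (ρ : ℂ) (n : ℕ)
    (h : ∀ s, f s = (s - ρ) ^ n * g s) : (n : ℕ∞) ≤ analyticOrderAt f ρ := by
  rw [natCast_le_analyticOrderAt (hf.analyticAt ρ)]
  exact ⟨g, hg.analyticAt ρ, Eventually.of_forall fun s => by rw [h s, smul_eq_mul]⟩

theorem PZ_order (d : ℝ) (Z : Finset ℂ) (e : ℂ → ℕ) (ρ : ℂ) (hρ : ρ ∈ Z) :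
    (e ρ : ℕ∞) ≤ analyticOrderAt (PZ d Z e) ρ := by
  classical
  refine order_ge (PZ_diff d Z e) (g := fun s => gF d ρ s ^ e ρ * PZ d (Z.erase ρ) e s) ?_ ρ (e ρ)
    (PZ_split d Z e ρ hρ)
  have := gF_diff d ρ
  have := PZ_diff d (Z.erase ρ) e
  fun_prop

/-- existence of the quotient -/
theorem exists_Q (d : ℝ) (Z : Finset ℂ) (e : ℂ → ℕ) (D : ℕ) (B : ℂ → ℂ) (ρ₀ : ℂ)
    (hB : Differentiable ℂ B) (U : Set ℂ) (hZ : ∀ ρ ∈ U, FF ρ = 0 → ρ ∈ Z)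
    (he : ∀ ρ, ρ ≠ ρ₀ → e ρ = mu ρ) (b : ℕ) (hb : (b : ℕ∞) ≤ analyticOrderAt B ρ₀)
    (heb : mu ρ₀ = 1 + e ρ₀ + b) :
    ∃ Q : ℂ → ℂ, (∀ z ∈ U, AnalyticAt ℂ Q z) ∧ ∀ s ∈ U, Kq d Z e D B ρ₀ s = FF s * Q s := by
  refine exists_quot U FF (Kq d Z e D B ρ₀) ZU.J_g2b.FF_diff (Kq_diff d Z e D B ρ₀ hB)
    FF_order_ne_top ?_
  intro ρ hρU hρ
  have hρZ := hZ ρ hρU hρ
  have hPZ := PZ_order d Z e ρ hρZ
  have a1 : AnalyticAt ℂ (fun s => (s - ρ₀)) ρ := by fun_prop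
  have a2 : AnalyticAt ℂ (PZ d Z e) ρ := (PZ_diff d Z e).analyticAt ρ
  have a3 : AnalyticAt ℂ B ρ := hB.analyticAt ρ
  have a4 : AnalyticAt ℂ (RD d D) ρ := (RD_diff d D).analyticAt ρ
  have e1 : Kq d Z e D B ρ₀ = ((fun s => (s - ρ₀)) * PZ d Z e) * (B * RD d D) := by
    funext s
    rfl
  rw [e1, analyticOrderAt_mul (a1.mul a2) (a3.mul a4), analyticOrderAt_mul a1 a2,
    analyticOrderAt_mul a3 a4, ← mu_cast]
  by_cases h : ρ = ρ₀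
  · subst h
    have h1 : (1 : ℕ∞) ≤ analyticOrderAt (fun s => (s - ρ)) ρ := by
      exact_mod_cast order_ge (f := fun s => s - ρ) (g := fun _ => 1) (by fun_prop) (by fun_prop) ρ 1
        (fun s => by ring)
    rw [heb]
    push_cast
    calc (1 : ℕ∞) + e ρ + b ≤ analyticOrderAt (fun s => (s - ρ)) ρ + analyticOrderAt (PZ d Z e) ρ +
          (analyticOrderAt B ρ + 0) := by
          rw [add_zero]
          exact add_le_add (add_le_add h1 hPZ) hb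
      _ ≤ _ := by
          gcongr
          exact zero_le
  · rw [← he ρ h]
    calc ((e ρ : ℕ) : ℕ∞) ≤ analyticOrderAt (PZ d Z e) ρ := hPZ
      _ ≤ analyticOrderAt (fun s => (s - ρ₀)) ρ + analyticOrderAt (PZ d Z e) ρ := le_add_self
      _ ≤ _ := le_self_add

/-- value of the quotient at `ρ₀` -/
theorem Q_value (d : ℝ) (hd : 0 < d) (Z : Finset ℂ) (e : ℂ → ℕ) (D : ℕ) (B : ℂ → ℂ) (ρ₀ : ℂ)
    (U : Set ℂ) (hU : IsOpen U) (hρU : ρ₀ ∈ U) (hρZ : ρ₀ ∈ Z) (b : ℕ) (heb : mu ρ₀ = 1 + e ρ₀ + b)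
    (F1 B1 : ℂ → ℂ) (hF1 : AnalyticAt ℂ F1 ρ₀) (hB1 : AnalyticAt ℂ B1 ρ₀)
    (hF : ∀ᶠ z in 𝓝 ρ₀, FF z = (z - ρ₀) ^ mu ρ₀ • F1 z)
    (hBB : ∀ᶠ z in 𝓝 ρ₀, B z = (z - ρ₀) ^ b • B1 z)
    (Q : ℂ → ℂ) (hQ : ∀ z ∈ U, AnalyticAt ℂ Q z) (hQe : ∀ s ∈ U, Kq d Z e D B ρ₀ s = FF s * Q s) :
    d ^ e ρ₀ * ‖PZ d (Z.erase ρ₀) e ρ₀‖ * (‖B1 ρ₀‖ * ‖RD d D ρ₀‖) = ‖F1 ρ₀‖ * ‖Q ρ₀‖ := by
  classical
  set X : ℂ → ℂ := fun s => (gF d ρ₀ s ^ e ρ₀ * PZ d (Z.erase ρ₀) e s) * (B1 s * RD d D s) with hX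
  set Y : ℂ → ℂ := fun s => F1 s * Q s with hY
  have hev : ∀ᶠ z in 𝓝[≠] ρ₀, X z = Y z := by
    have h1 : ∀ᶠ z in 𝓝[≠] ρ₀, FF z = (z - ρ₀) ^ mu ρ₀ • F1 z := nhdsWithin_le_nhds hF
    have h2 : ∀ᶠ z in 𝓝[≠] ρ₀, B z = (z - ρ₀) ^ b • B1 z := nhdsWithin_le_nhds hBB
    have h3 : ∀ᶠ z in 𝓝[≠] ρ₀, z ∈ U := nhdsWithin_le_nhds (hU.mem_nhds hρU)
    filter_upwards [h1, h2, h3, self_mem_nhdsWithin] with z z1 z2 z3 z4
    have h5 := hQe z z3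
    unfold Kq at h5
    rw [PZ_split d Z e ρ₀ hρZ, z1, z2, heb] at h5
    simp only [smul_eq_mul] at h5
    have h6 : (z - ρ₀) ^ (1 + e ρ₀ + b) ≠ 0 := pow_ne_zero _ (sub_ne_zero.2 z4)
    apply mul_left_cancel₀ h6
    rw [hX, hY]
    simp only
    rw [pow_add, pow_add, pow_one] at h5 ⊢
    linear_combination h5
  have c1 : Tendsto X (𝓝[≠] ρ₀) (𝓝 (X ρ₀)) := by
    have a1 := (gF_diff d ρ₀).continuous
    have a2 := (PZ_diff d (Z.erase ρ₀) e).continuous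
    have a3 := (RD_diff d D).continuous
    have : ContinuousAt X ρ₀ :=
      (((a1.pow _).mul a2).continuousAt).mul (hB1.continuousAt.mul a3.continuousAt)
    exact this.tendsto.mono_left nhdsWithin_le_nhds
  have c2 : Tendsto Y (𝓝[≠] ρ₀) (𝓝 (Y ρ₀)) := by
    have : ContinuousAt Y ρ₀ := hF1.continuousAt.mul (hQ ρ₀ hρU).continuousAt
    exact this.tendsto.mono_left nhdsWithin_le_nhds
  have hXY : X ρ₀ = Y ρ₀ := tendsto_nhds_unique (c1.congr' hev) c2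
  have := congrArg norm hXY
  rw [hX, hY] at this
  simp only [norm_mul, norm_pow, gF_self, norm_neg, Complex.norm_real, Real.norm_eq_abs,
    abs_of_pos hd] at this
  exact this

end

end Pool.Agent.W190
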