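import Pool.Agent.H19.EW.L.W190_A5

/-! # Bounds for the quotient -/

set_option autoImplicit false

open Complex Filter Topology Set Metric
open H353 (FF mu mu_cast FF_anal FF_order_ne_top zeros_finite exists_quot quot_bound FF_lower FF_bound)

namespace Pool.Agent.W190

noncomputable section

theorem PZ_lower {d c₀ : ℝ} (hd : 0 < d) (hc : 0 < c₀) (Z : Finset ℂ) (e : ℂ → ℕ) (s : ℂ)
    (h : ∀ ρ ∈ Z, c₀ ≤ ‖s - ρ‖ ∧ ‖s - ρ‖ * d ≤ 1 / 2) :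
    (d / 2 * c₀) ^ (∑ ρ ∈ Z, e ρ) ≤ ‖PZ d Z e s‖ := by
  unfold PZ
  rw [norm_prod, ← Finset.prod_pow_eq_pow_sum]
  refine Finset.prod_le_prod (fun ρ _ => by positivity) fun ρ hρ => ?_
  rw [norm_pow]
  refine pow_le_pow_left₀ (by positivity) ?_ _
  obtain ⟨h1, h2⟩ := h ρ hρ
  exact (mul_le_mul_of_nonneg_left h1 (by positivity)).trans (eF_lower hd h2)

theorem PZ_upper {d : ℝ} (Z : Finset ℂ) (e : ℂ → ℕ) (s : ℂ)
    (h : ∀ ρ ∈ Z, (s.re - ρ.re) * d ≤ 1 / 2) : ‖PZ d Z e s‖ ≤ 3 ^ (∑ ρ ∈ Z, e ρ) := by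
  unfold PZ
  rw [norm_prod, ← Finset.prod_pow_eq_pow_sum]
  refine Finset.prod_le_prod (fun ρ _ => norm_nonneg _) fun ρ hρ => ?_
  rw [norm_pow]
  exact pow_le_pow_left₀ (norm_nonneg _) (eF_upper ρ s (h ρ hρ)) _

theorem RD_lower {d : ℝ} (hd : 0 < d) (hd1 : d ≤ 1) (D : ℕ) (s : ℂ) (hs : s.re < 1)
    (h : (‖s‖ + (D + 1)) * d ≤ 1 / 2) : (d / 2) ^ (D + 1) ≤ ‖RD d D s‖ := by
  unfold RD
  rw [norm_mul, norm_prod, pow_succ, mul_comm]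
  have hk : ∀ k : ℕ, k ≤ D + 1 → ‖s - (k : ℂ)‖ * d ≤ 1 / 2 := by
    intro k hk
    refine le_trans ?_ h
    refine mul_le_mul_of_nonneg_right ?_ hd.le
    refine (norm_sub_le _ _).trans ?_
    rw [Complex.norm_natCast]
    have : (k : ℝ) ≤ (D : ℝ) + 1 := by exact_mod_cast hk
    linarith
  refine mul_le_mul ?_ ?_ (by positivity) (norm_nonneg _)
  · have := hk 1 (by omega)
    rw [Nat.cast_one] at this
    exact gF_lower hd this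
  · have e1 : (d / 2) ^ D = ∏ _k ∈ Finset.range D, (d / 2) := by
      rw [Finset.prod_const, Finset.card_range]
    rw [e1]
    refine Finset.prod_le_prod (fun _ _ => by positivity) fun k hk' => ?_
    rw [Finset.mem_range] at hk'
    have h1 := eF_lower hd (hk (k + 2) (by omega))
    refine le_trans ?_ h1
    have h2 : 1 ≤ ‖s - ((k + 2 : ℕ) : ℂ)‖ := by
      have h3 := Complex.abs_re_le_norm (s - ((k + 2 : ℕ) : ℂ))
      have h4 : (s - ((k + 2 : ℕ) : ℂ)).re = s.re - (k + 2) := by simp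
      rw [h4] at h3
      have h5 : (0:ℝ) ≤ k := Nat.cast_nonneg k
      have h6 := neg_abs_le (s.re - (k + 2))
      linarith
    have : 0 < d / 2 := by positivity
    nlinarith

theorem gF_upper {d : ℝ} (hd : 0 < d) {ρ s : ℂ} (h : ‖s - ρ‖ * d ≤ 1) : ‖gF d ρ s‖ ≤ 2 * d := by
  by_cases hs : s = ρ
  · rw [hs, gF_self, norm_neg, Complex.norm_real, Real.norm_eq_abs, abs_of_pos hd]
    linarith
  · have h2 : 0 < ‖s - ρ‖ := norm_pos_iff.2 (sub_ne_zero.2 hs)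
    have hn : ‖(s - ρ) * (d : ℂ)‖ = ‖s - ρ‖ * d := by
      rw [norm_mul, Complex.norm_real, Real.norm_eq_abs, abs_of_pos hd]
    have h1 := Complex.norm_exp_sub_one_le (x := (s - ρ) * d) (by rw [hn]; exact h)
    rw [hn, norm_sub_rev] at h1
    have h3 : ‖eF d ρ s‖ ≤ 2 * (‖s - ρ‖ * d) := h1
    rw [eF_eq, norm_mul] at h3
    have h4 : ‖s - ρ‖ * ‖gF d ρ s‖ ≤ ‖s - ρ‖ * (2 * d) := by linarith
    exact le_of_mul_le_mul_left h4 h2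

theorem RD_upper {d : ℝ} (hd : 0 < d) (hd1 : 2 * d ≤ 1) (D : ℕ) (s : ℂ)
    (h1 : ‖s - 1‖ * d ≤ 1) (h2 : s.re * d ≤ 1 / 2) : ‖RD d D s‖ ≤ 3 ^ D := by
  unfold RD
  rw [norm_mul, norm_prod]
  have e1 : (3:ℝ) ^ D = 1 * ∏ _k ∈ Finset.range D, (3:ℝ) := by simp
  rw [e1]
  refine mul_le_mul ((gF_upper hd h1).trans hd1) ?_
    (Finset.prod_nonneg fun _ _ => norm_nonneg _) zero_le_one
  refine Finset.prod_le_prod (fun _ _ => norm_nonneg _) fun k _ => ?_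
  refine eF_upper _ _ ?_
  have h5 : (0:ℝ) ≤ k := Nat.cast_nonneg k
  have h6 : (((k + 2 : ℕ) : ℂ)).re = (k : ℝ) + 2 := by simp
  rw [h6, sub_mul]
  have : 0 ≤ ((k:ℝ) + 2) * d := by positivity
  linarith

/-- the full annihilator divided by `(s - 1) ζ(s)` -/
theorem PZ_quot {σ θ d T1 : ℝ} (hσ : 1 / 2 ≤ σ) (hθ : σ < θ) (hθ1 : θ < 1) (hd : 0 < d) (hd1 : 8 * d ≤ 1)
    (Z : Finset ℂ) (hZ : ∀ ρ, FF ρ = 0 → σ ≤ ρ.re → |ρ.im| ≤ T1 → ρ ∈ Z) (hZre : ∀ ρ ∈ Z, 0 ≤ ρ.re)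
    (v : ℂ) (hv : θ ≤ v.re) (hv2 : v.re ≤ 2) (hvi : |v.im| + 2 ≤ T1) :
    ‖PZ d Z mu v‖ ≤ ‖FF v‖ * (3 ^ (∑ ρ ∈ Z, mu ρ) *
      (2 * (2 * ((1 + 2 / σ) * (5 + |v.im|) ^ 2)) ^ (2 * (2 - θ) / (θ - σ)))) := by
  classical
  set n := ∑ ρ ∈ Z, mu ρ with hn
  set c : ℂ := 2 + v.im * I with hc
  have hcre : c.re = 2 := by simp [hc]
  have hcim : c.im = v.im := by simp [hc]
  have hcn : ‖c‖ ≤ 2 + |v.im| := by
    have := Complex.norm_le_abs_re_add_abs_im c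
    rw [hcre, hcim] at this
    simpa using this
  set M : ℝ := (1 + 2 / σ) * (5 + |v.im|) ^ 2 with hM
  have hσ0 : 0 < σ := by linarith
  have habs := abs_nonneg v.im
  have hfin := zeros_finite (closedBall c (2 - σ)) (isCompact_closedBall c (2 - σ))
  have hFc : 1 / 2 ≤ ‖FF c‖ := FF_lower c (by rw [hcre])
  have hFc0 : 0 < ‖FF c‖ := by linarith
  have hre : ∀ w : ℂ, ∀ R : ℝ, w ∈ closedBall c R → 2 - R ≤ w.re ∧ w.re ≤ 2 + R ∧ |w.im - v.im| ≤ R := by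
    intro w R hw
    rw [mem_closedBall, dist_eq_norm] at hw
    have h1 := (Complex.abs_re_le_norm (w - c)).trans hw
    have h2 := (Complex.abs_im_le_norm (w - c)).trans hw
    rw [Complex.sub_re, hcre] at h1
    rw [Complex.sub_im, hcim] at h2
    exact ⟨by linarith [(abs_le.1 h1).1], by linarith [(abs_le.1 h1).2], h2⟩
  have h3n : (0:ℝ) < 3 ^ n := by positivity
  set K : ℂ → ℂ := fun s => ((3 ^ n : ℝ) : ℂ)⁻¹ * PZ d Z mu s with hK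
  have hKd : Differentiable ℂ K := by
    rw [hK]
    exact (PZ_diff d Z mu).const_mul _
  have hKn : ∀ s, ‖K s‖ = ‖PZ d Z mu s‖ / 3 ^ n := by
    intro s
    rw [hK]
    simp only
    rw [norm_mul, norm_inv, Complex.norm_real, Real.norm_eq_abs, abs_of_pos h3n]
    ring
  have hZmem : ∀ ρ, FF ρ = 0 → ρ ∈ closedBall c (2 - σ) → ρ ∈ Z := by
    intro ρ h0 hρ
    obtain ⟨h1, _, h3⟩ := hre ρ _ hρ
    refine hZ ρ h0 (by linarith) ?_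
    have h4 : |ρ.im| ≤ |ρ.im - v.im| + |v.im| := by
      have := abs_add_le (ρ.im - v.im) v.im
      simpa using this
    linarith
  have key := quot_bound univ isOpen_univ FF K (ZU.J_g2b.FF_diff.differentiableOn)
    hKd.differentiableOn c (2 - θ) (2 - σ) (2 - σ / 2) M (by linarith)
    (by linarith) (by linarith) (subset_univ _) ?_ ?_ (by rw [← norm_pos_iff]; exact hFc0)
    hfin.toFinset mu ?_ ?_ ?_ ?_ v ?_
  · have hMpos : 1 ≤ 2 * M := by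
      have : (1:ℝ) ≤ 1 + 2 / σ := by
        have : 0 < 2 / σ := by positivity
        linarith
      rw [hM]
      nlinarith [habs, mul_nonneg habs habs]
    have hlog : Real.log (M / ‖FF c‖) ≤ Real.log (2 * M) := by
      have hMp : 0 < M := by linarith
      refine Real.log_le_log (by positivity) ?_
      rw [div_le_iff₀ hFc0]
      nlinarith
    have hexp : Real.exp (2 * Real.log (M / ‖FF c‖) * (2 - θ) / (2 - σ - (2 - θ))) ≤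
        (2 * M) ^ (2 * (2 - θ) / (θ - σ)) := by
      rw [Real.rpow_def_of_pos (by linarith)]
      refine Real.exp_le_exp.2 ?_
      have e1 : 2 - σ - (2 - θ) = θ - σ := by ring
      rw [e1]
      have hk : 0 ≤ 2 * (2 - θ) / (θ - σ) := div_nonneg (by linarith) (by linarith)
      calc 2 * Real.log (M / ‖FF c‖) * (2 - θ) / (θ - σ)
          = Real.log (M / ‖FF c‖) * (2 * (2 - θ) / (θ - σ)) := by ring
        _ ≤ Real.log (2 * M) * (2 * (2 - θ) / (θ - σ)) := mul_le_mul_of_nonneg_right hlog hk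
    have hF0 := norm_nonneg (FF v)
    have hP : 0 ≤ (2 * M) ^ (2 * (2 - θ) / (θ - σ)) := Real.rpow_nonneg (by linarith) _
    have hKn0 := norm_nonneg (K v)
    have step : ‖K v‖ * (1 / 2) ≤ ‖FF v‖ * (2 * M) ^ (2 * (2 - θ) / (θ - σ)) :=
      calc ‖K v‖ * (1 / 2) ≤ ‖K v‖ * ‖FF c‖ := mul_le_mul_of_nonneg_left hFc hKn0
        _ ≤ _ := key
        _ ≤ _ := mul_le_mul_of_nonneg_left hexp hF0
    rw [hKn v, div_mul_eq_mul_div, div_le_iff₀ h3n] at step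
    nlinarith
  · intro w hw
    obtain ⟨h1, h2, h3⟩ := hre w _ (sphere_subset_closedBall hw)
    have h4 := FF_bound (σ / 2) (by positivity) w (by linarith)
    refine h4.trans ?_
    rw [hM]
    have h5 : ‖w‖ ≤ 4 + |v.im| := by
      have e1 : ‖w‖ ≤ ‖w - c‖ + ‖c‖ := by
        have := norm_add_le (w - c) c
        simpa using this
      rw [mem_sphere, dist_eq_norm] at hw
      linarith
    have h6 : (1:ℝ) / (σ / 2) = 2 / σ := by field_simp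
    rw [h6]
    have h7 : (1 + ‖w‖) ^ 2 ≤ (5 + |v.im|) ^ 2 :=
      pow_le_pow_left₀ (by positivity) (by linarith) 2
    have : 0 < 2 / σ := by positivity
    exact mul_le_mul_of_nonneg_left h7 (by linarith)
  · intro w hw
    obtain ⟨h1, h2, h3⟩ := hre w _ (sphere_subset_closedBall hw)
    rw [hKn, div_le_one h3n]
    refine PZ_upper Z mu w fun ρ hρ => ?_
    have := hZre ρ hρ
    nlinarith
  · intro ρ hρ
    rw [Set.Finite.mem_toFinset] at hρ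
    exact hρ.2
  · intro ρ _
    exact mu_cast ρ
  · intro ρ hρ
    rw [Set.Finite.mem_toFinset] at hρ
    have hρZ := hZmem ρ hρ.1 hρ.2
    have a1 : AnalyticAt ℂ (fun _ : ℂ => ((3 ^ n : ℝ) : ℂ)⁻¹) ρ := analyticAt_const
    have a2 : AnalyticAt ℂ (PZ d Z mu) ρ := (PZ_diff d Z mu).analyticAt ρ
    have e1 : K = (fun _ : ℂ => ((3 ^ n : ℝ) : ℂ)⁻¹) * PZ d Z mu := rfl
    rw [e1, analyticOrderAt_mul a1 a2]
    exact (PZ_order d Z mu ρ hρZ).trans le_add_self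
  · intro w hw hwS h0
    exact hwS (by rw [Set.Finite.mem_toFinset]; exact ⟨h0, hw⟩)
  · rw [mem_closedBall, Complex.dist_eq_re_im, hcre, hcim, sub_self]
    rw [zero_pow two_ne_zero, add_zero, Real.sqrt_sq_eq_abs, abs_of_nonpos (by linarith)]
    linarith

/-- upper bound for the quotient away from the zeros -/
theorem Q_base {σ θ d T1 : ℝ} (hσ : 1 / 2 ≤ σ) (hθ : σ < θ) (hθ1 : θ < 1) (hd : 0 < d) (hd1 : 8 * d ≤ 1)
    (Z : Finset ℂ) (hZ : ∀ ρ, FF ρ = 0 → σ ≤ ρ.re → |ρ.im| ≤ T1 → ρ ∈ Z) (hZre : ∀ ρ ∈ Z, 0 ≤ ρ.re)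
    (e : ℂ → ℕ) (D : ℕ) (B : ℂ → ℂ) (ρ₀ : ℂ) (hρZ : ρ₀ ∈ Z) (b : ℕ) (heb : mu ρ₀ = 1 + e ρ₀ + b)
    (he : ∀ ρ, ρ ≠ ρ₀ → e ρ = mu ρ) (Q : ℂ → ℂ)
    (r CB : ℝ) (hr : 0 < r) (v : ℂ) (hQe : Kq d Z e D B ρ₀ v = FF v * Q v)
    (hv : θ ≤ v.re) (hv2 : v.re ≤ 2) (hvi : |v.im| + 2 ≤ T1)
    (hvr : r ≤ ‖v - ρ₀‖) (hvd : ‖v - ρ₀‖ * d ≤ 1 / 2) (hvd1 : ‖v - 1‖ * d ≤ 1) (hBv : ‖B v‖ ≤ CB)
    (hF : FF v ≠ 0) :
    ‖Q v‖ ≤ 2 / d * (2 / (d * r)) ^ b * (3 ^ (∑ ρ ∈ Z, mu ρ) *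
      (2 * (2 * ((1 + 2 / σ) * (5 + |v.im|) ^ 2)) ^ (2 * (2 - θ) / (θ - σ)))) * (CB * 3 ^ D) := by
  classical
  have h1 := PZ_quot hσ hθ hθ1 hd hd1 Z hZ hZre v hv hv2 hvi
  set M := (3 ^ (∑ ρ ∈ Z, mu ρ) *
      (2 * (2 * ((1 + 2 / σ) * (5 + |v.im|) ^ 2)) ^ (2 * (2 - θ) / (θ - σ)))) with hM
  have hFp : 0 < ‖FF v‖ := norm_pos_iff.2 hF
  have hn : 0 < ‖v - ρ₀‖ := hr.trans_le hvr
  have h2 := eF_lower hd hvd
  have hE : 0 < ‖eF d ρ₀ v‖ := lt_of_lt_of_le (by positivity) h2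
  -- comparison of the two products
  have h3 : PZ d Z e v * eF d ρ₀ v ^ (1 + b) = PZ d Z mu v := by
    unfold PZ
    rw [← Finset.mul_prod_erase Z _ hρZ, ← Finset.mul_prod_erase Z (fun ρ => eF d ρ v ^ mu ρ) hρZ, heb]
    have e1 : ∏ ρ ∈ Z.erase ρ₀, eF d ρ v ^ e ρ = ∏ ρ ∈ Z.erase ρ₀, eF d ρ v ^ mu ρ :=
      Finset.prod_congr rfl fun ρ hρ => by rw [he ρ (Finset.ne_of_mem_erase hρ)]
    rw [e1]
    ring
  have h4 : ‖PZ d Z e v‖ * ‖eF d ρ₀ v‖ ^ (1 + b) ≤ ‖FF v‖ * M := by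
    rw [← norm_pow, ← norm_mul, h3]
    exact h1
  have h5 : ‖FF v‖ * ‖Q v‖ = ‖v - ρ₀‖ * ‖PZ d Z e v‖ * (‖B v‖ * ‖RD d D v‖) := by
    rw [← norm_mul, ← hQe]
    unfold Kq
    simp only [norm_mul]
  have h6 : ‖RD d D v‖ ≤ 3 ^ D := RD_upper hd (by linarith) D v hvd1 (by nlinarith)
  -- `‖v - ρ₀‖ ≤ (2/d) ‖E‖`, `1 ≤ (2/(d r)) ‖E‖`
  have h7 : ‖v - ρ₀‖ ≤ 2 / d * ‖eF d ρ₀ v‖ := by
    rw [div_mul_eq_mul_div, le_div_iff₀ hd]
    linarith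
  have h8 : 1 ≤ 2 / (d * r) * ‖eF d ρ₀ v‖ := by
    rw [div_mul_eq_mul_div, le_div_iff₀ (by positivity)]
    nlinarith
  have h9 : ‖v - ρ₀‖ * ‖PZ d Z e v‖ ≤ 2 / d * (2 / (d * r)) ^ b * (‖FF v‖ * M) := by
    have h10 : 1 ≤ (2 / (d * r) * ‖eF d ρ₀ v‖) ^ b := one_le_pow₀ h8
    have hP := norm_nonneg (PZ d Z e v)
    calc ‖v - ρ₀‖ * ‖PZ d Z e v‖ ≤ (2 / d * ‖eF d ρ₀ v‖) * ‖PZ d Z e v‖ := by gcongr
      _ ≤ (2 / d * ‖eF d ρ₀ v‖) * ‖PZ d Z e v‖ * (2 / (d * r) * ‖eF d ρ₀ v‖) ^ b :=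
          le_mul_of_one_le_right (by positivity) h10
      _ = 2 / d * (2 / (d * r)) ^ b * (‖PZ d Z e v‖ * ‖eF d ρ₀ v‖ ^ (1 + b)) := by
          rw [mul_pow, pow_add, pow_one]; ring
      _ ≤ _ := by gcongr
  have h11 : ‖FF v‖ * ‖Q v‖ ≤ ‖FF v‖ * (2 / d * (2 / (d * r)) ^ b * M * (CB * 3 ^ D)) := by
    rw [h5]
    have hCB : 0 ≤ CB := (norm_nonneg _).trans hBv
    have hM0 : 0 ≤ ‖FF v‖ * M := le_trans (by positivity) h4
    calc ‖v - ρ₀‖ * ‖PZ d Z e v‖ * (‖B v‖ * ‖RD d D v‖)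
        ≤ (2 / d * (2 / (d * r)) ^ b * (‖FF v‖ * M)) * (CB * 3 ^ D) := by gcongr
      _ = _ := by ring
  exact le_of_mul_le_mul_left h11 hFp

end

end Pool.Agent.W190
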