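import Pool.Agent.H19.EW.L.W190_A6
import Pool.Agent.H19.EW.L.W190_A3
import Pool.Agent.H19.EW.L.W190_A4

/-! # The core inequality -/

set_option autoImplicit false

open Complex Filter Topology Set Metric MeasureTheory
open H353 (FF mu mu_cast FF_anal FF_order_ne_top zeros_finite FF_bound ln ln_re ln_im ln_cont ln_ne)

namespace Pool.Agent.W190

noncomputable section

/-- the bound for the quotient on the contour -/
def Mc (σ θ d T r CB : ℝ) (b n D : ℕ) : ℝ :=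
  2 / d * (2 / (d * r)) ^ b * (3 ^ n * (2 * (2 * ((1 + 2 / σ) * (6 + T) ^ 2)) ^ (2 * (2 - θ) / (θ - σ)))) *
    (CB * 3 ^ D)

theorem Q_cont {σ θ d T : ℝ} (hσ : 1 / 2 ≤ σ) (hθ : σ < θ) (hθ1 : θ < 1) (hd : 0 < d)
    (Z : Finset ℂ) (hZ : ∀ ρ, FF ρ = 0 → σ ≤ ρ.re → |ρ.im| ≤ T + 3 → ρ ∈ Z)
    (hZre : ∀ ρ ∈ Z, 0 ≤ ρ.re) (e : ℂ → ℕ) (D : ℕ) (B : ℂ → ℂ) (ρ₀ : ℂ) (hρZ : ρ₀ ∈ Z) (b : ℕ)
    (heb : mu ρ₀ = 1 + e ρ₀ + b) (he : ∀ ρ, ρ ≠ ρ₀ → e ρ = mu ρ) (Q : ℂ → ℂ)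
    (hQ : ∀ z : ℂ, σ < z.re → |z.im| < T + 3 → AnalyticAt ℂ Q z)
    (hQe : ∀ z : ℂ, σ < z.re → |z.im| < T + 3 → Kq d Z e D B ρ₀ z = FF z * Q z)
    (r CB : ℝ) (hr : 0 < r) (hr1 : r ≤ 1)
    (hB : ∀ z : ℂ, 1 / 2 ≤ z.re → z.re ≤ 2 → |z.im| ≤ T + 1 → ‖B z‖ ≤ CB)
    (hρ1 : ‖ρ₀‖ ≤ T) (hT : 1 ≤ T) (hdT : 16 * T * d ≤ 1)
    (v : ℂ) (hv : θ ≤ v.re) (hv2 : v.re ≤ 2) (hvi : |v.im| ≤ T) (hvr : 2 * r ≤ ‖v - ρ₀‖) :
    ‖Q v‖ ≤ Mc σ θ d T r CB b (∑ ρ ∈ Z, mu ρ) D := by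
  have hev : ∀ᶠ w in 𝓝[≠] v, FF w ≠ 0 := by
    rcases (FF_anal v).eventually_eq_zero_or_eventually_ne_zero with h | h
    · exact absurd (analyticOrderAt_eq_top.2 h) (FF_order_ne_top v)
    · exact h
  have hpath : Tendsto (fun η : ℝ => v + (η : ℂ) * I) (𝓝[≠] 0) (𝓝[≠] v) := by
    refine tendsto_nhdsWithin_iff.2 ⟨?_, ?_⟩
    · have : Continuous (fun η : ℝ => v + (η : ℂ) * I) := by fun_prop
      have h := this.tendsto 0
      simp only [ofReal_zero, zero_mul, add_zero] at h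
      exact h.mono_left nhdsWithin_le_nhds
    · filter_upwards [self_mem_nhdsWithin] with η hη
      have hη0 : (η : ℂ) ≠ 0 := by exact_mod_cast hη
      simp only [mem_compl_iff, mem_singleton_iff, add_eq_left, mul_eq_zero, not_or]
      exact ⟨hη0, Complex.I_ne_zero⟩
  have hQs : Tendsto (fun η : ℝ => ‖Q (v + (η : ℂ) * I)‖) (𝓝[≠] 0) (𝓝 ‖Q v‖) := by
    have : Tendsto Q (𝓝[≠] v) (𝓝 (Q v)) :=
      (hQ v (by linarith) (by linarith)).continuousAt.tendsto.mono_left nhdsWithin_le_nhds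
    exact (this.comp hpath).norm
  refine le_of_tendsto hQs ?_
  have hsmall : ∀ᶠ η : ℝ in 𝓝[≠] 0, |η| < r := by
    refine nhdsWithin_le_nhds ?_
    have : Continuous (fun η : ℝ => |η|) := continuous_abs
    have h := this.tendsto 0
    rw [abs_zero] at h
    exact h.eventually (gt_mem_nhds hr)
  filter_upwards [hpath.eventually hev, hsmall] with η hη1 hη2
  set w : ℂ := v + (η : ℂ) * I with hw
  have hwre : w.re = v.re := by simp [hw]
  have hwim : w.im = v.im + η := by simp [hw]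
  have hwim' : |w.im| ≤ T + 1 := by
    rw [hwim]
    exact (abs_add_le _ _).trans (by linarith)
  have hηn : ‖(η : ℂ) * I‖ = |η| := by simp
  have hwr : r ≤ ‖w - ρ₀‖ := by
    have h1 : ‖v - ρ₀‖ ≤ ‖w - ρ₀‖ + ‖(η : ℂ) * I‖ := by
      have := norm_sub_le (w - ρ₀) ((η : ℂ) * I)
      have e1 : (w - ρ₀) - (η : ℂ) * I = v - ρ₀ := by rw [hw]; ring
      rwa [e1] at this
    rw [hηn] at h1
    linarith
  have hwn : ‖w‖ ≤ T + 3 := by
    have := Complex.norm_le_abs_re_add_abs_im w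
    rw [hwre, abs_of_nonneg (by linarith)] at this
    linarith
  have hwd : ‖w - ρ₀‖ * d ≤ 1 / 2 := by
    have h1 : ‖w - ρ₀‖ ≤ 8 * T := (norm_sub_le _ _).trans (by linarith)
    nlinarith
  have hwd1 : ‖w - 1‖ * d ≤ 1 := by
    have h1 : ‖w - 1‖ ≤ 8 * T := (norm_sub_le _ _).trans (by rw [norm_one]; linarith)
    nlinarith
  have key := Q_base hσ hθ hθ1 hd (by nlinarith) Z hZ hZre e D B ρ₀ hρZ b heb he Q r CB hr w
    (hQe w (by rw [hwre]; linarith) (by linarith)) (by rw [hwre]; exact hv) (by rw [hwre]; exact hv2)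
    (by linarith) hwr hwd hwd1 (hB w (by rw [hwre]; linarith) (by rw [hwre]; exact hv2) hwim') hη1
  refine key.trans ?_
  unfold Mc
  have hCB : 0 ≤ CB := (norm_nonneg _).trans
    (hB w (by rw [hwre]; linarith) (by rw [hwre]; exact hv2) hwim')
  have hσ0 : 0 < σ := by linarith
  have hk : 0 ≤ 2 * (2 - θ) / (θ - σ) := div_nonneg (by linarith) (by linarith)
  have h5 : (2 * ((1 + 2 / σ) * (5 + |w.im|) ^ 2)) ^ (2 * (2 - θ) / (θ - σ)) ≤
      (2 * ((1 + 2 / σ) * (6 + T) ^ 2)) ^ (2 * (2 - θ) / (θ - σ)) := by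
    refine Real.rpow_le_rpow (by positivity) ?_ hk
    have h6 : (5 + |w.im|) ^ 2 ≤ (6 + T) ^ 2 := pow_le_pow_left₀ (by positivity) (by linarith) 2
    gcongr
  gcongr

/-! ## lower bound for the smoothing factor -/

theorem kap_lower (h : ℝ) (hh : 0 < h) (s : ℂ) (hs0 : s ≠ 0) (N : ℕ) (hN : N * (‖s‖ * h) ≤ 1 / 2)
    (hN1 : ‖s‖ * h ≤ 1) : 1 / 2 ≤ ‖kap h s‖ ^ N := by
  have hz : s * (h : ℂ) ≠ 0 := mul_ne_zero hs0 (by exact_mod_cast hh.ne')
  have hn : ‖s * (h : ℂ)‖ = ‖s‖ * h := by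
    rw [norm_mul, Complex.norm_real, Real.norm_eq_abs, abs_of_pos hh]
  have h1 := norm_exp_sub_one_sub_id_le (x := s * h) (by rw [hn]; exact hN1)
  have hzp : 0 < ‖s * (h : ℂ)‖ := norm_pos_iff.2 hz
  have h2 : ‖kap h s - 1‖ ≤ ‖s‖ * h := by
    unfold kap
    have e : (cexp (s * h) - 1) / (s * h) - 1 = (cexp (s * h) - 1 - s * h) / (s * h) := by
      rw [sub_div (cexp (s * h) - 1) (s * h) (s * h), div_self hz]
    rw [e, norm_div, div_le_iff₀ hzp]
    rw [← hn]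
    calc _ ≤ _ := h1
      _ = _ := by ring
  have h3 : 1 - ‖s‖ * h ≤ ‖kap h s‖ := by
    have := norm_sub_le (kap h s) (kap h s - 1)
    have e : kap h s - (kap h s - 1) = 1 := by ring
    rw [e, norm_one] at this
    linarith
  have h4 : 0 ≤ 1 - ‖s‖ * h := by linarith
  have h5 : (1 - ‖s‖ * h) ^ N ≤ ‖kap h s‖ ^ N := pow_le_pow_left₀ h4 h3 N
  have h6 := one_add_mul_le_pow (a := -(‖s‖ * h)) (by linarith) N
  have e : 1 + -(‖s‖ * h) = 1 - ‖s‖ * h := by ring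
  rw [e] at h6
  have e2 : 1 + (N : ℝ) * -(‖s‖ * h) = 1 - N * (‖s‖ * h) := by ring
  rw [e2] at h6
  linarith

theorem kap_diffAt (h : ℝ) (s : ℂ) (hs0 : s ≠ 0) (hh : 0 < h) : DifferentiableAt ℂ (kap h) s := by
  unfold kap
  have hz : s * (h : ℂ) ≠ 0 := mul_ne_zero hs0 (by exact_mod_cast hh.ne')
  exact DifferentiableAt.div (by fun_prop) (by fun_prop) hz

/-! ## the list of exponents -/

/-- the list of the zeros in `Z`, each `ρ` taken `e ρ` times, and of the numbers `1, …, D + 1` -/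
def Lst (Z : Finset ℂ) (e : ℂ → ℕ) (D : ℕ) : List ℂ :=
  (Z.toList.flatMap fun ρ => List.replicate (e ρ) ρ) ++ (List.range (D + 1)).map fun k => ((k + 1 : ℕ) : ℂ)

theorem sy_append (d : ℝ) (L L' : List ℂ) (s : ℂ) : sy d (L ++ L') s = sy d L s * sy d L' s := by
  unfold sy
  rw [List.map_append, List.prod_append]

theorem sy_flat (d : ℝ) (L : List ℂ) (e : ℂ → ℕ) (s : ℂ) :
    sy d (L.flatMap fun ρ => List.replicate (e ρ) ρ) s = (L.map fun ρ => eF d ρ s ^ e ρ).prod := by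
  induction L with
  | nil => simp [sy]
  | cons a L ih =>
    rw [List.flatMap_cons, sy_append, ih, List.map_cons, List.prod_cons]
    congr 1
    unfold sy
    rw [List.map_replicate, List.prod_replicate]
    rfl

theorem sy_Lst (d : ℝ) (Z : Finset ℂ) (e : ℂ → ℕ) (D : ℕ) (s : ℂ) :
    sy d (Lst Z e D) s = PZ d Z e s * ((s - 1) * RD d D s) := by
  unfold Lst
  rw [sy_append, sy_flat]
  have e1 : (Z.toList.map fun ρ => eF d ρ s ^ e ρ).prod = PZ d Z e s := by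
    unfold PZ
    exact Finset.prod_map_toList Z _
  have e2 : sy d ((List.range (D + 1)).map fun k => ((k + 1 : ℕ) : ℂ)) s =
      ∏ k ∈ Finset.range (D + 1), eF d ((k + 1 : ℕ) : ℂ) s := by
    unfold sy
    rw [List.map_map]
    induction (D + 1) with
    | zero => simp
    | succ m ih =>
      rw [List.range_succ, List.map_append, List.prod_append, ih, Finset.prod_range_succ]
      simp only [List.map_cons, List.map_nil, List.prod_cons, List.prod_nil, mul_one]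
      rfl
  rw [e1, e2, Finset.prod_range_succ']
  unfold RD
  have e3 : eF d ((0 + 1 : ℕ) : ℂ) s = (s - 1) * gF d 1 s := by
    rw [← eF_eq]
    simp
  rw [e3]
  ring

theorem Lst_length (Z : Finset ℂ) (e : ℂ → ℕ) (D : ℕ) :
    (Lst Z e D).length = (∑ ρ ∈ Z, e ρ) + (D + 1) := by
  unfold Lst
  rw [List.length_append, List.length_map, List.length_range, List.length_flatMap]
  congr 1
  simp only [List.length_replicate]
  exact Finset.sum_map_toList Z e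

theorem Lst_mem (Z : Finset ℂ) (e : ℂ → ℕ) (D : ℕ) (k : ℕ) (hk : k ∈ Finset.Icc 1 (D + 1)) :
    (k : ℂ) ∈ Lst Z e D := by
  unfold Lst
  rw [Finset.mem_Icc] at hk
  rw [List.mem_append, List.mem_map]
  right
  exact ⟨k - 1, List.mem_range.2 (by omega), by congr 1; omega⟩

theorem Lst_re (Z : Finset ℂ) (e : ℂ → ℕ) (D : ℕ) (hZ : ∀ ρ ∈ Z, 0 ≤ ρ.re) (r : ℂ) (hr : r ∈ Lst Z e D) :
    0 ≤ r.re := by
  unfold Lst at hr
  rw [List.mem_append] at hr
  rcases hr with h | h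
  · rw [List.mem_flatMap] at h
    obtain ⟨ρ, h1, h2⟩ := h
    rw [List.mem_replicate] at h2
    rw [h2.2]
    exact hZ ρ (by simpa using h1)
  · rw [List.mem_map] at h
    obtain ⟨k, _, rfl⟩ := h
    rw [Complex.natCast_re]
    exact Nat.cast_nonneg _

theorem sy_upper {d : ℝ} (L : List ℂ) (s : ℂ) (h : ∀ r ∈ L, (s.re - r.re) * d ≤ 1 / 2) :
    ‖sy d L s‖ ≤ 3 ^ L.length := by
  unfold sy
  induction L with
  | nil => simp
  | cons a L ih =>
    rw [List.map_cons, List.prod_cons, norm_mul, List.length_cons, pow_succ, mul_comm]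
    refine mul_le_mul (ih fun r hr => h r (List.mem_cons_of_mem _ hr)) ?_ (norm_nonneg _) (by positivity)
    exact eF_upper a s (h a List.mem_cons_self)

end

end Pool.Agent.W190
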