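import Pool.Agent.H19.EW.L.W190_A7

/-! # The core inequality -/

set_option autoImplicit false

open Complex Filter Topology Set Metric MeasureTheory
open H353 (FF mu mu_cast FF_anal FF_order_ne_top zeros_finite FF_bound ln ln_re ln_im ln_cont ln_ne)

namespace Pool.Agent.W190

noncomputable section

theorem Op_TT_bound {a : ℕ → ℂ} {h d u η : ℝ} (hh : 0 < h) (hd : 0 ≤ d) (N : ℕ) (L : List ℂ)
    (hL : ∀ r ∈ L, 0 ≤ r.re) (D : ℕ) (hLk : ∀ k ∈ Finset.Icc 1 D, (k : ℂ) ∈ L) (c : ℕ → ℂ)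
    (hlen : (N + 2) * h + L.length * d ≤ η) :
    ‖Op h d N L (TT a) u‖ ≤
      2 ^ L.length * (2 * ((∫ v in u..(u + η), ‖TT a v - PE D c v‖) / h) / h) := by
  have hT := TT_LI a
  have hP : LI (PE D c) := LI.of_continuous (PE_cont D c)
  have hg : LI (fun v => TT a v - PE D c v) := fun x y => (hT x y).sub (hP x y)
  have e : TT a = fun v => (TT a v - PE D c v) + PE D c v := by
    funext v
    ring
  have h1 : Op h d N L (TT a) u = Op h d N L (fun v => TT a v - PE D c v) u := by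
    conv_lhs => rw [e]
    rw [Op_add hg hP, Op_PE D c hh d N L hLk]
    simp
  rw [h1]
  exact Op_bound hg hh hd N L hL (by linarith)

theorem line_change (f : ℂ → ℂ) : ∫ y : ℝ, f (((2:ℝ) : ℂ) + y * I) = (2 * Real.pi : ℝ) • ∫ ξ : ℝ, f (ln 2 ξ) := by
  have e : ∫ ξ : ℝ, f (ln 2 ξ) = |(2 * Real.pi)⁻¹| • ∫ y : ℝ, f (((2:ℝ) : ℂ) + y * I) := by
    rw [← Measure.integral_comp_mul_left (fun y : ℝ => f (((2:ℝ) : ℂ) + y * I)) (2 * Real.pi)]
    rfl
  have hpi := Real.pi_pos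
  rw [e, smul_smul, abs_of_pos (by positivity), mul_inv_cancel₀ (by positivity), one_smul]

theorem line_int (f : ℂ → ℂ) (hf : Integrable fun ξ : ℝ => f (ln 2 ξ)) :
    Integrable (fun y : ℝ => f (((2:ℝ) : ℂ) + y * I)) := by
  have h1 : Integrable ((fun y : ℝ => f (((2:ℝ) : ℂ) + y * I)) ∘ fun ξ => (2 * Real.pi) * ξ) := hf
  exact (integrable_comp_mul_left_iff _ (by positivity : (2 * Real.pi) ≠ 0)).1 h1

/-- the tail of an integral -/
theorem tail_bound (f : ℝ → ℂ) (T C : ℝ) (hT : 1 ≤ T) (hC : 0 ≤ C) (hf : Integrable f)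
    (hb : ∀ y : ℝ, T < |y| → ‖f y‖ ≤ C * (T / |y|) ^ 2) :
    ‖∫ y in (-T)..T, f y‖ ≤ ‖∫ y : ℝ, f y‖ + C * (2 * Real.pi * T ^ 2) := by
  have hs : ∫ y : ℝ, f y = (∫ y in Ioc (-T) T, f y) + ∫ y in (Ioc (-T) T)ᶜ, f y :=
    (integral_add_compl measurableSet_Ioc hf).symm
  rw [intervalIntegral.integral_of_le (by linarith)]
  have e : ∫ y in Ioc (-T) T, f y = (∫ y : ℝ, f y) - ∫ y in (Ioc (-T) T)ᶜ, f y := by
    rw [hs]; ring
  rw [e]
  refine (norm_sub_le _ _).trans (add_le_add_right ?_ _)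
  have hT0 : 0 < T := by linarith
  have hg : Integrable (fun y : ℝ => C * (2 * T ^ 2) * (1 + y ^ 2)⁻¹) :=
    integrable_inv_one_add_sq.const_mul _
  have h1 : ‖∫ y in (Ioc (-T) T)ᶜ, f y‖ ≤ ∫ y in (Ioc (-T) T)ᶜ, C * (2 * T ^ 2) * (1 + y ^ 2)⁻¹ := by
    refine norm_integral_le_of_norm_le hg.integrableOn ?_
    have hnull : ∀ᵐ y : ℝ ∂(volume.restrict (Ioc (-T) T)ᶜ), y ≠ -T :=
      ae_restrict_of_ae (by
        have : ({(-T)} : Set ℝ)ᶜ ∈ ae (volume : Measure ℝ) := compl_mem_ae_iff.2 (by simp)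
        filter_upwards [this] with y hy
        simpa using hy)
    filter_upwards [hnull, ae_restrict_mem measurableSet_Ioc.compl] with y hy1 hy2
    have hy3 : T < |y| := by
      rw [mem_compl_iff, mem_Ioc, not_and, not_le] at hy2
      rcases lt_or_gt_of_ne hy1 with h | h
      · rw [abs_of_neg (by linarith)]
        linarith
      · rw [abs_of_pos (by linarith [hy2 h])]
        exact hy2 h
    refine (hb y hy3).trans ?_
    have h3 : (T / |y|) ^ 2 ≤ 2 * T ^ 2 * (1 + y ^ 2)⁻¹ := by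
      rw [div_pow, sq_abs, ← div_eq_mul_inv]
      have hy4 : 1 ≤ y ^ 2 := by
        rw [← sq_abs]
        nlinarith
      rw [div_le_div_iff₀ (by linarith) (by positivity)]
      nlinarith [sq_nonneg T]
    calc C * (T / |y|) ^ 2 ≤ C * (2 * T ^ 2 * (1 + y ^ 2)⁻¹) := by gcongr
      _ = _ := by ring
  refine h1.trans ?_
  have h2 : ∫ y in (Ioc (-T) T)ᶜ, C * (2 * T ^ 2) * (1 + y ^ 2)⁻¹ ≤ ∫ y : ℝ, C * (2 * T ^ 2) * (1 + y ^ 2)⁻¹ :=
    setIntegral_le_integral hg (ae_of_all _ fun y => by positivity)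
  refine h2.trans (le_of_eq ?_)
  rw [integral_const_mul, integral_univ_inv_one_add_sq]
  ring

theorem kap_small {h T : ℝ} (hh : 0 < h) (hh1 : h ≤ 1 / 4) (hhT : T * h = 12) (s : ℂ) (hs2 : s.re ≤ 2)
    (hsT : T ≤ |s.im|) : ‖kap h s‖ ≤ 1 / 4 * (T / |s.im|) := by
  have hT0 : 0 < T := by nlinarith
  have hi : 0 < |s.im| := by linarith
  have hs0 : s ≠ 0 := by
    rintro rfl
    simp at hi
  have h1 := kap_norm' h hh s hs0
  have h2 : Real.exp (s.re * h) ≤ 2 := by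
    have h3 : Real.exp (s.re * h) ≤ Real.exp (1 / 2) := Real.exp_le_exp.2 (by nlinarith)
    have h4 : Real.exp (1 / 2) * Real.exp (1 / 2) = Real.exp 1 := by
      rw [← Real.exp_add]; norm_num
    have h5 := Real.exp_one_lt_d9
    have h6 := Real.exp_pos (1 / 2)
    nlinarith
  have h7 : |s.im| ≤ ‖s‖ := Complex.abs_im_le_norm s
  refine h1.trans ?_
  calc (Real.exp (s.re * h) + 1) / (‖s‖ * h) ≤ (2 + 1) / (|s.im| * h) := by gcongr
    _ = _ := by
      have : T = 12 / h := by rw [eq_div_iff hh.ne']; exact hhT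
      rw [this]
      field_simp
      norm_num

end

end Pool.Agent.W190
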