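import Pool.Agent.H19.EW.L.W190_A8

/-! # The core inequality -/

set_option autoImplicit false
set_option maxHeartbeats 4000000

open Complex Filter Topology Set Metric MeasureTheory
open H353 (FF mu mu_cast FF_anal FF_order_ne_top zeros_finite FF_bound ln ln_re ln_im ln_cont ln_ne)

namespace Pool.Agent.W190

noncomputable section

theorem LS_norm_line {a : ℕ → ℂ} (ha0 : a 0 = 0) (hs : Summable fun n : ℕ => ‖a n‖ / (n : ℝ) ^ 2) (y : ℝ) :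
    ‖LSeries a (((2:ℝ) : ℂ) + y * I)‖ ≤ ∑' n : ℕ, ‖a n‖ / (n : ℝ) ^ 2 := by
  have h := LS_norm ha0 hs (y / (2 * Real.pi))
  have e : ln 2 (y / (2 * Real.pi)) = ((2:ℝ) : ℂ) + y * I := by
    unfold ln
    have hpi := Real.pi_pos
    have : 2 * Real.pi * (y / (2 * Real.pi)) = y := by field_simp
    rw [this]
  rwa [e] at h

/-- lower bound for the quotient at `ρ₀` -/
theorem Q_lower {d T : ℝ} (hd : 0 < d) (hd1 : d ≤ 1) (hdT : 16 * T * d ≤ 1) (hT : 1 ≤ T)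
    (Z : Finset ℂ) (hZn : ∀ ρ ∈ Z, ‖ρ‖ ≤ T + 4)
    (e : ℂ → ℕ) (D : ℕ) (B : ℂ → ℂ) (ρ₀ : ℂ) (hρ1 : ρ₀.re < 1) (b : ℕ)
    (heb : mu ρ₀ = 1 + e ρ₀ + b) (he : ∀ ρ, ρ ≠ ρ₀ → e ρ = mu ρ)
    (U : Set ℂ) (hU : IsOpen U) (hρU : ρ₀ ∈ U) (hρZ : ρ₀ ∈ Z)
    (F1 B1 : ℂ → ℂ) (hF1 : AnalyticAt ℂ F1 ρ₀) (hB1 : AnalyticAt ℂ B1 ρ₀) (hF10 : F1 ρ₀ ≠ 0)
    (hF : ∀ᶠ z in 𝓝 ρ₀, FF z = (z - ρ₀) ^ mu ρ₀ • F1 z)
    (hBB : ∀ᶠ z in 𝓝 ρ₀, B z = (z - ρ₀) ^ b • B1 z)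
    (Q : ℂ → ℂ) (hQ : ∀ z ∈ U, AnalyticAt ℂ Q z) (hQe : ∀ s ∈ U, Kq d Z e D B ρ₀ s = FF s * Q s)
    (hρT : ‖ρ₀‖ ≤ T) (c₀ : ℝ) (hc₀ : 0 < c₀) (hc1 : c₀ ≤ 1)
    (hcZ : ∀ ρ ∈ Z, ρ ≠ ρ₀ → c₀ ≤ ‖ρ₀ - ρ‖) (hD : (‖ρ₀‖ + (D + 1)) * d ≤ 1 / 2) :
    ‖B1 ρ₀‖ / ‖F1 ρ₀‖ * (d / 2 * c₀) ^ ((∑ ρ ∈ Z, mu ρ) + D + 1) ≤ ‖Q ρ₀‖ := by
  classical
  have hv := Q_value d hd Z e D B ρ₀ U hU hρU hρZ b heb F1 B1 hF1 hB1 hF hBB Q hQ hQe
  have h1 : (d / 2 * c₀) ^ (∑ ρ ∈ Z.erase ρ₀, e ρ) ≤ ‖PZ d (Z.erase ρ₀) e ρ₀‖ := by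
    refine PZ_lower hd hc₀ (Z.erase ρ₀) e ρ₀ fun ρ hρ => ?_
    have h2 := Finset.mem_of_mem_erase hρ
    refine ⟨hcZ ρ h2 (Finset.ne_of_mem_erase hρ), ?_⟩
    have h3 : ‖ρ₀ - ρ‖ ≤ 8 * T := by
      have := norm_sub_le ρ₀ ρ
      have := hZn ρ h2
      linarith
    nlinarith
  have h2 := RD_lower hd hd1 D ρ₀ hρ1 hD
  have hF1p : 0 < ‖F1 ρ₀‖ := norm_pos_iff.2 hF10
  have hB0 := norm_nonneg (B1 ρ₀)
  have hx1 : d / 2 * c₀ ≤ 1 := by nlinarith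
  have hx0 : 0 < d / 2 * c₀ := by positivity
  have hdx : d / 2 * c₀ ≤ d := by nlinarith
  have hdx2 : d / 2 * c₀ ≤ d / 2 := by nlinarith
  rw [div_mul_eq_mul_div, div_le_iff₀ hF1p, mul_comm ‖Q ρ₀‖, ← hv]
  have h3 : (∑ ρ ∈ Z, mu ρ) = mu ρ₀ + ∑ ρ ∈ Z.erase ρ₀, e ρ := by
    rw [← Finset.add_sum_erase Z _ hρZ]
    congr 1
    exact Finset.sum_congr rfl fun ρ hρ => (he ρ (Finset.ne_of_mem_erase hρ)).symm
  have h4 : (d / 2 * c₀) ^ ((∑ ρ ∈ Z, mu ρ) + D + 1) ≤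
      (d / 2 * c₀) ^ (e ρ₀ + (∑ ρ ∈ Z.erase ρ₀, e ρ) + (D + 1)) :=
    pow_le_pow_of_le_one hx0.le hx1 (by rw [h3, heb]; omega)
  calc ‖B1 ρ₀‖ * (d / 2 * c₀) ^ ((∑ ρ ∈ Z, mu ρ) + D + 1)
      ≤ ‖B1 ρ₀‖ * (d / 2 * c₀) ^ (e ρ₀ + (∑ ρ ∈ Z.erase ρ₀, e ρ) + (D + 1)) := by gcongr
    _ = (d / 2 * c₀) ^ e ρ₀ * (d / 2 * c₀) ^ (∑ ρ ∈ Z.erase ρ₀, e ρ) *
          (‖B1 ρ₀‖ * (d / 2 * c₀) ^ (D + 1)) := by
          rw [pow_add, pow_add]; ring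
    _ ≤ d ^ e ρ₀ * ‖PZ d (Z.erase ρ₀) e ρ₀‖ * (‖B1 ρ₀‖ * ‖RD d D ρ₀‖) := by
          gcongr
          exact (pow_le_pow_left₀ hx0.le hdx2 _).trans h2

/-- the core inequality -/
theorem core {a : ℕ → ℂ} (ha0 : a 0 = 0) (hs : Summable fun n : ℕ => ‖a n‖ / (n : ℝ) ^ 2)
    {σ θ d h T u η : ℝ} (hσ : 1 / 2 ≤ σ) (hθ : σ < θ) (hθ1 : θ < 1) (hd : 0 < d)
    (hh : 0 < h) (hh1 : h ≤ 1 / 4) (hhT : T * h = 12) (hdT : 16 * T * d ≤ 1) (hu : 0 ≤ u)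
    (Z : Finset ℂ) (hZ : ∀ ρ, FF ρ = 0 → σ ≤ ρ.re → |ρ.im| ≤ T + 3 → ρ ∈ Z)
    (hZre : ∀ ρ ∈ Z, 0 ≤ ρ.re) (hZn : ∀ ρ ∈ Z, ‖ρ‖ ≤ T + 4)
    (e : ℂ → ℕ) (D : ℕ) (B : ℂ → ℂ) (hB : Differentiable ℂ B) (ρ₀ : ℂ) (hρ0 : FF ρ₀ = 0)
    (hρ1 : ρ₀.re < 1) (b : ℕ)
    (heb : mu ρ₀ = 1 + e ρ₀ + b) (he : ∀ ρ, ρ ≠ ρ₀ → e ρ = mu ρ)
    (hb : (b : ℕ∞) ≤ analyticOrderAt B ρ₀)
    (F1 B1 : ℂ → ℂ) (hF1 : AnalyticAt ℂ F1 ρ₀) (hB1 : AnalyticAt ℂ B1 ρ₀) (hF10 : F1 ρ₀ ≠ 0)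
    (hF : ∀ᶠ z in 𝓝 ρ₀, FF z = (z - ρ₀) ^ mu ρ₀ • F1 z)
    (hBB : ∀ᶠ z in 𝓝 ρ₀, B z = (z - ρ₀) ^ b • B1 z)
    (hA : ∀ s : ℂ, s.re = 2 → LSeries a s * ((s - 1) * FF s) = B s)
    (r CB c₀ : ℝ) (hr : 0 < r) (hr1 : r ≤ 1) (hrθ : 2 * r ≤ ρ₀.re - θ) (hρT : ‖ρ₀‖ + 2 ≤ T)
    (hCB : ∀ z : ℂ, 1 / 2 ≤ z.re → z.re ≤ 2 → |z.im| ≤ T + 1 → ‖B z‖ ≤ CB)
    (hc₀ : 0 < c₀) (hc1 : c₀ ≤ 1) (hcZ : ∀ ρ ∈ Z, ρ ≠ ρ₀ → c₀ ≤ ‖ρ₀ - ρ‖)
    (N : ℕ) (hN : ((N + 2 : ℕ) : ℝ) * (‖ρ₀‖ * h) ≤ 1 / 2) (n : ℕ) (hn : ∑ ρ ∈ Z, mu ρ = n)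
    (hlen : (N + 2) * h + ((n + D + 1 : ℕ) : ℝ) * d ≤ η)
    (hD : (‖ρ₀‖ + (D + 1)) * d ≤ 1 / 2) (c : ℕ → ℂ) :
    Real.pi * (‖B1 ρ₀‖ / ‖F1 ρ₀‖ * (d / 2 * c₀) ^ (n + D + 1)) * Real.exp (ρ₀.re * u) ≤
      2 * Real.pi * (2 ^ (n + D + 1) * (2 * ((∫ v in u..(u + η), ‖TT a v - PE (D + 1) c v‖) / h) / h)) +
      Real.exp (2 * u) * 3 ^ (n + D + 1) * (∑' n : ℕ, ‖a n‖ / (n : ℝ) ^ 2) * (1 / 4) ^ (N + 2) *
        (2 * Real.pi * T ^ 2) +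
      (1 / (2 * r) * Real.exp (θ * u) * Real.exp (h * (N + 2 : ℕ)) * Mc σ θ d T r CB b n D) * (2 * T) +
      (1 / (2 * r) * Real.exp (2 * u) * (1 / 4) ^ (N + 2) * Mc σ θ d T r CB b n D) * (2 * (2 - θ)) := by
  classical
  have hT : 2 ≤ T := by linarith [norm_nonneg ρ₀]
  have hσ0 : 0 < σ := by linarith
  have hρim : |ρ₀.im| + 2 ≤ T := by linarith [Complex.abs_im_le_norm ρ₀]
  have hd16 : d ≤ 1 / 16 := by nlinarith
  set Ω : Set ℂ := {z | σ < z.re} ∩ {z | |z.im| < T + 3} with hΩ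
  have hΩo : IsOpen Ω :=
    (isOpen_lt continuous_const Complex.continuous_re).inter
      (isOpen_lt (continuous_abs.comp Complex.continuous_im) continuous_const)
  have hρΩ : ρ₀ ∈ Ω := ⟨by simp only [mem_ofPred_eq]; linarith, by simp only [mem_ofPred_eq]; linarith⟩
  obtain ⟨Q, hQ, hQe⟩ := exists_Q d Z e D B ρ₀ hB Ω
    (fun ρ hρ h0 => hZ ρ h0 (le_of_lt hρ.1) (le_of_lt hρ.2)) he b hb heb
  have hρZ : ρ₀ ∈ Z := hZ ρ₀ hρ0 (by linarith) (by linarith)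
  have hlow := Q_lower hd (by linarith) hdT (by linarith) Z hZn e D B ρ₀ hρ1 b heb he Ω hΩo hρΩ hρZ
    F1 B1 hF1 hB1 hF10 hF hBB Q hQ hQe (by linarith) c₀ hc₀ hc1 hcZ hD
  rw [hn] at hlow
  have hup : ∀ v : ℂ, θ ≤ v.re → v.re ≤ 2 → |v.im| ≤ T → 2 * r ≤ ‖v - ρ₀‖ →
      ‖Q v‖ ≤ Mc σ θ d T r CB b n D := by
    intro v h1 h2 h3 h4
    have := Q_cont hσ hθ hθ1 hd Z hZ hZre e D B ρ₀ hρZ b heb he Q
      (fun z z1 z2 => hQ z ⟨z1, z2⟩) (fun z z1 z2 => hQe z ⟨z1, z2⟩) r CB hr hr1 hCB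
      (by linarith) (by linarith) hdT v h1 h2 h3 h4
    rwa [hn] at this
  set M := Mc σ θ d T r CB b n D with hM
  set L := Lst Z e D with hL
  have hLlen : L.length ≤ n + D + 1 := by
    rw [hL, Lst_length, ← hn]
    have : ∑ ρ ∈ Z, e ρ ≤ ∑ ρ ∈ Z, mu ρ := by
      refine Finset.sum_le_sum fun ρ _ => ?_
      by_cases h : ρ = ρ₀
      · rw [h, heb]; omega
      · rw [he ρ h]
    omega
  have hLre : ∀ r ∈ L, 0 ≤ r.re := fun r hr => Lst_re Z e D hZre r hr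
  -- the operator side
  have hOp := Op_TT_bound (a := a) (u := u) (η := η) hh hd.le N L hLre (D + 1)
    (fun k hk => Lst_mem Z e D k hk) c (by
      refine le_trans ?_ hlen
      have : (L.length : ℝ) ≤ ((n + D + 1 : ℕ) : ℝ) := by exact_mod_cast hLlen
      gcongr)
  set E := ∫ v in u..(u + η), ‖TT a v - PE (D + 1) c v‖ with hE
  have hη : 0 ≤ η := le_trans (by positivity) hlen
  have hE0 : 0 ≤ E := intervalIntegral.integral_nonneg (by linarith) fun v _ => norm_nonneg _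
  have hOp2 : ‖Op h d N L (TT a) u‖ ≤ 2 ^ (n + D + 1) * (2 * (E / h) / h) := by
    refine hOp.trans ?_
    gcongr
    norm_num
  -- the integral side
  set F : ℂ → ℂ := fun s => cexp (s * u) * (sy d L s * (kap h s ^ (N + 2) * LSeries a s)) with hFdef
  have hrep : Op h d N L (TT a) u = ∫ ξ, F (ln 2 ξ) := main_rep ha0 hs hh d N L u
  have hFint : Integrable (fun ξ => F (ln 2 ξ)) := main_int ha0 hs hh d N L u
  have hFy := line_int F hFint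
  have hline := line_change F
  rw [← hrep] at hline
  -- the tail
  set CA := ∑' n : ℕ, ‖a n‖ / (n : ℝ) ^ 2 with hCA
  have hCA0 : 0 ≤ CA := tsum_nonneg fun n => by positivity
  have hexp2 : ∀ s : ℂ, s.re ≤ 2 → ‖cexp (s * u)‖ ≤ Real.exp (2 * u) := by
    intro s h2
    rw [Complex.norm_exp, Complex.re_mul_ofReal]
    exact Real.exp_le_exp.2 (by nlinarith)
  have htail := tail_bound (fun y : ℝ => F (((2:ℝ) : ℂ) + y * I)) T
    (Real.exp (2 * u) * 3 ^ (n + D + 1) * CA * (1 / 4) ^ (N + 2)) (by linarith) (by positivity) hFy (by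
      intro y hy
      set s : ℂ := ((2:ℝ) : ℂ) + y * I with hsdef
      have hsre : s.re = 2 := by simp [hsdef]
      have hsim : s.im = y := by simp [hsdef]
      have hsy : ‖sy d L s‖ ≤ 3 ^ (n + D + 1) := by
        refine (sy_upper L s fun r hr => ?_).trans (pow_le_pow_right₀ (by norm_num) hLlen)
        have := hLre r hr
        rw [hsre]
        nlinarith
      have hk := kap_small hh hh1 hhT s hsre.le (by rw [hsim]; exact hy.le)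
      rw [hsim] at hk
      have hq1 : T / |y| ≤ 1 := by rw [div_le_one (by linarith)]; exact hy.le
      have hq0 : 0 ≤ T / |y| := by positivity
      have hk2 : ‖kap h s‖ ^ (N + 2) ≤ (1 / 4) ^ (N + 2) * (T / |y|) ^ 2 := by
        calc ‖kap h s‖ ^ (N + 2) ≤ (1 / 4 * (T / |y|)) ^ (N + 2) := by gcongr
          _ = (1 / 4) ^ (N + 2) * (T / |y|) ^ (N + 2) := by rw [mul_pow]
          _ ≤ (1 / 4) ^ (N + 2) * (T / |y|) ^ 2 := by
              gcongr ?_ * ?_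
              exact pow_le_pow_of_le_one hq0 hq1 (by omega)
      have hls := LS_norm_line ha0 hs y
      simp only [hFdef]
      rw [norm_mul, norm_mul, norm_mul, norm_pow]
      calc ‖cexp (s * u)‖ * (‖sy d L s‖ * (‖kap h s‖ ^ (N + 2) * ‖LSeries a s‖))
          ≤ Real.exp (2 * u) * (3 ^ (n + D + 1) * (((1 / 4) ^ (N + 2) * (T / |y|) ^ 2) * CA)) := by
            have := hexp2 s hsre.le
            gcongr
        _ = _ := by ring)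
  -- the residue
  set g : ℂ → ℂ := fun z => cexp (z * u) * (Q z * kap h z ^ (N + 2)) with hg
  have hgd : DifferentiableOn ℂ g Ω := by
    intro z hz
    have hz1 : σ < z.re := hz.1
    have h1 := (hQ z hz).differentiableAt
    have h2 := kap_diffAt h z (by rintro rfl; simp at hz1; linarith) hh
    have h3 : DifferentiableAt ℂ (fun z : ℂ => cexp (z * u)) z := by fun_prop
    exact (h3.mul (h1.mul (h2.pow _))).differentiableWithinAt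
  have hres := res_ineq (T := T) (x₀ := θ) (x₁ := 2) hgd hΩo (w := ρ₀) (by linarith) (by linarith)
    (by linarith) (fun z z1 _ z3 => ⟨by simp only [mem_ofPred_eq]; linarith,
      by simp only [mem_ofPred_eq]; linarith⟩)
    (1 / (2 * r) * Real.exp (θ * u) * Real.exp (h * (N + 2 : ℕ)) * M)
    (1 / (2 * r) * Real.exp (2 * u) * (1 / 4) ^ (N + 2) * M) (by
      intro y hy
      set z : ℂ := (θ : ℂ) + y * I with hz
      have hzre : z.re = θ := by simp [hz]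
      have hzim : z.im = y := by simp [hz]
      have hzr : 2 * r ≤ ‖z - ρ₀‖ := by
        have := Complex.abs_re_le_norm (z - ρ₀)
        rw [Complex.sub_re, hzre] at this
        have := neg_abs_le (θ - ρ₀.re)
        linarith
      have hq := hup z hzre.ge (by rw [hzre]; linarith) (by rw [hzim]; exact hy) hzr
      have hk := kap_norm h hh z (by rw [hzre]; linarith) (by
        rintro h0
        rw [h0] at hzre
        simp at hzre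
        linarith)
      have hk2 : ‖kap h z‖ ^ (N + 2) ≤ Real.exp (h * (N + 2 : ℕ)) := by
        calc ‖kap h z‖ ^ (N + 2) ≤ (Real.exp (z.re * h)) ^ (N + 2) := by gcongr
          _ ≤ (Real.exp h) ^ (N + 2) := by
              gcongr
              rw [hzre]
              nlinarith
          _ = _ := by rw [← Real.exp_nat_mul, mul_comm]
      have he1 : ‖cexp (z * u)‖ = Real.exp (θ * u) := by
        rw [Complex.norm_exp, Complex.re_mul_ofReal, hzre]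
      have hM0 : 0 ≤ M := (norm_nonneg _).trans hq
      rw [hg]
      simp only
      rw [norm_mul, norm_mul, norm_mul, norm_inv, norm_pow, he1]
      calc ‖z - ρ₀‖⁻¹ * (Real.exp (θ * u) * (‖Q z‖ * ‖kap h z‖ ^ (N + 2)))
          ≤ (2 * r)⁻¹ * (Real.exp (θ * u) * (M * Real.exp (h * (N + 2 : ℕ)))) := by gcongr
        _ = _ := by ring) (by
      intro x y hx1 hx2 hy
      set z : ℂ := (x : ℂ) + y * I with hz
      have hzre : z.re = x := by simp [hz]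
      have hzim : z.im = y := by simp [hz]
      have hzr : 2 * r ≤ ‖z - ρ₀‖ := by
        have h1 := Complex.abs_im_le_norm (z - ρ₀)
        rw [Complex.sub_im, hzim] at h1
        have h2 := abs_sub_abs_le_abs_sub y ρ₀.im
        linarith
      have hq := hup z (by rw [hzre]; exact hx1) (by rw [hzre]; exact hx2)
        (by rw [hzim]; exact hy.le) hzr
      have hk := kap_small hh hh1 hhT z (by rw [hzre]; exact hx2) (by rw [hzim]; exact hy.ge)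
      rw [hzim, hy, div_self (by linarith), mul_one] at hk
      have he1 := hexp2 z (by rw [hzre]; exact hx2)
      have hM0 : 0 ≤ M := (norm_nonneg _).trans hq
      rw [hg]
      simp only
      rw [norm_mul, norm_mul, norm_mul, norm_inv, norm_pow]
      calc ‖z - ρ₀‖⁻¹ * (‖cexp (z * u)‖ * (‖Q z‖ * ‖kap h z‖ ^ (N + 2)))
          ≤ (2 * r)⁻¹ * (Real.exp (2 * u) * (M * (1 / 4) ^ (N + 2))) := by gcongr
        _ = _ := by ring)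
  -- comparison on the segment
  have hseg : ∫ y in (-T)..T, (((2:ℝ) : ℂ) + y * I - ρ₀)⁻¹ * g (((2:ℝ) : ℂ) + y * I) =
      ∫ y in (-T)..T, F (((2:ℝ) : ℂ) + y * I) := by
    refine intervalIntegral.integral_congr fun y hy => ?_
    rw [uIcc_of_le (by linarith)] at hy
    have hy' : |y| ≤ T := abs_le.2 ⟨hy.1, hy.2⟩
    set s : ℂ := ((2:ℝ) : ℂ) + y * I with hsdef
    have hsre : s.re = 2 := by simp [hsdef]
    have hsim : s.im = y := by simp [hsdef]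
    have hsΩ : s ∈ Ω := ⟨by simp only [mem_ofPred_eq]; linarith, by
      simp only [mem_ofPred_eq]; rw [hsim]; linarith⟩
    have hFs : FF s ≠ 0 := by
      have := H353.FF_lower s (by rw [hsre])
      intro h0
      rw [h0, norm_zero] at this
      norm_num at this
    have hsρ : s - ρ₀ ≠ 0 := by
      intro h0
      have := congrArg Complex.re h0
      rw [Complex.sub_re, hsre, Complex.zero_re] at this
      linarith
    have h1 := hQe s hsΩ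
    have h2 := hA s hsre
    unfold Kq at h1
    rw [hg, hFdef, hL]
    simp only
    rw [sy_Lst]
    rw [← h2] at h1
    have h3 : Q s = (s - ρ₀) * (PZ d Z e s * ((s - 1) * RD d D s) * LSeries a s) := by
      apply mul_left_cancel₀ hFs
      rw [← h1]
      ring
    rw [h3]
    field_simp
  rw [hseg] at hres
  have hpi := Real.pi_pos
  rw [hline, norm_smul, Real.norm_eq_abs, abs_of_pos (by positivity)] at htail
  have hρne : ρ₀ ≠ 0 := by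
    rintro h0
    rw [h0] at hrθ
    simp at hrθ
    linarith
  have hh2 : 1 * (‖ρ₀‖ * h) ≤ ((N + 2 : ℕ) : ℝ) * (‖ρ₀‖ * h) := by
    gcongr
    exact_mod_cast (by omega : 1 ≤ N + 2)
  have hkl := kap_lower h hh ρ₀ hρne (N + 2) hN (by linarith)
  have hgl : Real.exp (ρ₀.re * u) * (‖Q ρ₀‖ * (1 / 2)) ≤ ‖g ρ₀‖ := by
    rw [hg]
    simp only
    rw [norm_mul, norm_mul, norm_pow, Complex.norm_exp, Complex.re_mul_ofReal]
    gcongr
  have h5 : Real.pi * (‖B1 ρ₀‖ / ‖F1 ρ₀‖ * (d / 2 * c₀) ^ (n + D + 1)) * Real.exp (ρ₀.re * u) ≤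
      2 * Real.pi * ‖g ρ₀‖ :=
    calc _ ≤ Real.pi * ‖Q ρ₀‖ * Real.exp (ρ₀.re * u) := by gcongr
      _ = 2 * Real.pi * (Real.exp (ρ₀.re * u) * (‖Q ρ₀‖ * (1 / 2))) := by ring
      _ ≤ _ := by gcongr
  have h6 : 2 * Real.pi * ‖Op h d N L (TT a) u‖ ≤
      2 * Real.pi * (2 ^ (n + D + 1) * (2 * (E / h) / h)) := by gcongr
  linarith

end

end Pool.Agent.W190
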