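import Pool.Agent.H19.EW.L.W190_C1
import Pool.Agent.H19.EW.L.H353R2_Z5

/-! # Mean square of `ζ M_X - 1` -/

set_option autoImplicit false
set_option maxHeartbeats 4000000

open Complex Filter Topology Set MeasureTheory

namespace Pool.Agent.W190

open ZU.J_a3 H353

theorem fz_pw (L X : ℕ) (hX : 1 ≤ X) (hXL : X ≤ L) (σ T t K : ℝ) (hσ : 1 / 2 ≤ σ)
    (hσ2 : σ ≤ 3 / 2) (hT : 1 ≤ T) (ht : t ∈ Icc (T / 2) (3 * T))
    (hMn : ‖MX X ((σ : ℂ) + t * I)‖ ≤ K) :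
    ‖fz X ((σ : ℂ) + t * I)‖ ^ 2 ≤
      3 * Real.exp 9 * (Real.exp (-(t / T) ^ 2) *
        ‖∑ n ∈ Finset.Ioc X (L * X), (aa L X n : ℂ) * (n : ℂ) ^ (-((σ : ℂ) + t * I))‖ ^ 2) +
      12 * ((L : ℝ) ^ (1 - σ) * K) ^ 2 / T ^ 2 +
      3 * Real.exp 9 * (12 * T ^ 2) * K ^ 2 * (Real.exp (-(t / T) ^ 2) *
        ‖∫ u in Ioi (L : ℝ), ((Int.fract u : ℝ) : ℂ) * (u : ℂ) ^ (-((σ : ℂ) + t * I) - 1)‖ ^ 2) := by
  have hT0 : 0 < T := by linarith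
  obtain ⟨ht1, ht2⟩ := ht
  have ht0 : 0 < t := by linarith
  set s : ℂ := (σ : ℂ) + t * I with hs
  have hre : s.re = σ := by simp [hs]
  have him : s.im = t := by simp [hs]
  have hs1 : s ≠ 1 := by
    intro h
    have := congrArg Complex.im h
    rw [him, Complex.one_im] at this
    linarith
  rw [fz_split L X hX hXL s (by rw [hre]; linarith) hs1]
  set A : ℂ := ∑ n ∈ Finset.Ioc X (L * X), (aa L X n : ℂ) * (n : ℂ) ^ (-s) with hA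
  set J : ℂ := ∫ u in Ioi (L : ℝ), ((Int.fract u : ℝ) : ℂ) * (u : ℂ) ^ (-s - 1) with hJ
  have hE : 1 ≤ Real.exp 9 * Real.exp (-(t / T) ^ 2) := by
    rw [← Real.exp_add]
    apply Real.one_le_exp
    have h5 : t / T ≤ 3 := by rw [div_le_iff₀ hT0]; exact ht2
    have h5' : 0 ≤ t / T := by positivity
    nlinarith
  have hM2 : ‖MX X s‖ ^ 2 ≤ K ^ 2 := pow_le_pow_left₀ (norm_nonneg _) hMn 2
  have hb : ‖(L : ℂ) ^ (1 - s) / (s - 1) * MX X s‖ ^ 2 ≤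
      4 * ((L : ℝ) ^ (1 - σ) * K) ^ 2 / T ^ 2 := by
    have hL0 : 0 < L := by omega
    rw [norm_mul, norm_div, Complex.norm_natCast_cpow_of_pos hL0]
    have h7 : (1 - s).re = 1 - σ := by simp [hre]
    have h8 : T / 2 ≤ ‖s - 1‖ := by
      have := Complex.abs_im_le_norm (s - 1)
      rw [Complex.sub_im, him, Complex.one_im, sub_zero, abs_of_pos ht0] at this
      linarith
    rw [h7, mul_pow, div_pow]
    have h9 : (T / 2) ^ 2 ≤ ‖s - 1‖ ^ 2 := pow_le_pow_left₀ (by positivity) h8 2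
    calc ((L : ℝ) ^ (1 - σ)) ^ 2 / ‖s - 1‖ ^ 2 * ‖MX X s‖ ^ 2
        ≤ ((L : ℝ) ^ (1 - σ)) ^ 2 / (T / 2) ^ 2 * K ^ 2 := by gcongr
      _ = _ := by field_simp; ring
  have hc : ‖s * J * MX X s‖ ^ 2 ≤ (12 * T ^ 2) * K ^ 2 * ‖J‖ ^ 2 := by
    rw [norm_mul, norm_mul, mul_pow, mul_pow]
    have h8 : ‖s‖ ^ 2 = σ ^ 2 + t ^ 2 := by
      rw [← Complex.normSq_eq_norm_sq, Complex.normSq_apply, hre, him]
      ring
    have h9 : σ ^ 2 ≤ 9 / 4 := by nlinarith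
    have h10 : t ^ 2 ≤ 9 * T ^ 2 := by nlinarith
    have h11 : ‖s‖ ^ 2 ≤ 12 * T ^ 2 := by rw [h8]; nlinarith
    calc ‖s‖ ^ 2 * ‖J‖ ^ 2 * ‖MX X s‖ ^ 2 ≤ (12 * T ^ 2) * ‖J‖ ^ 2 * K ^ 2 := by gcongr
      _ = _ := by ring
  have h20 := zm_sq3' A ((L : ℂ) ^ (1 - s) / (s - 1) * MX X s) (s * J * MX X s)
  have hA2 : ‖A‖ ^ 2 ≤ Real.exp 9 * (Real.exp (-(t / T) ^ 2) * ‖A‖ ^ 2) := by
    rw [← mul_assoc]
    exact le_mul_of_one_le_left (by positivity) hE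
  have hJ2 : ‖J‖ ^ 2 ≤ Real.exp 9 * (Real.exp (-(t / T) ^ 2) * ‖J‖ ^ 2) := by
    rw [← mul_assoc]
    exact le_mul_of_one_le_left (by positivity) hE
  have hc2 : ‖s * J * MX X s‖ ^ 2 ≤
      (12 * T ^ 2) * K ^ 2 * (Real.exp 9 * (Real.exp (-(t / T) ^ 2) * ‖J‖ ^ 2)) :=
    hc.trans (mul_le_mul_of_nonneg_left hJ2 (by positivity))
  calc _ ≤ _ := h20
    _ ≤ 3 * (Real.exp 9 * (Real.exp (-(t / T) ^ 2) * ‖A‖ ^ 2) +
        4 * ((L : ℝ) ^ (1 - σ) * K) ^ 2 / T ^ 2 +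
        (12 * T ^ 2) * K ^ 2 * (Real.exp 9 * (Real.exp (-(t / T) ^ 2) * ‖J‖ ^ 2))) := by
          linarith
    _ = _ := by ring

/-- mean square bound, explicit form -/
theorem fz_ms (L X : ℕ) (hX : 1 ≤ X) (hXL : X ≤ L) (σ T K : ℝ) (hσ : 1 / 2 ≤ σ)
    (hσ2 : σ ≤ 3 / 2) (hT : 1 ≤ T) (hLX : ((L * X : ℕ) : ℝ) ≤ T ^ 2)
    (hK : ∀ t : ℝ, ‖MX X ((σ : ℂ) + t * I)‖ ≤ K) :
    ∫ t in (T / 2)..(3 * T), ‖fz X ((σ : ℂ) + t * I)‖ ^ 2 ≤
      3 * Real.exp 9 * (24 * √Real.pi * ∑ n ∈ Finset.Ioc X (L * X),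
        (T + n) * (aa L X n ^ 2 * (n : ℝ) ^ (-(2 * σ)))) +
      30 * ((L : ℝ) ^ (1 - σ) * K) ^ 2 / T +
      3 * Real.exp 9 * (12 * T ^ 2) * K ^ 2 *
        (2 * Real.pi * ((L : ℝ) ^ (-(2 * σ)) / (2 * σ))) := by
  have hT0 : 0 < T := by linarith
  have hσ0 : 0 < σ := by linarith
  obtain ⟨i1, b1⟩ := gmv σ (Finset.Ioc X (L * X)) (aa L X) (L * X)
    (fun n hn => by rw [Finset.mem_Ioc] at hn; exact ⟨by omega, hn.2⟩) T hT hLX
  obtain ⟨i2, b2⟩ := ZU.planch σ hσ0 L (by omega) T hT0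
  have hle : T / 2 ≤ 3 * T := by linarith
  have j1 := i1.const_mul (3 * Real.exp 9)
  have j2 := i2.const_mul (3 * Real.exp 9 * (12 * T ^ 2) * K ^ 2)
  set c0 : ℝ := 12 * ((L : ℝ) ^ (1 - σ) * K) ^ 2 / T ^ 2 with hc0
  rw [intervalIntegral.integral_of_le hle]
  have hfin : (volume (Ioc (T / 2) (3 * T))) ≠ ⊤ := by simp
  have jc : IntegrableOn (fun _ : ℝ => c0) (Ioc (T / 2) (3 * T)) := integrableOn_const hfin
  have jadd : IntegrableOn (fun t : ℝ => 3 * Real.exp 9 * (Real.exp (-(t / T) ^ 2) *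
        ‖∑ n ∈ Finset.Ioc X (L * X), (aa L X n : ℂ) * (n : ℂ) ^ (-((σ : ℂ) + t * I))‖ ^ 2) +
      c0) (Ioc (T / 2) (3 * T)) := (j1.integrableOn (s := Ioc (T / 2) (3 * T))).add jc
  have jG := jadd.add (j2.integrableOn (s := Ioc (T / 2) (3 * T)))
  have step1 : ∫ t in Ioc (T / 2) (3 * T), ‖fz X ((σ : ℂ) + t * I)‖ ^ 2 ≤
      ∫ t in Ioc (T / 2) (3 * T), (3 * Real.exp 9 * (Real.exp (-(t / T) ^ 2) *
        ‖∑ n ∈ Finset.Ioc X (L * X), (aa L X n : ℂ) * (n : ℂ) ^ (-((σ : ℂ) + t * I))‖ ^ 2) +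
      c0 +
      3 * Real.exp 9 * (12 * T ^ 2) * K ^ 2 * (Real.exp (-(t / T) ^ 2) *
        ‖∫ u in Ioi (L : ℝ), ((Int.fract u : ℝ) : ℂ) * (u : ℂ) ^ (-((σ : ℂ) + t * I) - 1)‖ ^ 2)) := by
    refine integral_mono_of_nonneg (Eventually.of_forall fun t => by positivity) jG ?_
    rw [EventuallyLE, ae_restrict_iff' measurableSet_Ioc]
    exact Eventually.of_forall fun t ht =>
      fz_pw L X hX hXL σ T t K hσ hσ2 hT ⟨ht.1.le, ht.2⟩ (hK t)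
  refine step1.trans ?_
  rw [integral_add jadd (j2.integrableOn), integral_add (j1.integrableOn) jc]
  have k1 : ∫ t in Ioc (T / 2) (3 * T), 3 * Real.exp 9 * (Real.exp (-(t / T) ^ 2) *
        ‖∑ n ∈ Finset.Ioc X (L * X), (aa L X n : ℂ) * (n : ℂ) ^ (-((σ : ℂ) + t * I))‖ ^ 2) ≤
      3 * Real.exp 9 * (24 * √Real.pi * ∑ n ∈ Finset.Ioc X (L * X),
        (T + n) * (aa L X n ^ 2 * (n : ℝ) ^ (-(2 * σ)))) := by
    refine (setIntegral_le_integral j1 (Eventually.of_forall fun t => by positivity)).trans ?_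
    rw [integral_const_mul]
    exact mul_le_mul_of_nonneg_left b1 (by positivity)
  have k2 : ∫ t in Ioc (T / 2) (3 * T), 3 * Real.exp 9 * (12 * T ^ 2) * K ^ 2 *
      (Real.exp (-(t / T) ^ 2) *
        ‖∫ u in Ioi (L : ℝ), ((Int.fract u : ℝ) : ℂ) * (u : ℂ) ^ (-((σ : ℂ) + t * I) - 1)‖ ^ 2) ≤
      3 * Real.exp 9 * (12 * T ^ 2) * K ^ 2 *
        (2 * Real.pi * ((L : ℝ) ^ (-(2 * σ)) / (2 * σ))) := by
    refine (setIntegral_le_integral j2 (Eventually.of_forall fun t => by positivity)).trans ?_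
    rw [integral_const_mul]
    exact mul_le_mul_of_nonneg_left b2 (by positivity)
  have k3 : ∫ _t in Ioc (T / 2) (3 * T), c0 = 30 * ((L : ℝ) ^ (1 - σ) * K) ^ 2 / T := by
    rw [setIntegral_const, Measure.real, Real.volume_Ioc, ENNReal.toReal_ofReal (by linarith),
      smul_eq_mul, hc0]
    field_simp
    ring
  rw [k3]
  linarith

theorem MX_norm2 (σ1 ε : ℝ) (hε : 0 < ε) (h1 : σ1 ≤ 1 + ε) (X : ℕ) (s : ℂ) (hs : σ1 ≤ s.re) :
    ‖MX X s‖ ≤ (∑' n : ℕ, (n : ℝ) ^ (-(1 + ε))) * (X : ℝ) ^ (1 + ε - σ1) := by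
  have hsum : Summable (fun n : ℕ => (n : ℝ) ^ (-(1 + ε))) := Real.summable_nat_rpow.2 (by linarith)
  unfold MX
  refine (norm_sum_le _ _).trans ?_
  have hterm : ∀ m ∈ Finset.Icc 1 X,
      ‖((ArithmeticFunction.moebius m : ℤ) : ℂ) * (m : ℂ) ^ (-s)‖ ≤
        (m : ℝ) ^ (-(1 + ε)) * (X : ℝ) ^ (1 + ε - σ1) := by
    intro m hm
    rw [Finset.mem_Icc] at hm
    have hmr : (1:ℝ) ≤ m := by exact_mod_cast hm.1
    have hmX : (m:ℝ) ≤ X := by exact_mod_cast hm.2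
    rw [norm_mul]
    have e1 : ‖((ArithmeticFunction.moebius m : ℤ) : ℂ)‖ ≤ 1 := by
      rw [Complex.norm_intCast]
      exact_mod_cast ArithmeticFunction.abs_moebius_le_one
    have e2 : ‖(m : ℂ) ^ (-s)‖ ≤ (m : ℝ) ^ (-(1 + ε)) * (X : ℝ) ^ (1 + ε - σ1) := by
      rw [Complex.norm_natCast_cpow_of_pos (by omega)]
      calc (m : ℝ) ^ (-s).re ≤ (m : ℝ) ^ (-σ1) :=
            Real.rpow_le_rpow_of_exponent_le hmr (by simp only [neg_re]; linarith)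
        _ = (m : ℝ) ^ (-(1 + ε)) * (m : ℝ) ^ (1 + ε - σ1) := by
            rw [← Real.rpow_add (by linarith)]
            congr 1
            ring
        _ ≤ _ := by
            have : (m : ℝ) ^ (1 + ε - σ1) ≤ (X : ℝ) ^ (1 + ε - σ1) :=
              Real.rpow_le_rpow (by linarith) hmX (by linarith)
            gcongr
    calc _ ≤ 1 * ‖(m : ℂ) ^ (-s)‖ := mul_le_mul_of_nonneg_right e1 (norm_nonneg _)
      _ ≤ _ := by rw [one_mul]; exact e2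
  refine (Finset.sum_le_sum hterm).trans ?_
  rw [← Finset.sum_mul]
  refine mul_le_mul_of_nonneg_right ?_ (by positivity)
  exact hsum.sum_le_tsum _ fun n _ => by positivity

/-- the exponent of Carlson -/
theorem fz_carlson (σ1 ε : ℝ) (h1 : 1 / 2 < σ1) (h1' : σ1 < 1) (hε : 0 < ε) :
    ∃ C : ℝ, 0 < C ∧ ∀ T : ℝ, 1 ≤ T → ∃ X : ℕ, ∀ σ ∈ Icc σ1 (3 / 2),
      ∫ t in (T / 2)..(3 * T), ‖fz X ((σ : ℂ) + t * I)‖ ^ 2 ≤ C * T ^ (4 * σ1 * (1 - σ1) + ε) := by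
  -- the small parameter
  set η : ℝ := min (ε / 8) ((2 * σ1 - 1) / 3) with hη
  have hη0 : 0 < η := lt_min (by positivity) (by linarith)
  have hηε : 8 * η ≤ ε := by
    have := min_le_left (ε / 8) ((2 * σ1 - 1) / 3)
    linarith
  have hησ : 3 * η ≤ 2 * σ1 - 1 := by
    have := min_le_right (ε / 8) ((2 * σ1 - 1) / 3)
    linarith
  obtain ⟨Cd, hCd0, hCd⟩ := divisor_bound_real η hη0
  set S0 : ℝ := ∑' n : ℕ, (n : ℝ) ^ (-(1 + η)) with hS0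
  have hsum : Summable (fun n : ℕ => (n : ℝ) ^ (-(1 + η))) := Real.summable_nat_rpow.2 (by linarith)
  have hS00 : 0 ≤ S0 := tsum_nonneg fun n => by positivity
  set C : ℝ := 3 * Real.exp 9 * (24 * √Real.pi * (Cd ^ 2 * S0 * 3)) + 30 * S0 ^ 2 +
    3 * Real.exp 9 * 12 * S0 ^ 2 * (2 * Real.pi * 4) with hC
  have hpi := Real.pi_pos
  have hE9 := Real.exp_pos 9
  have hspi : 0 < √Real.pi := Real.sqrt_pos.2 hpi
  refine ⟨C + 1, by positivity, fun T hT => ?_⟩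
  have hT0 : 0 < T := by linarith
  have hmono : ∀ {a b : ℝ}, a ≤ b → T ^ a ≤ T ^ b := fun h => Real.rpow_le_rpow_of_exponent_le hT h
  have hone : ∀ {a : ℝ}, 0 ≤ a → 1 ≤ T ^ a := fun h => Real.one_le_rpow hT h
  set x : ℝ := T ^ (2 * σ1 - 1) with hx
  have hx1 : 1 ≤ x := hone (by linarith)
  obtain ⟨hX1, hXle, hXge⟩ := floor_bounds x hx1
  obtain ⟨hL1, hLle, hLge⟩ := floor_bounds T hT
  set X := ⌊x⌋₊ with hXdef
  set L := ⌊T⌋₊ with hLdef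
  have hxT : x ≤ T := by
    calc x ≤ T ^ (1:ℝ) := hmono (by linarith)
      _ = T := Real.rpow_one T
  have hXL : X ≤ L := Nat.floor_mono hxT
  have hXr : (1:ℝ) ≤ X := by exact_mod_cast hX1
  have hLr : (1:ℝ) ≤ L := by exact_mod_cast hL1
  have hLX : ((L * X : ℕ) : ℝ) ≤ T ^ (2 * σ1) := by
    push_cast
    calc (L:ℝ) * X ≤ T * x := by gcongr
      _ = T ^ (2 * σ1) := by
        conv_lhs => rw [hx, ← Real.rpow_one T, Real.rpow_one]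
        rw [← Real.rpow_one_add' hT0.le (by linarith)]
        congr 1
        ring
  have hLX2 : ((L * X : ℕ) : ℝ) ≤ T ^ 2 := by
    refine hLX.trans ?_
    rw [← Real.rpow_two]
    exact hmono (by linarith)
  refine ⟨X, fun σ hσ => ?_⟩
  obtain ⟨hσ1, hσ2⟩ := hσ
  have hσ0 : 0 < σ := by linarith
  set K : ℝ := S0 * (X : ℝ) ^ (1 + η - σ1) with hK
  have hKn : ∀ t : ℝ, ‖MX X ((σ : ℂ) + t * I)‖ ≤ K := fun t =>
    MX_norm2 σ1 η hη0 (by linarith) X _ (by simpa using hσ1)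
  refine (fz_ms L X hX1 hXL σ T K (by linarith) hσ2 hT hLX2 hKn).trans ?_
  set P : ℝ := T ^ (4 * σ1 * (1 - σ1) + ε) with hP
  have hP1 : 1 ≤ P := hone (by nlinarith)
  have hX0 : (0:ℝ) < X := by linarith
  -- the bound for `K`
  have hK2 : K ^ 2 ≤ S0 ^ 2 * T ^ ((2 * σ1 - 1) * (2 * (1 + η - σ1))) := by
    rw [hK, mul_pow]
    refine mul_le_mul_of_nonneg_left ?_ (sq_nonneg _)
    rw [← Real.rpow_natCast ((X : ℝ) ^ (1 + η - σ1)) 2, ← Real.rpow_mul hX0.le]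
    calc (X : ℝ) ^ ((1 + η - σ1) * (2 : ℕ)) ≤ x ^ ((1 + η - σ1) * (2 : ℕ)) :=
          Real.rpow_le_rpow hX0.le hXle (by push_cast; linarith)
      _ = _ := by
          rw [hx, ← Real.rpow_mul hT0.le]
          congr 1
          push_cast
          ring
  -- first term
  have hA1 : ∑ n ∈ Finset.Ioc X (L * X), (T + n) * (aa L X n ^ 2 * (n : ℝ) ^ (-(2 * σ))) ≤
      Cd ^ 2 * S0 * 3 * P := by
    have hXp : T * (X:ℝ) ^ (-(2 * σ1 - 1 - 3 * η)) ≤ 2 * P := by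
      have e1 : (X:ℝ) ^ (-(2 * σ1 - 1 - 3 * η)) ≤ (x / 2) ^ (-(2 * σ1 - 1 - 3 * η)) :=
        Real.rpow_le_rpow_of_nonpos (by positivity) hXge (by linarith)
      have e2 : (x / 2) ^ (-(2 * σ1 - 1 - 3 * η)) =
          T ^ (-((2 * σ1 - 1) * (2 * σ1 - 1 - 3 * η))) * 2 ^ (2 * σ1 - 1 - 3 * η) := by
        rw [Real.div_rpow (by positivity) (by norm_num), hx, ← Real.rpow_mul hT0.le,
          Real.rpow_neg (by norm_num : (0:ℝ) ≤ 2), div_inv_eq_mul]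
        congr 2
        ring
      have e3 : (2:ℝ) ^ (2 * σ1 - 1 - 3 * η) ≤ 2 := by
        calc (2:ℝ) ^ (2 * σ1 - 1 - 3 * η) ≤ (2:ℝ) ^ (1:ℝ) :=
              Real.rpow_le_rpow_of_exponent_le (by norm_num) (by linarith)
          _ = 2 := Real.rpow_one 2
      have e4 : 0 < T ^ (-((2 * σ1 - 1) * (2 * σ1 - 1 - 3 * η))) := Real.rpow_pos_of_pos hT0 _
      calc T * (X:ℝ) ^ (-(2 * σ1 - 1 - 3 * η))
          ≤ T * (T ^ (-((2 * σ1 - 1) * (2 * σ1 - 1 - 3 * η))) * 2) := by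
            rw [e2] at e1
            refine mul_le_mul_of_nonneg_left (e1.trans ?_) hT0.le
            gcongr
        _ = 2 * (T ^ (1:ℝ) * T ^ (-((2 * σ1 - 1) * (2 * σ1 - 1 - 3 * η)))) := by
            rw [Real.rpow_one]; ring
        _ = 2 * T ^ (1 + -((2 * σ1 - 1) * (2 * σ1 - 1 - 3 * η))) := by rw [← Real.rpow_add hT0]
        _ ≤ 2 * P := by
            refine mul_le_mul_of_nonneg_left (hmono ?_) (by norm_num)
            nlinarith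
    have hLXp : ((L * X : ℕ) : ℝ) ^ (2 - 2 * σ1 + 3 * η) ≤ P := by
      calc ((L * X : ℕ) : ℝ) ^ (2 - 2 * σ1 + 3 * η) ≤ (T ^ (2 * σ1)) ^ (2 - 2 * σ1 + 3 * η) :=
            Real.rpow_le_rpow (Nat.cast_nonneg _) hLX (by linarith)
        _ = T ^ (2 * σ1 * (2 - 2 * σ1 + 3 * η)) := by rw [← Real.rpow_mul hT0.le]
        _ ≤ P := hmono (by nlinarith)
    have hterm : ∀ n ∈ Finset.Ioc X (L * X), (T + n) * (aa L X n ^ 2 * (n : ℝ) ^ (-(2 * σ))) ≤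
        Cd ^ 2 * (n : ℝ) ^ (-(1 + η)) * (3 * P) := by
      intro n hn
      rw [Finset.mem_Ioc] at hn
      have hn1 : 1 ≤ n := by omega
      have hnr : (1:ℝ) ≤ n := by exact_mod_cast hn1
      have hn0 : (0:ℝ) < n := by linarith
      have hXn : (X:ℝ) ≤ n := by exact_mod_cast hn.1.le
      have hnL : (n:ℝ) ≤ ((L * X : ℕ) : ℝ) := by exact_mod_cast hn.2
      have e1 : |aa L X n| ≤ Cd * (n:ℝ) ^ η :=
        (aa_abs L X n hn1).trans (hCd n (by omega))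
      have e2 : aa L X n ^ 2 ≤ (Cd * (n:ℝ) ^ η) ^ 2 := by
        rw [← sq_abs]
        exact pow_le_pow_left₀ (abs_nonneg _) e1 2
      have e3 : (n : ℝ) ^ (-(2 * σ)) ≤ (n:ℝ) ^ (-(2 * σ1)) :=
        Real.rpow_le_rpow_of_exponent_le hnr (by linarith)
      have e4 : (n:ℝ) ^ (-(2 * σ1 - 1 - 3 * η)) ≤ (X:ℝ) ^ (-(2 * σ1 - 1 - 3 * η)) :=
        Real.rpow_le_rpow_of_nonpos (by linarith) hXn (by linarith)
      have e5 : (n:ℝ) ^ (2 - 2 * σ1 + 3 * η) ≤ ((L * X : ℕ) : ℝ) ^ (2 - 2 * σ1 + 3 * η) :=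
        Real.rpow_le_rpow hn0.le hnL (by linarith)
      have e6 : aa L X n ^ 2 * (n : ℝ) ^ (-(2 * σ)) ≤
          Cd ^ 2 * (n : ℝ) ^ (-(1 + η)) * (n:ℝ) ^ (-(2 * σ1 - 1 - 3 * η)) := by
        calc aa L X n ^ 2 * (n : ℝ) ^ (-(2 * σ)) ≤ (Cd * (n:ℝ) ^ η) ^ 2 * (n:ℝ) ^ (-(2 * σ1)) := by
              gcongr
          _ = _ := by
            rw [mul_pow, mul_assoc, mul_assoc]
            congr 1
            rw [← Real.rpow_natCast ((n:ℝ) ^ η) 2, ← Real.rpow_mul hn0.le,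
              ← Real.rpow_add hn0, ← Real.rpow_add hn0]
            congr 1
            push_cast
            ring
      have e7 : (n:ℝ) * (n:ℝ) ^ (-(2 * σ1 - 1 - 3 * η)) = (n:ℝ) ^ (2 - 2 * σ1 + 3 * η) := by
        rw [← Real.rpow_one_add' hn0.le (by linarith)]
        congr 1
        ring
      have e8 : 0 < (n:ℝ) ^ (-(1 + η)) := Real.rpow_pos_of_pos hn0 _
      calc (T + n) * (aa L X n ^ 2 * (n : ℝ) ^ (-(2 * σ)))
          ≤ (T + n) * (Cd ^ 2 * (n : ℝ) ^ (-(1 + η)) * (n:ℝ) ^ (-(2 * σ1 - 1 - 3 * η))) := by gcongr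
        _ = Cd ^ 2 * (n : ℝ) ^ (-(1 + η)) * (T * (n:ℝ) ^ (-(2 * σ1 - 1 - 3 * η)) +
              (n:ℝ) * (n:ℝ) ^ (-(2 * σ1 - 1 - 3 * η))) := by ring
        _ ≤ Cd ^ 2 * (n : ℝ) ^ (-(1 + η)) * (3 * P) := by
            rw [e7]
            have : T * (n:ℝ) ^ (-(2 * σ1 - 1 - 3 * η)) ≤ 2 * P :=
              (mul_le_mul_of_nonneg_left e4 hT0.le).trans hXp
            have h9 := e5.trans hLXp
            gcongr
            linarith
    refine (Finset.sum_le_sum hterm).trans ?_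
    rw [← Finset.sum_mul, ← Finset.mul_sum]
    have e5 : ∑ n ∈ Finset.Ioc X (L * X), (n : ℝ) ^ (-(1 + η)) ≤ S0 :=
      hsum.sum_le_tsum _ (fun n _ => by positivity)
    calc Cd ^ 2 * (∑ n ∈ Finset.Ioc X (L * X), (n : ℝ) ^ (-(1 + η))) * (3 * P)
        ≤ Cd ^ 2 * S0 * (3 * P) := by gcongr
      _ = _ := by ring
  -- second term
  have hB : 30 * ((L : ℝ) ^ (1 - σ) * K) ^ 2 / T ≤ 30 * S0 ^ 2 * P := by
    have e1 : (L : ℝ) ^ (1 - σ) ≤ T ^ (1 - σ1) := by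
      calc (L : ℝ) ^ (1 - σ) ≤ (L:ℝ) ^ (1 - σ1) := Real.rpow_le_rpow_of_exponent_le hLr (by linarith)
        _ ≤ T ^ (1 - σ1) := Real.rpow_le_rpow (by linarith) hLle (by linarith)
    have e2 : ((L : ℝ) ^ (1 - σ) * K) ^ 2 ≤ S0 ^ 2 * P := by
      rw [mul_pow]
      calc ((L : ℝ) ^ (1 - σ)) ^ 2 * K ^ 2
          ≤ (T ^ (1 - σ1)) ^ 2 * (S0 ^ 2 * T ^ ((2 * σ1 - 1) * (2 * (1 + η - σ1)))) := by gcongr
        _ = S0 ^ 2 * T ^ (2 * (1 - σ1) + (2 * σ1 - 1) * (2 * (1 + η - σ1))) := by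
            rw [← Real.rpow_natCast (T ^ (1 - σ1)) 2, ← Real.rpow_mul hT0.le, Real.rpow_add hT0]
            push_cast
            rw [mul_comm (1 - σ1) 2]
            ring
        _ ≤ S0 ^ 2 * P := by
            refine mul_le_mul_of_nonneg_left (hmono ?_) (sq_nonneg _)
            nlinarith
    rw [div_le_iff₀ hT0]
    have : 0 ≤ S0 ^ 2 * P := by positivity
    nlinarith
  -- third term
  have hCc : 3 * Real.exp 9 * (12 * T ^ 2) * K ^ 2 *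
        (2 * Real.pi * ((L : ℝ) ^ (-(2 * σ)) / (2 * σ))) ≤
      3 * Real.exp 9 * 12 * S0 ^ 2 * (2 * Real.pi * 4) * P := by
    have e1 : (L : ℝ) ^ (-(2 * σ)) / (2 * σ) ≤ 4 * T ^ (-(2 * σ1)) := by
      have f1 : (L : ℝ) ^ (-(2 * σ)) ≤ (L:ℝ)^(-(2*σ1)) :=
        Real.rpow_le_rpow_of_exponent_le hLr (by linarith)
      have f2 : (L : ℝ) ^ (-(2 * σ)) / (2 * σ) ≤ (L:ℝ)^(-(2*σ1)) :=
        (div_le_self (by positivity) (by linarith)).trans f1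
      have f3 : (L:ℝ)^(-(2*σ1)) ≤ (T / 2)^(-(2*σ1)) :=
        Real.rpow_le_rpow_of_nonpos (by positivity) hLge (by linarith)
      have f4 : (T / 2)^(-(2*σ1)) = T ^ (-(2 * σ1)) * 2 ^ (2 * σ1) := by
        rw [Real.div_rpow (by positivity) (by norm_num), Real.rpow_neg (by norm_num : (0:ℝ) ≤ 2),
          div_inv_eq_mul]
      have f5 : (2:ℝ) ^ (2 * σ1) ≤ 4 := by
        calc (2:ℝ) ^ (2 * σ1) ≤ (2:ℝ) ^ (2:ℝ) :=
              Real.rpow_le_rpow_of_exponent_le (by norm_num) (by linarith)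
          _ = 4 := by norm_num
      have f6 : 0 < T ^ (-(2 * σ1)) := Real.rpow_pos_of_pos hT0 _
      rw [f4] at f3
      nlinarith
    have e2 : T ^ 2 * (T ^ ((2 * σ1 - 1) * (2 * (1 + η - σ1))) * T ^ (-(2 * σ1))) ≤ P := by
      rw [← Real.rpow_two, ← Real.rpow_add hT0, ← Real.rpow_add hT0]
      exact hmono (by nlinarith)
    calc 3 * Real.exp 9 * (12 * T ^ 2) * K ^ 2 * (2 * Real.pi * ((L : ℝ) ^ (-(2 * σ)) / (2 * σ)))
        ≤ 3 * Real.exp 9 * (12 * T ^ 2) * (S0 ^ 2 * T ^ ((2 * σ1 - 1) * (2 * (1 + η - σ1)))) *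
          (2 * Real.pi * (4 * T ^ (-(2 * σ1)))) := by gcongr
      _ = 3 * Real.exp 9 * 12 * S0 ^ 2 * (2 * Real.pi * 4) *
          (T ^ 2 * (T ^ ((2 * σ1 - 1) * (2 * (1 + η - σ1))) * T ^ (-(2 * σ1)))) := by ring
      _ ≤ _ := by gcongr
  have hfirst : 3 * Real.exp 9 * (24 * √Real.pi * ∑ n ∈ Finset.Ioc X (L * X),
        (T + n) * (aa L X n ^ 2 * (n : ℝ) ^ (-(2 * σ)))) ≤
      3 * Real.exp 9 * (24 * √Real.pi * (Cd ^ 2 * S0 * 3)) * P := by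
    calc _ ≤ 3 * Real.exp 9 * (24 * √Real.pi * (Cd ^ 2 * S0 * 3 * P)) := by gcongr
      _ = _ := by ring
  have : C * P + P = (C + 1) * P := by ring
  rw [← this, hC]
  have hP0 : 0 ≤ P := by linarith
  linarith

end Pool.Agent.W190
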